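import Mathlib

/-!
# MP_a4f5e0_gt, stream A: definitions

`Ln r C`: one line (`r t` the distance of its points from the centre, `C` its derivative).
`c0`, `fL`, `fS`, `fI`: kernels.  `Wf`, `Vf`, `Mf`, `Yf`, `Xf`, `Zf`: the special functions.
`PhiD Φ φ K`: an increasing function on `[0,1]` with derivative `φ` and `Φ z ≤ K z`.
-/

set_option autoImplicit false

open MeasureTheory Set Filter Topology Real

noncomputable section

namespace PPF

/-- the data of one line -/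
structure Ln (r C : ℝ → ℝ) : Prop where
  r0 : ∀ t, 0 ≤ r t
  rl : ∀ s t, |r s - r t| ≤ |s - t|
  rm : ∀ s t, |s - t| ≤ r s + r t
  hC : Measurable C
  C1 : ∀ t, |C t| ≤ 1
  ftc : ∀ a b, r b - r a = ∫ t in a..b, C t

/-- `cos ψ₀` with `sin ψ₀ = R / s` -/
def c0 (R s : ℝ) : ℝ := √(1 - R ^ 2 / s ^ 2)

/-- kernel of the length inequality -/
def fL (R s c : ℝ) : ENNReal := if R < s then ENNReal.ofReal (c / c0 R s - 1) else 0

/-- kernel of the sine inequality -/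
def fS (R s c : ℝ) : ENNReal :=
  if R < s then ENNReal.ofReal ((c - c0 R s) * ((c0 R s)⁻¹ - c)) else 0

/-- `1 - c²` inside the ball of radius `R` -/
def fI (R s c : ℝ) : ENNReal := if s ≤ R then ENNReal.ofReal (1 - c ^ 2) else 0

/-- `W(z) = z/√(1-z²) - arcsin z` -/
def Wf (z : ℝ) : ℝ := z / √(1 - z ^ 2) - arcsin z

/-- `V(z) = arcsin z - z √(1-z²)` -/
def Vf (z : ℝ) : ℝ := arcsin z - z * √(1 - z ^ 2)

/-- `m(z) = 4 W(z) - 2 V(z)` -/
def Mf (z : ℝ) : ℝ := 4 * Wf z - 2 * Vf z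

/-- `Y(z) = V(z)/(2z²)`, a primitive of `W(z) z⁻³` -/
def Yf (z : ℝ) : ℝ := Vf z / (2 * z ^ 2)

/-- `X(z) = 6 Y(z) - 2 arcsin z`, a primitive of `m(z) z⁻³` -/
def Xf (z : ℝ) : ℝ := 6 * Yf z - 2 * arcsin z

/-- `Z(z) = (arcsin z - Y(z))/2`, a primitive of `Y(z)/z` -/
def Zf (z : ℝ) : ℝ := (arcsin z - Yf z) / 2

/-- a continuous function on `(0,1]` with nonnegative derivative `φ` on `(0,1)` and
`0 ≤ Φ z ≤ K z` -/
structure PhiD (Φ φ : ℝ → ℝ) (K : ℝ) : Prop where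
  cont : ContinuousOn Φ (Ioc 0 1)
  der : ∀ z ∈ Ioo (0:ℝ) 1, HasDerivAt Φ (φ z) z
  meas : Measurable φ
  measΦ : Measurable Φ
  nonneg : ∀ z ∈ Ioo (0:ℝ) 1, 0 ≤ φ z
  Φ0 : ∀ z ∈ Ioc (0:ℝ) 1, 0 ≤ Φ z
  bd : ∀ z ∈ Ioc (0:ℝ) 1, Φ z ≤ K * z

/-- `∫_{ε < s ≤ T} s⁻² dm` -/
def Jm (m : Measure ℝ) (ε T : ℝ) : ENNReal := ∫⁻ s in Ioc ε T, ENNReal.ofReal ((s ^ 2)⁻¹) ∂m

/-- `E_Φ(T) = ∫_{s > T} s⁻² Φ(T/s) dm` -/
def Em (m : Measure ℝ) (Φ : ℝ → ℝ) (T : ℝ) : ENNReal :=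
  ∫⁻ s in Ioi T, ENNReal.ofReal ((s ^ 2)⁻¹ * Φ (T / s)) ∂m

/-- all the hypotheses of the analytic theorem -/
structure Hy {Λ : Type*} [MeasurableSpace Λ] (lam : Measure Λ) (r C : Λ → ℝ → ℝ)
    (m : Measure ℝ) : Prop where
  hr : Measurable (Function.uncurry r)
  hC : Measurable (Function.uncurry C)
  r0 : ∀ l t, 0 ≤ r l t
  rl : ∀ l s t, |r l s - r l t| ≤ |s - t|
  rm : ∀ l s t, |s - t| ≤ r l s + r l t
  C1 : ∀ l t, |C l t| ≤ 1
  hFTC : ∀ᵐ l ∂lam, ∀ a b, r l b - r l a = ∫ t in a..b, C l t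
  hmf : ∀ R, m (Set.Iic R) < ⊤
  hdis : ∀ F : ℝ × ℝ → ENNReal, Measurable F →
      ∫⁻ l, (∫⁻ t, F (r l t, |C l t|)) ∂lam =
        ∫⁻ ψ in Set.Ioc 0 (2 * π), (∫⁻ s, F (s, |cos ψ|) ∂m)
  hpair : ∀ R > 0, (lam {l | ∃ t, r l t ≤ R}) ^ 2 ≤
      8 * ∫⁻ l in {l | ∃ t, r l t ≤ R}, (∫⁻ t, ENNReal.ofReal (1 - (C l t) ^ 2)) ∂lam

/-- the measure `m` is `σ`-finite -/
theorem sigmaFinite_of_Iic {m : Measure ℝ} (hmf : ∀ R, m (Set.Iic R) < ⊤) : SigmaFinite m := by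
  haveI : IsLocallyFiniteMeasure m := ⟨fun x => ⟨Set.Iic (x + 1), Iic_mem_nhds (by linarith),
    hmf _⟩⟩
  infer_instance

theorem Hy.ln {Λ : Type*} [MeasurableSpace Λ] {lam : Measure Λ} {r C : Λ → ℝ → ℝ}
    {m : Measure ℝ} (H : Hy lam r C m) : ∀ᵐ l ∂lam, Ln (r l) (C l) := by
  filter_upwards [H.hFTC] with l hl
  exact ⟨H.r0 l, H.rl l, H.rm l, H.hC.comp measurable_prodMk_left, H.C1 l, hl⟩

theorem Ln.cont {r C : ℝ → ℝ} (h : Ln r C) : Continuous r := by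
  have : LipschitzWith 1 r := LipschitzWith.of_dist_le_mul (fun x y => by
    simpa [Real.dist_eq] using h.rl x y)
  exact this.continuous

theorem Ln.lower {r C : ℝ → ℝ} (h : Ln r C) (t : ℝ) : |t| - r 0 ≤ r t := by
  have := h.rm t 0
  simp at this
  linarith

theorem measurable_c0 : Measurable (fun p : ℝ × ℝ => c0 p.1 p.2) := by
  unfold c0
  fun_prop

theorem measurable_fL (R : ℝ) : Measurable (fun p : ℝ × ℝ => fL R p.1 p.2) := by
  unfold fL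
  refine Measurable.ite (measurableSet_lt measurable_const measurable_fst) ?_ measurable_const
  refine ENNReal.measurable_ofReal.comp ?_
  unfold c0
  fun_prop

theorem measurable_fS (R : ℝ) : Measurable (fun p : ℝ × ℝ => fS R p.1 p.2) := by
  unfold fS
  refine Measurable.ite (measurableSet_lt measurable_const measurable_fst) ?_ measurable_const
  refine ENNReal.measurable_ofReal.comp ?_
  unfold c0
  fun_prop

theorem measurable_fI (R : ℝ) : Measurable (fun p : ℝ × ℝ => fI R p.1 p.2) := by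
  unfold fI
  refine Measurable.ite (measurableSet_le measurable_fst measurable_const) ?_ measurable_const
  refine ENNReal.measurable_ofReal.comp ?_
  fun_prop

/-- exhaustion by symmetric intervals -/
theorem lint_le_of_Icc {f : ℝ → ENNReal} {S : Set ℝ} (hS : MeasurableSet S) {c : ENNReal}
    (h : ∀ᶠ T : ℝ in atTop, ∫⁻ t in Icc (-T) T ∩ S, f t ≤ c) : ∫⁻ t in S, f t ≤ c := by
  have hU : S = ⋃ n : ℕ, (Icc (-(n:ℝ)) n ∩ S) := by
    ext t
    simp only [mem_iUnion, mem_inter_iff, mem_Icc, exists_and_right]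
    constructor
    · intro ht
      obtain ⟨n, hn⟩ := exists_nat_ge |t|
      exact ⟨⟨n, (abs_le.1 hn)⟩, ht⟩
    · exact fun h => h.2
  have hmono : Monotone (fun n : ℕ => (Icc (-(n:ℝ)) n ∩ S)) := by
    intro a b hab
    have : (a:ℝ) ≤ b := by exact_mod_cast hab
    exact inter_subset_inter_left _ (Icc_subset_Icc (by linarith) this)
  rw [hU, setLIntegral_iUnion_of_directed _ (hmono.directed_le)]
  refine iSup_le fun n => ?_
  obtain ⟨T, hT1, hT2⟩ := (h.and (eventually_ge_atTop (n:ℝ))).exists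
  exact (lintegral_mono_set (inter_subset_inter_left _
    (Icc_subset_Icc (by linarith) hT2))).trans hT1

end PPF
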