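import Pool.Agent.Lib.MP_a4f5e0_gt.A.ADefs

set_option autoImplicit false

open MeasureTheory Set Filter Topology Real

noncomputable section

namespace PPF

theorem aj01_q {z : ℝ} (h1 : -1 < z) (h2 : z < 1) : 0 < 1 - z ^ 2 := by nlinarith

theorem aj01_dq {z : ℝ} (h1 : -1 < z) (h2 : z < 1) :
    HasDerivAt (fun z : ℝ => √(1 - z ^ 2)) (-z / √(1 - z ^ 2)) z := by
  have hq := aj01_q h1 h2
  have h3 : HasDerivAt (fun z : ℝ => 1 - z ^ 2) (-(2 * z)) z := by
    have := (hasDerivAt_pow 2 z).const_sub 1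
    simpa using this
  have h4 := h3.sqrt hq.ne'
  convert h4 using 1
  have : √(1 - z ^ 2) ≠ 0 := (Real.sqrt_pos.2 hq).ne'
  field_simp

theorem aj01_dV {z : ℝ} (h1 : -1 < z) (h2 : z < 1) :
    HasDerivAt Vf (2 * z ^ 2 / √(1 - z ^ 2)) z := by
  have hq := aj01_q h1 h2
  have hs : 0 < √(1 - z ^ 2) := Real.sqrt_pos.2 hq
  have hs2 : √(1 - z ^ 2) ^ 2 = 1 - z ^ 2 := Real.sq_sqrt hq.le
  have h3 : HasDerivAt Vf (1 / √(1 - z ^ 2) - (1 * √(1 - z ^ 2) + z * (-z / √(1 - z ^ 2)))) z :=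
    (Real.hasDerivAt_arcsin h1.ne' h2.ne).sub ((hasDerivAt_id z).mul (aj01_dq h1 h2))
  convert h3 using 1
  field_simp
  linear_combination hs2

/-- `Vf ≥ 0` -/
theorem aj01_V0 {z : ℝ} (h0 : 0 ≤ z) (h1 : z ≤ 1) : 0 ≤ Vf z := by
  unfold Vf
  have ha : 0 ≤ arcsin z := Real.arcsin_nonneg.2 h0
  have h2 : z ≤ arcsin z := by
    have := Real.sin_le ha
    rwa [Real.sin_arcsin (by linarith) h1] at this
  have h3 : √(1 - z ^ 2) ≤ 1 := by
    rw [Real.sqrt_le_one]
    nlinarith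
  have h4 : z * √(1 - z ^ 2) ≤ z * 1 := mul_le_mul_of_nonneg_left h3 h0
  linarith

theorem Yf_one : Yf 1 = π / 4 := by
  unfold Yf Vf
  rw [Real.arcsin_one]
  norm_num
  ring

theorem Wf_nonneg {z : ℝ} (hz : z ∈ Ioo (0:ℝ) 1) : 0 ≤ Wf z := by
  unfold Wf
  have ha : 0 < arcsin z := Real.arcsin_pos.2 hz.1
  have hb : arcsin z < π / 2 := Real.arcsin_lt_pi_div_two.2 hz.2
  have := Real.lt_tan ha hb
  rw [Real.tan_arcsin] at this
  linarith

/-- JOB AJ01.  `Yf` is a primitive of `Wf z * z⁻³`.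

Facts on `(0,1)`, `q = √(1-z²)`: `arcsin' = 1/q` (`Real.hasDerivAt_arcsin`), so
`Vf' = 1/q - q + z²/q = 2z²/q` and
`Yf' = Vf'/(2z²) - Vf/z³ = 1/q - Vf/z³`, and `Wf + Vf = z/q - z q = z³/q`, so `Yf' = Wf/z³`.
`Wf ≥ 0`: with `β = arcsin z ∈ (0,π/2)`, `z/q = tan β ≥ β` (`Real.lt_tan`).
`Yf ≥ 0`: `Vf ≥ 0` since `z q ≤ z ≤ arcsin z`.
Bound: for `z ≤ 1/2`: `Vf' = 2z²/q ≤ 4z²` and `Vf 0 = 0` so `Vf ≤ (4/3) z³` (monotonicity of
`(4/3) z³ - Vf` on `[0,1/2]`), `Yf ≤ (2/3) z`; for `z ≥ 1/2`: `Vf ≤ arcsin z ≤ π/2`, so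
`Yf ≤ (π/2)/(2 z²) ≤ π ≤ 2π z`.  So `K = 2π` works.
Measurability: `fun_prop` after unfolding (`Real.measurable_arcsin`).  Continuity on `(0,1]`:
`Real.continuous_arcsin`, `√` continuous, the denominator is not zero. -/
theorem PhiD_Y : ∃ K : ℝ, 0 ≤ K ∧ PhiD Yf (fun z => Wf z * (z ^ 3)⁻¹) K := by
  refine ⟨2 * π, by positivity, ?_⟩
  have hVm : Measurable Vf := by
    unfold Vf
    exact Real.measurable_arcsin.sub (by fun_prop)
  refine ⟨?_, ?_, ?_, ?_, ?_, ?_, ?_⟩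
  · -- continuity
    have hV : Continuous Vf := by
      unfold Vf
      exact Real.continuous_arcsin.sub (by fun_prop)
    unfold Yf
    refine ContinuousOn.div hV.continuousOn (by fun_prop) ?_
    intro z hz
    have := hz.1
    positivity
  · intro z hz
    have hz0 := hz.1
    have h1 : -1 < z := by linarith
    have h2 := hz.2
    have hq := aj01_q h1 h2
    have hs : 0 < √(1 - z ^ 2) := Real.sqrt_pos.2 hq
    have hs2 : √(1 - z ^ 2) ^ 2 = 1 - z ^ 2 := Real.sq_sqrt hq.le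
    have h3 : HasDerivAt (fun z : ℝ => 2 * z ^ 2) (4 * z) z := by
      have := (hasDerivAt_pow 2 z).const_mul 2
      have e : (2:ℝ) * (((2:ℕ):ℝ) * z ^ (2 - 1)) = 4 * z := by
        norm_num
        ring
      rwa [e] at this
    have h4 := (aj01_dV h1 h2).div h3 (by positivity)
    have h5 : HasDerivAt Yf ((2 * z ^ 2 / √(1 - z ^ 2) * (2 * z ^ 2) - Vf z * (4 * z)) /
        (2 * z ^ 2) ^ 2) z := h4
    convert h5 using 1
    unfold Wf Vf
    field_simp
    linear_combination -(4 * z) * hs2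
  · unfold Wf
    exact ((by fun_prop : Measurable fun z : ℝ => z / √(1 - z ^ 2)).sub
      Real.measurable_arcsin).mul (by fun_prop)
  · unfold Yf
    exact hVm.div (by fun_prop)
  · intro z hz
    have := hz.1
    exact mul_nonneg (Wf_nonneg hz) (by positivity)
  · intro z hz
    have := hz.1
    exact div_nonneg (aj01_V0 hz.1.le hz.2) (by positivity)
  · intro z hz
    have hz0 := hz.1
    have hpi := Real.pi_gt_three
    unfold Yf
    rw [div_le_iff₀ (by positivity)]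
    by_cases hh : z ≤ 1 / 2
    · have hz1 : z < 1 := by linarith
      have hq := aj01_q (by linarith : -1 < z) hz1
      have hs : 0 < √(1 - z ^ 2) := Real.sqrt_pos.2 hq
      have hs2 : √(1 - z ^ 2) ^ 2 = 1 - z ^ 2 := Real.sq_sqrt hq.le
      have hW := Wf_nonneg ⟨hz0, hz1⟩
      have hs3 : 1 / 2 ≤ √(1 - z ^ 2) := by
        refine Real.le_sqrt_of_sq_le ?_
        nlinarith
      have e1 : Vf z ≤ z ^ 3 / √(1 - z ^ 2) := by
        have e2 : z ^ 3 / √(1 - z ^ 2) = Wf z + Vf z := by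
          unfold Wf Vf
          field_simp
          linear_combination z * hs2
        rw [e2]
        linarith
      have e3 : z ^ 3 / √(1 - z ^ 2) ≤ 2 * z ^ 3 := by
        rw [div_le_iff₀ hs]
        have : 0 < z ^ 3 := by positivity
        nlinarith
      have : 0 < z ^ 3 := by positivity
      nlinarith
    · push Not at hh
      have ha : Vf z ≤ π / 2 := by
        unfold Vf
        have h1 := Real.arcsin_le_pi_div_two z
        have h2 : 0 ≤ z * √(1 - z ^ 2) := mul_nonneg hz0.le (Real.sqrt_nonneg _)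
        linarith
      have hz3 : 1 / 8 ≤ z ^ 3 := by
        have := pow_le_pow_left₀ (by norm_num : (0:ℝ) ≤ 1 / 2) hh.le 3
        norm_num at this
        linarith
      nlinarith [Real.pi_pos]

end PPF
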