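import Pool.Agent.Lib.MP_a4f5e0_gt.A.ADefs
import Pool.Agent.Lib.MP_a4f5e0_gt.A.AJ01
set_option autoImplicit false

open MeasureTheory Set Filter Topology Real

noncomputable section

namespace PPF

theorem aj02_q {z : ℝ} (h1 : -1 < z) (h2 : z < 1) : 0 < 1 - z ^ 2 := by nlinarith

theorem aj02_dq {z : ℝ} (h1 : -1 < z) (h2 : z < 1) :
    HasDerivAt (fun z : ℝ => √(1 - z ^ 2)) (-z / √(1 - z ^ 2)) z := by
  have hq := aj02_q h1 h2
  have h3 : HasDerivAt (fun z : ℝ => 1 - z ^ 2) (-(2 * z)) z := by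
    have := (hasDerivAt_pow 2 z).const_sub 1
    simpa using this
  have h4 := h3.sqrt hq.ne'
  convert h4 using 1
  have : √(1 - z ^ 2) ≠ 0 := (Real.sqrt_pos.2 hq).ne'
  field_simp

theorem aj02_dV {z : ℝ} (h1 : -1 < z) (h2 : z < 1) :
    HasDerivAt Vf (2 * z ^ 2 / √(1 - z ^ 2)) z := by
  have hq := aj02_q h1 h2
  have hs : 0 < √(1 - z ^ 2) := Real.sqrt_pos.2 hq
  have hs2 : √(1 - z ^ 2) ^ 2 = 1 - z ^ 2 := Real.sq_sqrt hq.le
  have h3 : HasDerivAt Vf (1 / √(1 - z ^ 2) - (1 * √(1 - z ^ 2) + z * (-z / √(1 - z ^ 2)))) z :=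
    (Real.hasDerivAt_arcsin h1.ne' h2.ne).sub ((hasDerivAt_id z).mul (aj02_dq h1 h2))
  convert h3 using 1
  field_simp
  linear_combination hs2

theorem aj02_dW {z : ℝ} (h1 : -1 < z) (h2 : z < 1) :
    HasDerivAt Wf (z ^ 2 / √(1 - z ^ 2) ^ 3) z := by
  have hq := aj02_q h1 h2
  have hs : 0 < √(1 - z ^ 2) := Real.sqrt_pos.2 hq
  have hs2 : √(1 - z ^ 2) ^ 2 = 1 - z ^ 2 := Real.sq_sqrt hq.le
  have h3 : HasDerivAt Wf ((1 * √(1 - z ^ 2) - z * (-z / √(1 - z ^ 2))) / √(1 - z ^ 2) ^ 2 -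
      1 / √(1 - z ^ 2)) z :=
    ((hasDerivAt_id z).div (aj02_dq h1 h2) hs.ne').sub (Real.hasDerivAt_arcsin h1.ne' h2.ne)
  convert h3 using 1
  field_simp
  ring

theorem aj02_dM {z : ℝ} (h1 : -1 < z) (h2 : z < 1) :
    HasDerivAt Mf (4 * z ^ 4 / √(1 - z ^ 2) ^ 3) z := by
  have hq := aj02_q h1 h2
  have hs : 0 < √(1 - z ^ 2) := Real.sqrt_pos.2 hq
  have hs2 : √(1 - z ^ 2) ^ 2 = 1 - z ^ 2 := Real.sq_sqrt hq.le
  have h3 : HasDerivAt Mf (4 * (z ^ 2 / √(1 - z ^ 2) ^ 3) - 2 * (2 * z ^ 2 / √(1 - z ^ 2))) z :=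
    ((aj02_dW h1 h2).const_mul 4).sub ((aj02_dV h1 h2).const_mul 2)
  convert h3 using 1
  field_simp
  linear_combination (4 * z ^ 2) * hs2

theorem Xf_one : Xf 1 = π / 2 := by
  unfold Xf
  rw [Yf_one, Real.arcsin_one]
  ring

/-- monotonicity from a nonnegative derivative on `(0,1)`, starting from `0` at `0` -/
theorem aj02_mono {f f' : ℝ → ℝ} {a : ℝ} (ha : 0 ≤ a) (hc : ContinuousOn f (Icc 0 a))
    (hd : ∀ z ∈ Ioo (0:ℝ) a, HasDerivAt f (f' z) z) (hn : ∀ z ∈ Ioo (0:ℝ) a, 0 ≤ f' z)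
    (h0 : f 0 = 0) : 0 ≤ f a := by
  have hm : MonotoneOn f (Icc 0 a) := by
    refine monotoneOn_of_deriv_nonneg (convex_Icc 0 a) hc ?_ ?_
    · rw [interior_Icc]
      exact fun z hz => (hd z hz).differentiableAt.differentiableWithinAt
    · rw [interior_Icc]
      intro z hz
      rw [(hd z hz).deriv]
      exact hn z hz
  have := hm (left_mem_Icc.2 ha) (right_mem_Icc.2 ha) ha
  rwa [h0] at this

theorem Mf_nonneg {z : ℝ} (hz : z ∈ Ioo (0:ℝ) 1) : 0 ≤ Mf z := by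
  have hz1 := hz.2
  have hz0 := hz.1
  refine aj02_mono (f' := fun z => 4 * z ^ 4 / √(1 - z ^ 2) ^ 3) hz.1.le ?_ ?_ ?_ ?_
  · intro x hx
    exact (aj02_dM (by linarith [hx.1]) (by linarith [hx.2])).continuousAt.continuousWithinAt
  · intro x hx
    exact aj02_dM (by linarith [hx.1]) (by linarith [hx.2])
  · intro x hx
    have := hx.1
    positivity
  · unfold Mf Wf Vf
    simp

/-- `2 z² arcsin z ≤ 3 V(z)` -/
theorem aj02_X0 {z : ℝ} (hz : z ∈ Ioc (0:ℝ) 1) : 0 ≤ 3 * Vf z - 2 * z ^ 2 * arcsin z := by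
  have hz1 := hz.2
  have hz0 := hz.1
  refine aj02_mono (f := fun z => 3 * Vf z - 2 * z ^ 2 * arcsin z) (f' := fun z => 4 * z * Wf z)
    hz.1.le ?_ ?_ ?_ ?_
  · have hV : Continuous Vf := by
      unfold Vf
      exact Real.continuous_arcsin.sub (by fun_prop)
    exact ((hV.const_mul 3).sub
      ((by fun_prop : Continuous fun z : ℝ => 2 * z ^ 2).mul Real.continuous_arcsin)).continuousOn
  · intro x hx
    have hx0 := hx.1
    have h1 : -1 < x := by linarith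
    have h2 : x < 1 := by linarith [hx.2]
    have hq := aj02_q h1 h2
    have hs : 0 < √(1 - x ^ 2) := Real.sqrt_pos.2 hq
    have h3 : HasDerivAt (fun z : ℝ => 2 * z ^ 2) (4 * x) x := by
      have := (hasDerivAt_pow 2 x).const_mul 2
      have e : (2:ℝ) * (((2:ℕ):ℝ) * x ^ (2 - 1)) = 4 * x := by
        norm_num
        ring
      rwa [e] at this
    have h4 : HasDerivAt (fun z => 3 * Vf z - 2 * z ^ 2 * arcsin z)
        (3 * (2 * x ^ 2 / √(1 - x ^ 2)) - (4 * x * arcsin x + 2 * x ^ 2 * (1 / √(1 - x ^ 2)))) x :=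
      ((aj02_dV h1 h2).const_mul 3).sub (h3.mul (Real.hasDerivAt_arcsin h1.ne' h2.ne))
    convert h4 using 1
    unfold Wf
    field_simp
    ring
  · intro x hx
    have h0 := hx.1
    exact mul_nonneg (by positivity) (Wf_nonneg ⟨hx.1, by linarith [hx.2]⟩)
  · simp [Vf]

/-- JOB AJ02.  `Xf = 6 Yf - 2 arcsin` is a primitive of `Mf z * z⁻³`, `Mf = 4 Wf - 2 Vf`.

On `(0,1)`, `q = √(1-z²)`: `Xf' = 6 Wf/z³ - 2/q` and `1/q = (Wf + Vf)/z³` (since
`Wf + Vf = z/q - z q = z³/q`), so `Xf' = (4 Wf - 2 Vf)/z³`.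
`Mf ≥ 0` on `(0,1)`: with `β = arcsin z`, `Mf = 4 tan β + 2 sin β cos β - 6 β`, zero at `β = 0`, with
derivative `4/cos² + 2 (cos² - sin²) - 6 = 4 (1/cos β - cos β)² ≥ 0`.
(Or: `Mf 0 = 0`, `Mf' z = 4 (1/q - q)²/q ≥ 0` on `(0,1)` directly in `z`:
`Wf' = 1/q³ - 1/q`, `Vf' = 2z²/q`, `4/q³ - 4/q - 4z²/q = 4 (1 - q² - z² q²)/q³ = 4 z⁴/q³`.)
`Xf z ≤ 6 Yf z ≤ 6 K z` (`arcsin z ≥ 0`).
`Xf ≥ 0`: `Xf` is monotone on `(0,1]` (nonnegative derivative), and
`Xf z ≥ - 2 arcsin z → 0` as `z → 0+` (because `Yf ≥ 0`). -/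
theorem PhiD_X : ∃ K : ℝ, 0 ≤ K ∧ PhiD Xf (fun z => Mf z * (z ^ 3)⁻¹) K := by
  obtain ⟨K, hK, hY⟩ := PhiD_Y
  refine ⟨6 * K, by positivity, ?_⟩
  have hWm : Measurable Wf := by
    unfold Wf
    exact (by fun_prop : Measurable fun z : ℝ => z / √(1 - z ^ 2)).sub Real.measurable_arcsin
  have hVm : Measurable Vf := by
    unfold Vf
    exact Real.measurable_arcsin.sub (by fun_prop)
  refine ⟨?_, ?_, ?_, ?_, ?_, ?_, ?_⟩
  · exact (hY.cont.const_mul 6).sub (Real.continuous_arcsin.continuousOn.const_mul 2)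
  · intro z hz
    have hz0 := hz.1
    have h1 : -1 < z := by linarith
    have h2 := hz.2
    have hq := aj02_q h1 h2
    have hs : 0 < √(1 - z ^ 2) := Real.sqrt_pos.2 hq
    have hs2 : √(1 - z ^ 2) ^ 2 = 1 - z ^ 2 := Real.sq_sqrt hq.le
    have h3 : HasDerivAt Xf (6 * (Wf z * (z ^ 3)⁻¹) - 2 * (1 / √(1 - z ^ 2))) z :=
      ((hY.der z hz).const_mul 6).sub ((Real.hasDerivAt_arcsin h1.ne' h2.ne).const_mul 2)
    convert h3 using 1
    unfold Mf Wf Vf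
    field_simp
    linear_combination (2 * z) * hs2
  · unfold Mf
    exact ((hWm.const_mul 4).sub (hVm.const_mul 2)).mul (by fun_prop)
  · exact (hY.measΦ.const_mul 6).sub (Real.measurable_arcsin.const_mul 2)
  · intro z hz
    have := hz.1
    exact mul_nonneg (Mf_nonneg hz) (by positivity)
  · intro z hz
    have hz0 := hz.1
    have h := aj02_X0 hz
    have e : Xf z = (3 * Vf z - 2 * z ^ 2 * arcsin z) / z ^ 2 := by
      unfold Xf Yf
      field_simp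
      ring
    rw [e]
    positivity
  · intro z hz
    have h1 := hY.bd z hz
    have h2 : 0 ≤ arcsin z := Real.arcsin_nonneg.2 hz.1.le
    unfold Xf
    linarith

end PPF
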