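import Pool.Agent.Lib.MP_a4f5e0_gt.A.ADefs
import Pool.Agent.Lib.MP_a4f5e0_gt.A.AJ01
set_option autoImplicit false

open MeasureTheory Set Filter Topology Real

noncomputable section

namespace PPF

theorem aj03_arcsin_le {z : ℝ} (h0 : 0 ≤ z) (h1 : z ≤ 1) : arcsin z ≤ 2 * z := by
  have h2 := Real.mul_le_sin (Real.arcsin_nonneg.2 h0) (Real.arcsin_le_pi_div_two z)
  rw [Real.sin_arcsin (by linarith) h1] at h2
  have h3 : 1 / 2 ≤ 2 / π := by
    rw [div_le_div_iff₀ two_pos Real.pi_pos]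
    linarith [Real.pi_le_four]
  have h4 : 1 / 2 * arcsin z ≤ 2 / π * arcsin z :=
    mul_le_mul_of_nonneg_right h3 (Real.arcsin_nonneg.2 h0)
  linarith

theorem aj03_der {z : ℝ} (hz : z ∈ Ioo (0:ℝ) 1)
    (h : HasDerivAt Yf (Wf z * (z ^ 3)⁻¹) z) : HasDerivAt Zf (Yf z / z) z := by
  have h1 : HasDerivAt arcsin (1 / √(1 - z ^ 2)) z :=
    Real.hasDerivAt_arcsin (by linarith [hz.1]) (by linarith [hz.2])
  have h2 : HasDerivAt Zf ((1 / √(1 - z ^ 2) - Wf z * (z ^ 3)⁻¹) / 2) z :=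
    (h1.sub h).div_const 2
  have h3 : 0 < 1 - z ^ 2 := by nlinarith [hz.1, hz.2]
  have h4 : 0 < √(1 - z ^ 2) := Real.sqrt_pos.2 h3
  have h5 : √(1 - z ^ 2) ^ 2 = 1 - z ^ 2 := Real.sq_sqrt h3.le
  convert h2 using 1
  unfold Yf Wf Vf
  have h6 : z ≠ 0 := hz.1.ne'
  have h7 := h4.ne'
  generalize √(1 - z ^ 2) = q at h5 h7
  field_simp
  linear_combination (-z) * h5

/-- JOB AJ03.  `Zf = (arcsin - Yf)/2` is a primitive of `Yf z / z`.

On `(0,1)`, `q = √(1-z²)`: `Zf' = (1/q - Wf/z³)/2`, and `1/q = (Wf + Vf)/z³` (since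
`Wf + Vf = z/q - z q = z³/q`), so `Zf' = Vf/(2z³) = Yf/z`.
`Zf z ≤ arcsin z / 2 ≤ z` (`arcsin z ≤ (π/2) z` : `Real.mul_le_sin` gives
`(2/π) β ≤ sin β` for `β = arcsin z ∈ [0,π/2]`), so the bound constant `1` works.
`Zf ≥ 0`: `Zf` is monotone on `(0,1]`, and `Zf z ≥ - Yf z/2 ≥ -K z/2 → 0` as `z → 0+`. -/
theorem PhiD_Z : ∃ K : ℝ, 0 ≤ K ∧ PhiD Zf (fun z => Yf z / z) K := by
  obtain ⟨K, hK, hY⟩ := PhiD_Y
  have hcont : ContinuousOn Zf (Ioc 0 1) :=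
    (Real.continuous_arcsin.continuousOn.sub hY.cont).div_const 2
  have hder : ∀ z ∈ Ioo (0:ℝ) 1, HasDerivAt Zf (Yf z / z) z := fun z hz =>
    aj03_der hz (hY.der z hz)
  have hnn : ∀ z ∈ Ioo (0:ℝ) 1, 0 ≤ Yf z / z := fun z hz =>
    div_nonneg (hY.Φ0 z ⟨hz.1, hz.2.le⟩) hz.1.le
  have hmono : MonotoneOn Zf (Ioc 0 1) := by
    refine monotoneOn_of_deriv_nonneg (convex_Ioc 0 1) hcont ?_ ?_
    · rw [interior_Ioc]
      exact fun z hz => (hder z hz).differentiableAt.differentiableWithinAt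
    · rw [interior_Ioc]
      intro z hz
      rw [(hder z hz).deriv]
      exact hnn z hz
  refine ⟨1, zero_le_one, ⟨hcont, hder, hY.measΦ.div measurable_id,
    (Real.measurable_arcsin.sub hY.measΦ).div_const 2, hnn, ?_, ?_⟩⟩
  · intro z hz
    by_contra hneg
    push Not at hneg
    have hK1 : 0 < K + 1 := by linarith
    obtain ⟨w, hw⟩ : ∃ w, w = min (z / 2) (-Zf z / (K + 1)) := ⟨_, rfl⟩
    have hw0 : 0 < w := by
      rw [hw]
      exact lt_min (by linarith [hz.1]) (div_pos (by linarith) hK1)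
    have hwz : w ≤ z / 2 := by rw [hw]; exact min_le_left _ _
    have hwK : w * (K + 1) ≤ -Zf z := by
      have h1 : w ≤ -Zf z / (K + 1) := by rw [hw]; exact min_le_right _ _
      rwa [le_div_iff₀ hK1] at h1
    have hwI : w ∈ Ioc (0:ℝ) 1 := ⟨hw0, by linarith [hz.1, hz.2]⟩
    have h2 : Zf w ≤ Zf z := hmono hwI hz (by linarith [hz.1])
    have h3 : Yf w ≤ K * w := hY.bd w hwI
    have h4 : 0 ≤ arcsin w := Real.arcsin_nonneg.2 hw0.le
    have h5 : Zf w = (arcsin w - Yf w) / 2 := rfl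
    nlinarith
  · intro z hz
    have h1 := aj03_arcsin_le hz.1.le hz.2
    have h2 := hY.Φ0 z hz
    have h3 : Zf z = (arcsin z - Yf z) / 2 := rfl
    linarith

theorem Zf_one : Zf 1 = π / 8 := by
  unfold Zf
  rw [Yf_one, Real.arcsin_one]
  ring

end PPF
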