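import Pool.Agent.Lib.MP_a4f5e0_gt.A.ADefs

set_option autoImplicit false

open MeasureTheory Set Filter Topology Real

noncomputable section

namespace PPF

/-- JOB AJ04.  The inner integral: FTC for `R ↦ s⁻² Φ(R/s)` on `[ε, b]`, `b = min T s`.

`G R = (s²)⁻¹ Φ(R/s)` is continuous on `[ε,b]` (`R/s ∈ (0,1]`), and for `R ∈ (ε,b)`, `R/s ∈ (0,1)`,
`G' R = (s³)⁻¹ φ(R/s) ≥ 0`.  `intervalIntegral.integrableOn_deriv_of_nonneg` gives integrability and
`intervalIntegral.integral_eq_sub_of_hasDerivAt_of_le` the value `G b - G ε`; then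
`ofReal_integral_eq_lintegral_ofReal` (nonnegativity a.e. on `Ioc ε b`: the end point is a null set)
and `ENNReal.ofReal_add`. -/
theorem phi_inner {Φ φ : ℝ → ℝ} {K : ℝ} (h : PhiD Φ φ K) {ε b s : ℝ} (hε : 0 < ε)
    (hεb : ε ≤ b) (hbs : b ≤ s) :
    (∫⁻ R in Ioc ε b, ENNReal.ofReal ((s ^ 3)⁻¹ * φ (R / s))) +
      ENNReal.ofReal ((s ^ 2)⁻¹ * Φ (ε / s)) = ENNReal.ofReal ((s ^ 2)⁻¹ * Φ (b / s)) := by
  have hs : 0 < s := by linarith
  set G : ℝ → ℝ := fun R => (s ^ 2)⁻¹ * Φ (R / s) with hG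
  set g : ℝ → ℝ := fun R => (s ^ 3)⁻¹ * φ (R / s) with hg
  have hcont : ContinuousOn G (Icc ε b) := by
    apply ContinuousOn.mul continuousOn_const
    apply h.cont.comp (continuousOn_id.div_const s)
    intro R hR
    show R / s ∈ Ioc (0:ℝ) 1
    exact ⟨div_pos (by linarith [hR.1]) hs, (div_le_one hs).2 (by linarith [hR.2])⟩
  have hder : ∀ R ∈ Ioo ε b, HasDerivAt G (g R) R := by
    intro R hR
    have h1 : R / s ∈ Ioo (0:ℝ) 1 :=
      ⟨div_pos (by linarith [hR.1]) hs, (div_lt_one hs).2 (by linarith [hR.2])⟩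
    have h2 : HasDerivAt (fun R : ℝ => R / s) (1 / s) R := (hasDerivAt_id R).div_const s
    have h3 := ((h.der _ h1).comp R h2).const_mul ((s ^ 2)⁻¹)
    have e : (s ^ 2)⁻¹ * (φ (R / s) * (1 / s)) = g R := by
      rw [hg]
      simp only
      field_simp
    rw [e] at h3
    exact h3
  have hpos : ∀ R ∈ Ioo ε b, 0 ≤ g R := by
    intro R hR
    have h1 : R / s ∈ Ioo (0:ℝ) 1 :=
      ⟨div_pos (by linarith [hR.1]) hs, (div_lt_one hs).2 (by linarith [hR.2])⟩
    exact mul_nonneg (by positivity) (h.nonneg _ h1)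
  have hint : IntegrableOn g (Ioc ε b) :=
    intervalIntegral.integrableOn_deriv_of_nonneg hcont hder hpos
  have hval : ∫ R in ε..b, g R = G b - G ε :=
    intervalIntegral.integral_eq_sub_of_hasDerivAt_of_le hεb hcont hder
      ((intervalIntegrable_iff_integrableOn_Ioc_of_le hεb).2 hint)
  rw [intervalIntegral.integral_of_le hεb] at hval
  have hae : 0 ≤ᵐ[volume.restrict (Ioc ε b)] g := by
    rw [← Measure.restrict_congr_set Ioo_ae_eq_Ioc]
    exact (ae_restrict_iff' measurableSet_Ioo).2 (Filter.Eventually.of_forall hpos)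
  have h1 : ∫⁻ R in Ioc ε b, ENNReal.ofReal (g R) = ENNReal.ofReal (G b - G ε) := by
    rw [← hval]
    exact (ofReal_integral_eq_lintegral_ofReal hint hae).symm
  have h2 : 0 ≤ G b - G ε := by
    rw [← hval]
    exact integral_nonneg_of_ae hae
  have h3 : 0 ≤ G ε := by
    have h4 : ε / s ∈ Ioc (0:ℝ) 1 := ⟨div_pos hε hs, (div_le_one hs).2 (by linarith)⟩
    exact mul_nonneg (by positivity) (h.Φ0 _ h4)
  have h5 : ENNReal.ofReal (G b) = ENNReal.ofReal (G b - G ε) + ENNReal.ofReal (G ε) := by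
    rw [← ENNReal.ofReal_add h2 h3]
    congr 1
    ring
  show (∫⁻ R in Ioc ε b, ENNReal.ofReal (g R)) + ENNReal.ofReal (G ε) = ENNReal.ofReal (G b)
  rw [h1, h5]

end PPF
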