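import Pool.Agent.Lib.MP_a4f5e0_gt.A.ADefs
import Pool.Agent.Lib.MP_a4f5e0_gt.A.AJ04
set_option autoImplicit false

open MeasureTheory Set Filter Topology Real

noncomputable section

namespace PPF

/-- JOB AJ05.  Tonelli for the kernel `s⁻³ φ(R/s)` on `{ε < R ≤ T, R < s}`.

`∫⁻ R in Ioc ε T, ∫⁻ s in Ioi R, k R s ∂m = ∫⁻ s in Ioi ε, ∫⁻ R in Ioc ε T ∩ Iio s, k R s ∂m`
(write both as double integrals of the indicator of the measurable set
`{(R,s) | ε < R ≤ T, R < s}` and use `lintegral_lintegral_swap`; `k R s = ofReal ((s³)⁻¹ φ(R/s))` is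
measurable in `(R,s)`), the inner domain is a.e. equal to `Ioc ε (min T s)` (it differs at most in the
point `s`; `Ioo_ae_eq_Ioc`).  Then `phi_inner` with `b = min T s`, pointwise for `s > ε`:
inner integral `+ ofReal (s⁻² Φ(ε/s)) = ofReal (s⁻² Φ(min T s/s))`.  Integrate over `s ∈ Ioi ε`:
LHS is the left-hand side of the theorem (`lintegral_add_right`, measurability of `Φ`), and the
right-hand side splits into `Ioc ε T` (where `min T s = s`, `Φ (s/s) = Φ 1`,
`ofReal ((s²)⁻¹ * Φ 1) = ofReal (Φ 1) * ofReal ((s²)⁻¹)`, note `0 ≤ Φ 1`) and `Ioi T`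
(where `min T s = T`). -/
theorem phi_tonelli {Φ φ : ℝ → ℝ} {K : ℝ} (h : PhiD Φ φ K) (m : Measure ℝ) [SigmaFinite m]
    {ε T : ℝ} (hε : 0 < ε) (hT : ε ≤ T) :
    (∫⁻ R in Ioc ε T, (∫⁻ s in Ioi R, ENNReal.ofReal ((s ^ 3)⁻¹ * φ (R / s)) ∂m)) + Em m Φ ε =
      ENNReal.ofReal (Φ 1) * Jm m ε T + Em m Φ T := by
  set A : Set (ℝ × ℝ) := {p | (ε < p.1 ∧ p.1 ≤ T) ∧ p.1 < p.2} with hA
  have hAm : MeasurableSet A := by
    apply MeasurableSet.inter
    · exact (measurableSet_lt measurable_const measurable_fst).inter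
        (measurableSet_le measurable_fst measurable_const)
    · exact measurableSet_lt measurable_fst measurable_snd
  set f : ℝ × ℝ → ENNReal := fun p => ENNReal.ofReal ((p.2 ^ 3)⁻¹ * φ (p.1 / p.2)) with hf
  have hfm : Measurable f := by
    apply ENNReal.measurable_ofReal.comp
    apply Measurable.mul
    · exact (measurable_snd.pow_const 3).inv
    · exact h.meas.comp (measurable_fst.div measurable_snd)
  have hFm : Measurable (A.indicator f) := hfm.indicator hAm
  have e1 : (∫⁻ R in Ioc ε T, (∫⁻ s in Ioi R, ENNReal.ofReal ((s ^ 3)⁻¹ * φ (R / s)) ∂m)) =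
      ∫⁻ R, ∫⁻ s, A.indicator f (R, s) ∂m := by
    rw [← lintegral_indicator measurableSet_Ioc]
    apply lintegral_congr
    intro R
    by_cases hR : R ∈ Ioc ε T
    · rw [indicator_of_mem hR, ← lintegral_indicator measurableSet_Ioi]
      apply lintegral_congr
      intro s
      by_cases hs : s ∈ Ioi R
      · rw [indicator_of_mem hs, indicator_of_mem (show (R, s) ∈ A from ⟨hR, hs⟩)]
      · rw [indicator_of_notMem hs, indicator_of_notMem (fun hh : (R, s) ∈ A => hs hh.2)]
    · rw [indicator_of_notMem hR]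
      have h0 : ∀ s : ℝ, A.indicator f (R, s) = 0 := fun s =>
        indicator_of_notMem (fun hh : (R, s) ∈ A => hR hh.1) f
      simp only [h0, lintegral_zero]
  have e2 : ∫⁻ R, ∫⁻ s, A.indicator f (R, s) ∂m = ∫⁻ s, (∫⁻ R, A.indicator f (R, s)) ∂m :=
    lintegral_lintegral_swap (μ := volume) (ν := m) (f := fun R s => A.indicator f (R, s))
      hFm.aemeasurable
  have e3 : ∫⁻ s, (∫⁻ R, A.indicator f (R, s)) ∂m =
      ∫⁻ s in Ioi ε, (∫⁻ R in Ioc ε (min T s), ENNReal.ofReal ((s ^ 3)⁻¹ * φ (R / s))) ∂m := by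
    rw [← lintegral_indicator measurableSet_Ioi]
    apply lintegral_congr
    intro s
    by_cases hs : s ∈ Ioi ε
    · rw [indicator_of_mem hs, ← lintegral_indicator measurableSet_Ioc]
      apply lintegral_congr_ae
      have hne : ∀ᵐ R : ℝ, R ≠ s := by
        rw [ae_iff]
        simp
      filter_upwards [hne] with R hR
      by_cases hR2 : R ∈ Ioc ε (min T s)
      · rw [indicator_of_mem hR2, indicator_of_mem]
        exact ⟨⟨hR2.1, hR2.2.trans (min_le_left _ _)⟩,
          lt_of_le_of_ne (hR2.2.trans (min_le_right _ _)) hR⟩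
      · rw [indicator_of_notMem hR2, indicator_of_notMem]
        intro hh
        exact hR2 ⟨hh.1.1, le_min hh.1.2 hh.2.le⟩
    · rw [indicator_of_notMem hs]
      have h0 : ∀ R : ℝ, A.indicator f (R, s) = 0 := fun R =>
        indicator_of_notMem (fun hh : (R, s) ∈ A => hs (lt_trans hh.1.1 hh.2)) f
      simp only [h0, lintegral_zero]
  have hm2 : ∀ T : ℝ, Measurable (fun s : ℝ => ENNReal.ofReal ((s ^ 2)⁻¹ * Φ (T / s))) := by
    intro T
    apply ENNReal.measurable_ofReal.comp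
    apply Measurable.mul
    · exact (measurable_id.pow_const 2).inv
    · exact h.measΦ.comp (measurable_const.div measurable_id)
  rw [e1, e2, e3]
  unfold Em
  rw [← lintegral_add_right _ (hm2 ε)]
  have e4 : ∫⁻ s in Ioi ε, ((∫⁻ R in Ioc ε (min T s), ENNReal.ofReal ((s ^ 3)⁻¹ * φ (R / s))) +
      ENNReal.ofReal ((s ^ 2)⁻¹ * Φ (ε / s))) ∂m =
      ∫⁻ s in Ioi ε, ENNReal.ofReal ((s ^ 2)⁻¹ * Φ (min T s / s)) ∂m := by
    apply setLIntegral_congr_fun measurableSet_Ioi
    intro s hs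
    exact phi_inner h hε (le_min hT (le_of_lt hs)) (min_le_right _ _)
  have hdisj : Disjoint (Ioc ε T) (Ioi T) :=
    Set.disjoint_left.2 (fun x hx hx' => absurd hx.2 (not_le.2 hx'))
  rw [e4, ← Ioc_union_Ioi_eq_Ioi hT, lintegral_union measurableSet_Ioi hdisj]
  congr 1
  · unfold Jm
    rw [← lintegral_const_mul' _ _ ENNReal.ofReal_ne_top]
    apply setLIntegral_congr_fun measurableSet_Ioc
    intro s hs
    have hs0 : s ≠ 0 := by
      have := hs.1
      intro h0
      linarith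
    have h1 : (0:ℝ) ≤ Φ 1 := h.Φ0 1 ⟨one_pos, le_rfl⟩
    simp only
    rw [min_eq_right hs.2, div_self hs0, mul_comm, ENNReal.ofReal_mul h1]
  · apply setLIntegral_congr_fun measurableSet_Ioi
    intro s hs
    simp only
    rw [min_eq_left (le_of_lt hs)]

end PPF
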