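import Pool.Agent.Lib.MP_a4f5e0_gt.A.ADefs

set_option autoImplicit false

open MeasureTheory Set Filter Topology Real

noncomputable section

namespace PPF

/-- integral of a continuous nonnegative derivative on `(c, T]` -/
theorem aj06_ftc {G g : ℝ → ℝ} {c T : ℝ} (hcT : c ≤ T) (hder : ∀ R ∈ Icc c T, HasDerivAt G (g R) R)
    (hpos : ∀ R ∈ Icc c T, 0 ≤ g R) :
    ∫⁻ R in Ioc c T, ENNReal.ofReal (g R) = ENNReal.ofReal (G T - G c) := by
  have hcont : ContinuousOn G (Icc c T) := fun R hR => (hder R hR).continuousAt.continuousWithinAt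
  have hint : IntegrableOn g (Ioc c T) :=
    intervalIntegral.integrableOn_deriv_of_nonneg hcont (fun R hR => hder R (Ioo_subset_Icc_self hR))
      (fun R hR => hpos R (Ioo_subset_Icc_self hR))
  have hval : ∫ R in c..T, g R = G T - G c :=
    intervalIntegral.integral_eq_sub_of_hasDerivAt_of_le hcT hcont
      (fun R hR => hder R (Ioo_subset_Icc_self hR))
      ((intervalIntegrable_iff_integrableOn_Ioc_of_le hcT).2 hint)
  rw [intervalIntegral.integral_of_le hcT] at hval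
  rw [← hval]
  refine (ofReal_integral_eq_lintegral_ofReal hint ?_).symm
  exact (ae_restrict_iff' measurableSet_Ioc).2
    (Filter.Eventually.of_forall fun R hR => hpos R (Ioc_subset_Icc_self hR))

theorem aj06_cube {c T : ℝ} (hc : 0 < c) (hcT : c ≤ T) :
    2 * (∫⁻ R in Ioc c T, ENNReal.ofReal ((R ^ 3)⁻¹)) + ENNReal.ofReal ((T ^ 2)⁻¹) =
      ENNReal.ofReal ((c ^ 2)⁻¹) := by
  have hT : 0 < T := by linarith
  have h1 : ∫⁻ R in Ioc c T, ENNReal.ofReal ((R ^ 3)⁻¹) =
      ENNReal.ofReal (-((T ^ 2)⁻¹ / 2) - -((c ^ 2)⁻¹ / 2)) := by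
    apply aj06_ftc (G := fun R => -((R ^ 2)⁻¹ / 2)) hcT
    · intro R hR
      have hR0 : R ≠ 0 := by
        have := hR.1
        intro h0
        linarith
      have h2 : HasDerivAt (fun R : ℝ => R ^ 2) (2 * R) R := by
        simpa using hasDerivAt_pow 2 R
      have h3 := ((h2.inv (pow_ne_zero 2 hR0)).div_const 2).neg
      have e : -(-(2 * R) / (R ^ 2) ^ 2 / 2) = (R ^ 3)⁻¹ := by
        field_simp
      rw [e] at h3
      exact h3
    · intro R hR
      have : 0 < R := by linarith [hR.1]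
      positivity
  have h4 : (T ^ 2)⁻¹ ≤ (c ^ 2)⁻¹ := by
    apply inv_anti₀ (by positivity)
    exact pow_le_pow_left₀ hc.le hcT 2
  have h5 : (2 : ENNReal) = ENNReal.ofReal 2 := by simp
  rw [h1, h5, ← ENNReal.ofReal_mul (by norm_num), ← ENNReal.ofReal_add (by linarith) (by positivity)]
  congr 1
  ring

/-- JOB AJ06.  Tonelli for `∫ R⁻³ m(Iic R) dR`.

`m (Iic R) = ∫⁻ s, 1_{s ≤ R} ∂m`; swap (`lintegral_lintegral_swap`): the left integral is
`∫⁻ s in Iic T, (2 * ∫⁻ R in Ioc (max ε s) T, ofReal (R³)⁻¹) ∂m` (up to the point `R = s`), and for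
`0 < c ≤ T`: `2 * ∫⁻ R in Ioc c T, ofReal (R³)⁻¹ + ofReal (T²)⁻¹ = ofReal (c²)⁻¹`
(primitive `-(R²)⁻¹/2`).  With `ofReal (T²)⁻¹ * m (Iic T) = ∫⁻ s in Iic T, ofReal (T²)⁻¹ ∂m` the sum
is `∫⁻ s in Iic T, ofReal ((max ε s)²)⁻¹ ∂m`; split `Iic T = Iic ε ∪ Ioc ε T`. -/
theorem a_tonelli (m : Measure ℝ) [SigmaFinite m] {ε T : ℝ} (hε : 0 < ε) (hT : ε ≤ T) :
    2 * (∫⁻ R in Ioc ε T, ENNReal.ofReal ((R ^ 3)⁻¹) * m (Iic R)) +
      ENNReal.ofReal ((T ^ 2)⁻¹) * m (Iic T) =
      ENNReal.ofReal ((ε ^ 2)⁻¹) * m (Iic ε) + Jm m ε T := by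
  set A : Set (ℝ × ℝ) := {p | (ε < p.1 ∧ p.1 ≤ T) ∧ p.2 ≤ p.1} with hA
  have hAm : MeasurableSet A := by
    apply MeasurableSet.inter
    · exact (measurableSet_lt measurable_const measurable_fst).inter
        (measurableSet_le measurable_fst measurable_const)
    · exact measurableSet_le measurable_snd measurable_fst
  set f : ℝ × ℝ → ENNReal := fun p => ENNReal.ofReal ((p.1 ^ 3)⁻¹) with hf
  have hfm : Measurable f := by
    apply ENNReal.measurable_ofReal.comp
    exact (measurable_fst.pow_const 3).inv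
  have hFm : Measurable (A.indicator f) := hfm.indicator hAm
  have e1 : (∫⁻ R in Ioc ε T, ENNReal.ofReal ((R ^ 3)⁻¹) * m (Iic R)) =
      ∫⁻ R, ∫⁻ s, A.indicator f (R, s) ∂m := by
    rw [← lintegral_indicator measurableSet_Ioc]
    apply lintegral_congr
    intro R
    by_cases hR : R ∈ Ioc ε T
    · rw [indicator_of_mem hR, ← lintegral_indicator_const measurableSet_Iic]
      apply lintegral_congr
      intro s
      by_cases hs : s ∈ Iic R
      · rw [indicator_of_mem hs, indicator_of_mem (show (R, s) ∈ A from ⟨hR, hs⟩)]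
      · rw [indicator_of_notMem hs, indicator_of_notMem (fun hh : (R, s) ∈ A => hs hh.2)]
    · rw [indicator_of_notMem hR]
      have h0 : ∀ s : ℝ, A.indicator f (R, s) = 0 := fun s =>
        indicator_of_notMem (fun hh : (R, s) ∈ A => hR hh.1) f
      simp only [h0, lintegral_zero]
  have e2 : ∫⁻ R, ∫⁻ s, A.indicator f (R, s) ∂m = ∫⁻ s, (∫⁻ R, A.indicator f (R, s)) ∂m :=
    lintegral_lintegral_swap (μ := volume) (ν := m) (f := fun R s => A.indicator f (R, s))
      hFm.aemeasurable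
  have e3 : ∫⁻ s, (∫⁻ R, A.indicator f (R, s)) ∂m =
      ∫⁻ s in Iic T, (∫⁻ R in Ioc (max ε s) T, ENNReal.ofReal ((R ^ 3)⁻¹)) ∂m := by
    rw [← lintegral_indicator measurableSet_Iic]
    apply lintegral_congr
    intro s
    by_cases hs : s ∈ Iic T
    · rw [indicator_of_mem hs, ← lintegral_indicator measurableSet_Ioc]
      apply lintegral_congr_ae
      have hne : ∀ᵐ R : ℝ, R ≠ s := by
        rw [ae_iff]
        simp
      filter_upwards [hne] with R hR
      by_cases hR2 : R ∈ Ioc (max ε s) T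
      · rw [indicator_of_mem hR2, indicator_of_mem]
        exact ⟨⟨(le_max_left _ _).trans_lt hR2.1, hR2.2⟩, ((le_max_right _ _).trans_lt hR2.1).le⟩
      · rw [indicator_of_notMem hR2, indicator_of_notMem]
        intro hh
        exact hR2 ⟨max_lt hh.1.1 (lt_of_le_of_ne hh.2 (Ne.symm hR)), hh.1.2⟩
    · rw [indicator_of_notMem hs]
      have h0 : ∀ R : ℝ, A.indicator f (R, s) = 0 := fun R =>
        indicator_of_notMem (fun hh : (R, s) ∈ A => hs (le_trans hh.2 hh.1.2)) f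
      simp only [h0, lintegral_zero]
  rw [e1, e2, e3, ← lintegral_const_mul' _ _ (by simp : (2 : ENNReal) ≠ ⊤)]
  have e5 : ENNReal.ofReal ((T ^ 2)⁻¹) * m (Iic T) = ∫⁻ _ in Iic T, ENNReal.ofReal ((T ^ 2)⁻¹) ∂m := by
    rw [setLIntegral_const]
  rw [e5, ← lintegral_add_right _ measurable_const]
  have e4 : ∫⁻ s in Iic T, (2 * (∫⁻ R in Ioc (max ε s) T, ENNReal.ofReal ((R ^ 3)⁻¹)) +
      ENNReal.ofReal ((T ^ 2)⁻¹)) ∂m = ∫⁻ s in Iic T, ENNReal.ofReal (((max ε s) ^ 2)⁻¹) ∂m := by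
    apply setLIntegral_congr_fun measurableSet_Iic
    intro s hs
    exact aj06_cube (lt_of_lt_of_le hε (le_max_left _ _)) (max_le hT hs)
  have hdisj : Disjoint (Iic ε) (Ioc ε T) :=
    Set.disjoint_left.2 (fun x hx hx' => absurd hx'.1 (not_lt.2 hx))
  rw [e4, ← Iic_union_Ioc_eq_Iic hT, lintegral_union measurableSet_Ioc hdisj]
  congr 1
  · rw [← setLIntegral_const]
    apply setLIntegral_congr_fun measurableSet_Iic
    intro s hs
    simp only
    rw [max_eq_left hs]
  · unfold Jm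
    apply setLIntegral_congr_fun measurableSet_Ioc
    intro s hs
    simp only
    rw [max_eq_right (le_of_lt hs.1)]

/-- `∫_ε^T dR/R = log (T/ε)` -/
theorem log_lint {ε T : ℝ} (hε : 0 < ε) (hT : ε ≤ T) :
    ∫⁻ R in Ioc ε T, ENNReal.ofReal (R⁻¹) = ENNReal.ofReal (Real.log (T / ε)) := by
  rw [aj06_ftc (G := Real.log) hT]
  · rw [Real.log_div (by linarith) (by linarith)]
  · intro R hR
    have : R ≠ 0 := by
      have := hR.1
      intro h0
      linarith
    exact Real.hasDerivAt_log this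
  · intro R hR
    have : 0 < R := by linarith [hR.1]
    positivity

end PPF
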