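import Pool.Agent.Lib.MP_a4f5e0_gt.A.ADefs

set_option autoImplicit false

open MeasureTheory Set Filter Topology Real

noncomputable section

namespace PPF

theorem aj07_tail (n : ℕ) (hn : 1 ≤ n) {T : ℝ} (hT : 0 < T) :
    ∫⁻ u in Ioi T, ENNReal.ofReal (n * (u ^ (n + 1))⁻¹) = ENNReal.ofReal ((T ^ n)⁻¹) := by
  have hder : ∀ x ∈ Ici T, HasDerivAt (fun u : ℝ => -(u ^ n)⁻¹) (n * (x ^ (n + 1))⁻¹) x := by
    intro x hx
    have hx0 : 0 < x := lt_of_lt_of_le hT hx
    have h1 := ((hasDerivAt_pow n x).inv (pow_ne_zero n hx0.ne')).neg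
    refine h1.congr_deriv ?_
    obtain ⟨k, rfl⟩ : ∃ k, n = k + 1 := ⟨n - 1, by omega⟩
    simp only [Nat.add_sub_cancel]
    field_simp
    ring
  have hpos : ∀ x ∈ Ioi T, 0 ≤ (n * (x ^ (n + 1))⁻¹ : ℝ) := by
    intro x hx
    have hx0 : 0 < x := lt_trans hT hx
    positivity
  have hlim : Tendsto (fun u : ℝ => -(u ^ n)⁻¹) atTop (𝓝 0) := by
    have h2 := (tendsto_inv_atTop_zero.comp (tendsto_pow_atTop (α := ℝ) (n := n) (by omega))).neg
    simpa using h2
  have hint := integrableOn_Ioi_deriv_of_nonneg' hder hpos hlim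
  have hval := integral_Ioi_of_hasDerivAt_of_nonneg' hder hpos hlim
  rw [← ofReal_integral_eq_lintegral_ofReal hint, hval]
  · simp
  · exact (ae_restrict_iff' measurableSet_Ioi).2 (ae_of_all _ hpos)

/-- JOB AJ07.  `E_Φ(T)` is bounded.

`Em m Φ T = ∫⁻ s in Ioi T, ofReal (s⁻² Φ(T/s)) ∂m ≤ ∫⁻ s in Ioi T, ofReal (K' T s⁻³) ∂m` (`h.bd`
at `T/s ∈ (0,1]`).  For `s > 0`: `ofReal (s³)⁻¹ = ∫⁻ u in Ioi s, ofReal (3 (u⁴)⁻¹)` (FTC at infinity;
`integral_Ioi_rpow_of_lt` or `MeasureTheory.lintegral` via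
`integral_Ioi_of_hasDerivAt_of_tendsto'`).  Tonelli:
`∫⁻ s in Ioi T, ofReal (s³)⁻¹ ∂m ≤ ∫⁻ u in Ioi T, ofReal (3 (u⁴)⁻¹) * m (Iic u)`
`≤ ∫⁻ u in Ioi T, ofReal (3 K (u²)⁻¹) = ofReal (3 K / T)`.
So `Em m Φ T ≤ ofReal (K' T * 3 K / T) = ofReal (3 K K')`. -/
theorem Em_le {Φ φ : ℝ → ℝ} {K' : ℝ} (hK' : 0 ≤ K') (h : PhiD Φ φ K') (m : Measure ℝ)
    [SigmaFinite m] {K : ℝ} (hK : 0 ≤ K)
    (hA : ∀ R > 0, m (Iic R) ≤ ENNReal.ofReal (K * R ^ 2)) {T : ℝ} (hT : 0 < T) :
    Em m Φ T ≤ ENNReal.ofReal (3 * K * K') := by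
  have hg : Measurable (fun u : ℝ => ENNReal.ofReal (3 * (u ^ 4)⁻¹)) := by fun_prop
  -- step 1
  have s1 : Em m Φ T ≤ ENNReal.ofReal (K' * T) * ∫⁻ s in Ioi T, ENNReal.ofReal ((s ^ 3)⁻¹) ∂m := by
    unfold Em
    rw [← lintegral_const_mul _ (by fun_prop)]
    refine setLIntegral_mono (by fun_prop) fun s hs => ?_
    have hs0 : 0 < s := lt_trans hT hs
    rw [← ENNReal.ofReal_mul (by positivity)]
    refine ENNReal.ofReal_le_ofReal ?_
    have hb := h.bd (T / s) ⟨by positivity, (div_le_one hs0).2 (le_of_lt hs)⟩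
    calc (s ^ 2)⁻¹ * Φ (T / s) ≤ (s ^ 2)⁻¹ * (K' * (T / s)) :=
          mul_le_mul_of_nonneg_left hb (by positivity)
      _ = K' * T * (s ^ 3)⁻¹ := by field_simp
  -- step 2, 3
  have s2 : ∫⁻ s in Ioi T, ENNReal.ofReal ((s ^ 3)⁻¹) ∂m
      ≤ ∫⁻ u in Ioi T, ENNReal.ofReal (3 * (u ^ 4)⁻¹) * m (Iic u) := by
    have e1 : ∀ s ∈ Ioi T, ENNReal.ofReal ((s ^ 3)⁻¹) =
        ∫⁻ u, (Ioi s).indicator (fun u => ENNReal.ofReal (3 * (u ^ 4)⁻¹)) u := by
      intro s hs
      have hs0 : 0 < s := lt_trans hT hs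
      rw [lintegral_indicator measurableSet_Ioi]
      have := aj07_tail 3 (by norm_num) hs0
      rw [← this]
      norm_num
    rw [setLIntegral_congr_fun measurableSet_Ioi e1]
    have hmeas : Measurable (Function.uncurry fun (s u : ℝ) =>
        (Ioi s).indicator (fun u => ENNReal.ofReal (3 * (u ^ 4)⁻¹)) u) := by
      have : (Function.uncurry fun (s u : ℝ) =>
        (Ioi s).indicator (fun u => ENNReal.ofReal (3 * (u ^ 4)⁻¹)) u) =
          {p : ℝ × ℝ | p.1 < p.2}.indicator (fun p => ENNReal.ofReal (3 * (p.2 ^ 4)⁻¹)) := by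
        ext p
        simp [Function.uncurry, indicator]
      rw [this]
      exact Measurable.indicator (by fun_prop) (measurableSet_lt measurable_fst measurable_snd)
    rw [lintegral_lintegral_swap hmeas.aemeasurable]
    rw [← lintegral_indicator measurableSet_Ioi]
    refine lintegral_mono fun u => ?_
    by_cases hu : u ∈ Ioi T
    · rw [indicator_of_mem hu]
      have e2 : ∀ s : ℝ, (Ioi s).indicator (fun u => ENNReal.ofReal (3 * (u ^ 4)⁻¹)) u =
          (Iio u).indicator (fun _ => ENNReal.ofReal (3 * (u ^ 4)⁻¹)) s := by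
        intro s
        simp [indicator]
      simp only [e2]
      rw [lintegral_indicator measurableSet_Iio, setLIntegral_const]
      refine mul_le_mul_right ?_ _
      rw [Measure.restrict_apply measurableSet_Iio]
      exact measure_mono (inter_subset_left.trans Iio_subset_Iic_self)
    · rw [indicator_of_notMem hu]
      refine le_of_eq ?_
      rw [setLIntegral_congr_fun (g := fun _ => 0) measurableSet_Ioi]
      · simp
      · intro s hs
        refine indicator_of_notMem ?_ _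
        simp only [mem_Ioi, not_lt] at hu hs ⊢
        linarith
  have s3 : ∫⁻ u in Ioi T, ENNReal.ofReal (3 * (u ^ 4)⁻¹) * m (Iic u) ≤
      ENNReal.ofReal (3 * K * T⁻¹) := by
    calc ∫⁻ u in Ioi T, ENNReal.ofReal (3 * (u ^ 4)⁻¹) * m (Iic u)
        ≤ ∫⁻ u in Ioi T, ENNReal.ofReal (3 * K) * ENNReal.ofReal ((1 : ℕ) * (u ^ (1 + 1))⁻¹) := by
          refine setLIntegral_mono (by fun_prop) fun u hu => ?_
          have hu0 : 0 < u := lt_trans hT hu
          refine (mul_le_mul_right (hA u hu0) _).trans ?_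
          rw [← ENNReal.ofReal_mul (by positivity), ← ENNReal.ofReal_mul (by positivity)]
          refine ENNReal.ofReal_le_ofReal (le_of_eq ?_)
          field_simp
          push_cast
          ring
      _ = ENNReal.ofReal (3 * K) * ENNReal.ofReal ((T ^ 1)⁻¹) := by
          rw [lintegral_const_mul _ (by fun_prop), aj07_tail 1 le_rfl hT]
      _ = ENNReal.ofReal (3 * K * T⁻¹) := by
          rw [← ENNReal.ofReal_mul (by positivity)]
          simp
  calc Em m Φ T ≤ ENNReal.ofReal (K' * T) * ENNReal.ofReal (3 * K * T⁻¹) :=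
        s1.trans (mul_le_mul_right (s2.trans s3) _)
    _ = ENNReal.ofReal (3 * K * K') := by
        rw [← ENNReal.ofReal_mul (by positivity)]
        congr 1
        field_simp

/-- `J` is finite -/
theorem Jm_lt_top (m : Measure ℝ) {ε T : ℝ} (hε : 0 < ε) (hm : m (Iic T) < ⊤) :
    Jm m ε T < ⊤ := by
  unfold Jm
  calc ∫⁻ s in Ioc ε T, ENNReal.ofReal ((s ^ 2)⁻¹) ∂m
      ≤ ∫⁻ s in Ioc ε T, ENNReal.ofReal ((ε ^ 2)⁻¹) ∂m := by
        refine setLIntegral_mono (by fun_prop) fun s hs => ?_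
        refine ENNReal.ofReal_le_ofReal ?_
        have : 0 < s := hε.trans hs.1
        gcongr
        exact hs.1.le
    _ = ENNReal.ofReal ((ε ^ 2)⁻¹) * m (Ioc ε T) := setLIntegral_const _ _
    _ ≤ ENNReal.ofReal ((ε ^ 2)⁻¹) * m (Iic T) := by
        gcongr
        exact Ioc_subset_Iic_self
    _ < ⊤ := ENNReal.mul_lt_top ENNReal.ofReal_lt_top hm

end PPF
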