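import Pool.Agent.Lib.MP_a4f5e0_gt.A.ADefs

set_option autoImplicit false

open MeasureTheory Set Filter Topology Real

noncomputable section

namespace PPF

/-- JOB AJ08.  The logarithmic averages (real numbers only).

Put `q T = π a T + 4 e T`, nondecreasing by `hmono`, `0 ≤ q`.
(i) `hB` gives `8 π J ≤ 16 π² log(T/ε) + 12 π (a T - a ε) + 8 (x T - x ε)
≤ 16 π² log(T/ε) + (12 π + 8) B`, so `π J ≤ 2 π² log(T/ε) + C₁`, `C₁ = (12 π + 8) B / 8`.
(ii) `hq.1`: `q ε * log(T/ε) ≤ π J + (π/2)(a ε - a T) + 4 (z T - z ε) ≤ 2 π² log(T/ε) + C₂` for all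
`T > ε`; `T → ∞` gives `q ε ≤ 2 π²`.
(iii) `hlow`: for `ε < T < δ(η)`: `J ε T ≥ 2 (π - η) log(T/ε) - B`; and `hq.2`:
`q T * log(T/ε) ≥ π J - (π/2) B - 4 B ≥ 2 π (π - η) log(T/ε) - C₃`; `ε → 0` gives
`q T ≥ 2 π (π - η)` for `T < δ(η)`, by monotonicity for ALL `T > 0` (take `T' < min T δ`),
so `q T ≥ 2 π²`. -/
theorem log_average {a e x z : ℝ → ℝ} {J : ℝ → ℝ → ℝ} {B : ℝ}
    (ha : ∀ T > 0, 0 ≤ a T ∧ a T ≤ B) (he : ∀ T > 0, 0 ≤ e T ∧ e T ≤ B)
    (hx : ∀ T > 0, 0 ≤ x T ∧ x T ≤ B) (hz : ∀ T > 0, 0 ≤ z T ∧ z T ≤ B)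
    (hmono : ∀ ε T, 0 < ε → ε < T → π * a ε + 4 * e ε ≤ π * a T + 4 * e T)
    (hB : ∀ ε T, 0 < ε → ε < T →
      12 * π * (a ε - a T + J ε T) ≤
        16 * π ^ 2 * Real.log (T / ε) + 8 * (π / 2 * J ε T + x T - x ε))
    (hq1 : ∀ ε T, 0 < ε → ε < T →
      (π * a ε + 4 * e ε) * Real.log (T / ε) ≤
        π / 2 * (a ε - a T + J ε T) + 4 * (π / 8 * J ε T + z T - z ε))
    (hq2 : ∀ ε T, 0 < ε → ε < T →
      π / 2 * (a ε - a T + J ε T) + 4 * (π / 8 * J ε T + z T - z ε) ≤
        (π * a T + 4 * e T) * Real.log (T / ε))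
    (hlow : ∀ η > 0, ∃ δ > 0, ∀ ε T, 0 < ε → ε < T → T < δ →
      2 * (π - η) * Real.log (T / ε) ≤ a ε - a T + J ε T) :
    ∀ T > 0, π * a T + 4 * e T = 2 * π ^ 2 := by
  have hpi := Real.pi_pos
  have hB0 : 0 ≤ B := (ha 1 one_pos).1.trans (ha 1 one_pos).2
  intro T hT
  apply le_antisymm
  · by_contra hcon
    push Not at hcon
    set q : ℝ := π * a T + 4 * e T with hq
    set C : ℝ := (12 * π + 8) * B / 8 + π / 2 * B + 4 * B with hC
    have hC0 : 0 ≤ C := by positivity
    have hd : 0 < q - 2 * π ^ 2 := by linarith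
    set L : ℝ := C / (q - 2 * π ^ 2) + 1 with hL
    have hL0 : 0 < L := by positivity
    set S : ℝ := T * Real.exp L with hS
    have hTS : T < S := by
      have h1 : 1 < Real.exp L := Real.one_lt_exp_iff.2 hL0
      rw [hS]
      nlinarith
    have hlog : Real.log (S / T) = L := by
      rw [hS, mul_div_cancel_left₀ _ hT.ne', Real.log_exp]
    have h1 := hB T S hT hTS
    have h2 := hq1 T S hT hTS
    rw [hlog] at h1 h2
    have haT := ha T hT
    have haS := ha S (hT.trans hTS)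
    have hxT := hx T hT
    have hxS := hx S (hT.trans hTS)
    have hzT := hz T hT
    have hzS := hz S (hT.trans hTS)
    have h3 : π * (a S - a T) ≤ π * B := mul_le_mul_of_nonneg_left (by linarith) hpi.le
    have h4 : π * (a T - a S) ≤ π * B := mul_le_mul_of_nonneg_left (by linarith) hpi.le
    have h5 : π * J T S ≤ 2 * π ^ 2 * L + (12 * π + 8) * B / 8 := by nlinarith
    have h6 : q * L ≤ 2 * π ^ 2 * L + C := by
      rw [hC]
      nlinarith
    have h7 : (q - 2 * π ^ 2) * L ≤ C := by nlinarith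
    have h8 : (q - 2 * π ^ 2) * L = C + (q - 2 * π ^ 2) := by
      rw [hL]
      field_simp
    linarith
  · by_contra hcon
    push Not at hcon
    set q : ℝ := π * a T + 4 * e T with hq
    set η : ℝ := (2 * π ^ 2 - q) / (4 * π) with hη
    have hη0 : 0 < η := by
      have : 0 < 2 * π ^ 2 - q := by linarith
      positivity
    obtain ⟨δ, hδ, hlow'⟩ := hlow η hη0
    set R : ℝ := min T (δ / 2) with hR
    have hR0 : 0 < R := lt_min hT (by positivity)
    have hRδ : R < δ := (min_le_right _ _).trans_lt (by linarith)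
    have hRT : R ≤ T := min_le_left _ _
    have hqR : π * a R + 4 * e R ≤ q := by
      rcases hRT.lt_or_eq with h | h
      · exact hmono R T hR0 h
      · rw [h]
    set r : ℝ := π * a R + 4 * e R with hr
    have hd : 0 < 2 * π * (π - η) - r := by
      have h1 : 2 * π * (π - η) = (2 * π ^ 2 + q) / 2 := by
        rw [hη]
        field_simp
        ring
      linarith
    set C : ℝ := π / 2 * B + 4 * B with hC
    have hC0 : 0 ≤ C := by positivity
    set L : ℝ := C / (2 * π * (π - η) - r) + 1 with hL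
    have hL0 : 0 < L := by positivity
    set ε : ℝ := R * Real.exp (-L) with hε
    have hε0 : 0 < ε := by positivity
    have hεR : ε < R := by
      have h1 : Real.exp (-L) < 1 := Real.exp_lt_one_iff.2 (by linarith)
      rw [hε]
      nlinarith
    have hlog : Real.log (R / ε) = L := by
      have h1 : R / ε = Real.exp L := by
        rw [hε, Real.exp_neg]
        field_simp
      rw [h1, Real.log_exp]
    have h1 := hlow' ε R hε0 hεR hRδ
    have h2 := hq2 ε R hε0 hεR
    rw [hlog] at h1 h2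
    have haT := ha ε hε0
    have haS := ha R hR0
    have hzT := hz ε hε0
    have hzS := hz R hR0
    have h3 : π * (a ε - a R) ≤ π * B := mul_le_mul_of_nonneg_left (by linarith) hpi.le
    have h4 : π * (2 * (π - η) * L) ≤ π * (a ε - a R + J ε R) :=
      mul_le_mul_of_nonneg_left h1 hpi.le
    have h5 : 2 * π * (π - η) * L ≤ r * L + C := by
      rw [hC]
      nlinarith
    have h7 : (2 * π * (π - η) - r) * L ≤ C := by linarith
    have h8 : (2 * π * (π - η) - r) * L = C + (2 * π * (π - η) - r) := by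
      rw [hL]
      field_simp
    linarith

end PPF
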