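import Pool.Agent.Lib.MP_a4f5e0_gt.A.ADefs

set_option autoImplicit false

open MeasureTheory Set Filter Topology Real

noncomputable section

namespace PPF

/-- a kernel rewriting with a constant -/
theorem aj09_gen (m : Measure ℝ) {ε T : ℝ} (hε : 0 < ε) (k : ℕ) (F : ℝ → ℝ) :
    ∫⁻ R in Ioc ε T, ENNReal.ofReal ((R ^ 3)⁻¹) *
        (∫⁻ s in Ioi R, ENNReal.ofReal ((k : ℝ) * F (R / s)) ∂m) =
      (k : ENNReal) * ∫⁻ R in Ioc ε T, (∫⁻ s in Ioi R,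
        ENNReal.ofReal ((s ^ 3)⁻¹ * (F (R / s) * ((R / s) ^ 3)⁻¹)) ∂m) := by
  rw [← lintegral_const_mul' _ _ (ENNReal.natCast_ne_top k)]
  refine setLIntegral_congr_fun measurableSet_Ioc fun R hR => ?_
  have hR0 : 0 < R := lt_trans hε hR.1
  rw [← lintegral_const_mul' _ _ ENNReal.ofReal_ne_top,
    ← lintegral_const_mul' _ _ (ENNReal.natCast_ne_top k)]
  refine setLIntegral_congr_fun measurableSet_Ioi fun s hs => ?_
  have hs0 : 0 < s := lt_trans hR0 hs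
  rw [← ENNReal.ofReal_mul (by positivity), ← ENNReal.ofReal_natCast,
    ← ENNReal.ofReal_mul (Nat.cast_nonneg k)]
  congr 1
  field_simp

/-- JOB AJ09.  Rewriting of the three kernels.

For `0 < ε < R < s`: `R⁻³ = s⁻³ (R/s)⁻³`, hence
`ofReal (R³)⁻¹ * ofReal (4 Wf (R/s)) = 4 * ofReal ((s³)⁻¹ * (Wf (R/s) * ((R/s)³)⁻¹))`
(`ENNReal.ofReal_mul` with the nonnegative factor first; no sign condition on `Wf` is needed:
`ofReal (c * w) = ofReal c * ofReal w` for `0 ≤ c`).  Pull the constant in with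
`lintegral_const_mul'` / `lintegral_const_mul` (all functions are measurable in `s`), and use
`setLIntegral_congr_fun`. -/
theorem int_W (m : Measure ℝ) [SigmaFinite m] {ε T : ℝ} (hε : 0 < ε) :
    ∫⁻ R in Ioc ε T, ENNReal.ofReal ((R ^ 3)⁻¹) *
        (∫⁻ s in Ioi R, ENNReal.ofReal (4 * Wf (R / s)) ∂m) =
      4 * ∫⁻ R in Ioc ε T, (∫⁻ s in Ioi R,
        ENNReal.ofReal ((s ^ 3)⁻¹ * (Wf (R / s) * ((R / s) ^ 3)⁻¹)) ∂m) := by
  have h := aj09_gen m (T := T) hε 4 Wf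
  push_cast at h
  exact h

theorem int_M (m : Measure ℝ) [SigmaFinite m] {ε T : ℝ} (hε : 0 < ε) :
    ∫⁻ R in Ioc ε T, ENNReal.ofReal ((R ^ 3)⁻¹) *
        (∫⁻ s in Ioi R, ENNReal.ofReal (8 * Mf (R / s)) ∂m) =
      8 * ∫⁻ R in Ioc ε T, (∫⁻ s in Ioi R,
        ENNReal.ofReal ((s ^ 3)⁻¹ * (Mf (R / s) * ((R / s) ^ 3)⁻¹)) ∂m) := by
  have h := aj09_gen m (T := T) hε 8 Mf
  push_cast at h
  exact h

/-- here `R⁻¹ * (s²)⁻¹ * Yf (R/s) = (s³)⁻¹ * (Yf (R/s) / (R/s))` -/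
theorem int_Y (m : Measure ℝ) [SigmaFinite m] {ε T : ℝ} (hε : 0 < ε) :
    ∫⁻ R in Ioc ε T, ENNReal.ofReal (R⁻¹) * Em m Yf R =
      ∫⁻ R in Ioc ε T, (∫⁻ s in Ioi R,
        ENNReal.ofReal ((s ^ 3)⁻¹ * (Yf (R / s) / (R / s))) ∂m) := by
  refine setLIntegral_congr_fun measurableSet_Ioc fun R hR => ?_
  have hR0 : 0 < R := lt_trans hε hR.1
  rw [Em, ← lintegral_const_mul' _ _ ENNReal.ofReal_ne_top]
  refine setLIntegral_congr_fun measurableSet_Ioi fun s hs => ?_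
  have hs0 : 0 < s := lt_trans hR0 hs
  rw [← ENNReal.ofReal_mul (by positivity)]
  congr 1
  field_simp

end PPF
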