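import Pool.Agent.Lib.MP_a4f5e0_gt.A.ADefs

set_option autoImplicit false

open MeasureTheory Set Filter Topology Real

noncomputable section

namespace PPF

/-- `a(T) = m(Iic T)/T²` as a real number -/
def aR (m : Measure ℝ) (T : ℝ) : ℝ := (m (Iic T)).toReal / T ^ 2

/-- `E_Φ(T)` as a real number -/
def ER (m : Measure ℝ) (Φ : ℝ → ℝ) (T : ℝ) : ℝ := (Em m Φ T).toReal

/-- `J(ε,T)` as a real number -/
def JR (m : Measure ℝ) (ε T : ℝ) : ℝ := (Jm m ε T).toReal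

/-- the double integral of a kernel -/
def IPhi (m : Measure ℝ) (φ : ℝ → ℝ) (ε T : ℝ) : ENNReal :=
  ∫⁻ R in Ioc ε T, (∫⁻ s in Ioi R, ENNReal.ofReal ((s ^ 3)⁻¹ * φ (R / s)) ∂m)

/-- `∫_ε^T R⁻³ m(Iic R) dR` -/
def IA (m : Measure ℝ) (ε T : ℝ) : ENNReal :=
  ∫⁻ R in Ioc ε T, ENNReal.ofReal ((R ^ 3)⁻¹) * m (Iic R)

end PPF
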