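import Pool.Agent.Lib.MP_a4f5e0_gt.A.ADefs
import Pool.Agent.Lib.MP_a4f5e0_gt.A.ARe
import Pool.Agent.Lib.MP_a4f5e0_gt.A.AJ05
import Pool.Agent.Lib.MP_a4f5e0_gt.A.AJ06
import Pool.Agent.Lib.MP_a4f5e0_gt.A.AJ07
set_option autoImplicit false

open MeasureTheory Set Filter Topology Real

noncomputable section

namespace PPF

/-- JOB AJ10.  The two identities in real numbers.

From `a_tonelli`: `2 * IA + ofReal (T²)⁻¹ * m (Iic T) = ofReal (ε²)⁻¹ * m (Iic ε) + Jm`; the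
right-hand side is finite (`m (Iic ε) ≤ ofReal (K ε²) < ⊤`, `Jm_lt_top`), so `IA < ⊤`, and take
`toReal` (`ENNReal.toReal_add`, `toReal_mul`, `ENNReal.toReal_ofReal`). -/
theorem a_real (m : Measure ℝ) [SigmaFinite m] {K : ℝ} (hK : 0 ≤ K)
    (hA : ∀ R > 0, m (Iic R) ≤ ENNReal.ofReal (K * R ^ 2)) {ε T : ℝ} (hε : 0 < ε) (hT : ε ≤ T) :
    IA m ε T < ⊤ ∧ 2 * (IA m ε T).toReal = aR m ε - aR m T + JR m ε T := by
  have hTp : 0 < T := lt_of_lt_of_le hε hT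
  have hmT : m (Iic T) < ⊤ := (hA T hTp).trans_lt ENNReal.ofReal_lt_top
  have hmε : m (Iic ε) < ⊤ := (hA ε hε).trans_lt ENNReal.ofReal_lt_top
  have hJ := Jm_lt_top m hε hmT
  have h1 : 2 * IA m ε T + ENNReal.ofReal ((T ^ 2)⁻¹) * m (Iic T) =
      ENNReal.ofReal ((ε ^ 2)⁻¹) * m (Iic ε) + Jm m ε T := a_tonelli m hε hT
  have hR1 : ENNReal.ofReal ((ε ^ 2)⁻¹) * m (Iic ε) < ⊤ :=
    ENNReal.mul_lt_top ENNReal.ofReal_lt_top hmε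
  have hR2 : ENNReal.ofReal ((T ^ 2)⁻¹) * m (Iic T) < ⊤ :=
    ENNReal.mul_lt_top ENNReal.ofReal_lt_top hmT
  have hR : 2 * IA m ε T + ENNReal.ofReal ((T ^ 2)⁻¹) * m (Iic T) < ⊤ := by
    rw [h1]
    exact ENNReal.add_lt_top.2 ⟨hR1, hJ⟩
  have hIA2 : 2 * IA m ε T < ⊤ := (ENNReal.add_lt_top.1 hR).1
  have hIA : IA m ε T < ⊤ := by
    refine lt_of_le_of_lt ?_ hIA2
    rw [two_mul]
    exact le_self_add
  refine ⟨hIA, ?_⟩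
  have h2 := congrArg ENNReal.toReal h1
  rw [ENNReal.toReal_add hIA2.ne hR2.ne, ENNReal.toReal_add hR1.ne hJ.ne, ENNReal.toReal_mul,
    ENNReal.toReal_mul, ENNReal.toReal_mul, ENNReal.toReal_ofReal (by positivity),
    ENNReal.toReal_ofReal (by positivity), ENNReal.toReal_ofNat] at h2
  unfold aR JR
  rw [div_eq_inv_mul, div_eq_inv_mul]
  linarith

/-- From `phi_tonelli`: `IPhi + Em ε = ofReal (Φ 1) * Jm + Em T`, everything finite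
(`Em_le`, `Jm_lt_top`); take `toReal` (`0 ≤ Φ 1` by `h.Φ0`). -/
theorem phi_real {Φ φ : ℝ → ℝ} {K' : ℝ} (hK' : 0 ≤ K') (h : PhiD Φ φ K') (m : Measure ℝ)
    [SigmaFinite m] {K : ℝ} (hK : 0 ≤ K)
    (hA : ∀ R > 0, m (Iic R) ≤ ENNReal.ofReal (K * R ^ 2)) {ε T : ℝ} (hε : 0 < ε) (hT : ε ≤ T) :
    IPhi m φ ε T < ⊤ ∧ (IPhi m φ ε T).toReal = Φ 1 * JR m ε T + ER m Φ T - ER m Φ ε := by
  have hTp : 0 < T := lt_of_lt_of_le hε hT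
  have hmT : m (Iic T) < ⊤ := (hA T hTp).trans_lt ENNReal.ofReal_lt_top
  have hJ := Jm_lt_top m hε hmT
  have hE1 : Em m Φ ε < ⊤ := (Em_le hK' h m hK hA hε).trans_lt ENNReal.ofReal_lt_top
  have hE2 : Em m Φ T < ⊤ := (Em_le hK' h m hK hA hTp).trans_lt ENNReal.ofReal_lt_top
  have h1 : IPhi m φ ε T + Em m Φ ε = ENNReal.ofReal (Φ 1) * Jm m ε T + Em m Φ T :=
    phi_tonelli h m hε hT
  have hR1 : ENNReal.ofReal (Φ 1) * Jm m ε T < ⊤ := ENNReal.mul_lt_top ENNReal.ofReal_lt_top hJ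
  have hR : IPhi m φ ε T + Em m Φ ε < ⊤ := by
    rw [h1]
    exact ENNReal.add_lt_top.2 ⟨hR1, hE2⟩
  have hI : IPhi m φ ε T < ⊤ := (ENNReal.add_lt_top.1 hR).1
  refine ⟨hI, ?_⟩
  have h2 := congrArg ENNReal.toReal h1
  rw [ENNReal.toReal_add hI.ne hE1.ne, ENNReal.toReal_add hR1.ne hE2.ne, ENNReal.toReal_mul,
    ENNReal.toReal_ofReal (h.Φ0 1 ⟨one_pos, le_rfl⟩)] at h2
  unfold ER JR
  linarith

theorem aR_le (m : Measure ℝ) {K : ℝ} (hK : 0 ≤ K)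
    (hA : ∀ R > 0, m (Iic R) ≤ ENNReal.ofReal (K * R ^ 2)) {T : ℝ} (hT : 0 < T) :
    0 ≤ aR m T ∧ aR m T ≤ K := by
  unfold aR
  have h1 : (m (Iic T)).toReal ≤ K * T ^ 2 :=
    ENNReal.toReal_le_of_le_ofReal (by positivity) (hA T hT)
  refine ⟨by positivity, ?_⟩
  rwa [div_le_iff₀ (by positivity)]

theorem ER_le {Φ φ : ℝ → ℝ} {K' : ℝ} (hK' : 0 ≤ K') (h : PhiD Φ φ K') (m : Measure ℝ)
    [SigmaFinite m] {K : ℝ} (hK : 0 ≤ K)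
    (hA : ∀ R > 0, m (Iic R) ≤ ENNReal.ofReal (K * R ^ 2)) {T : ℝ} (hT : 0 < T) :
    0 ≤ ER m Φ T ∧ ER m Φ T ≤ 3 * K * K' :=
  ⟨ENNReal.toReal_nonneg, ENNReal.toReal_le_of_le_ofReal (by positivity)
    (Em_le hK' h m hK hA hT)⟩

end PPF
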