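import Pool.Agent.Lib.MP_a4f5e0_gt.A.ADefs
import Pool.Agent.Lib.MP_a4f5e0_gt.A.ARe
import Pool.Agent.Lib.MP_a4f5e0_gt.A.AJ01
import Pool.Agent.Lib.MP_a4f5e0_gt.A.AJ02
import Pool.Agent.Lib.MP_a4f5e0_gt.A.AJ06
import Pool.Agent.Lib.MP_a4f5e0_gt.A.AJ09
import Pool.Agent.Lib.MP_a4f5e0_gt.A.AJ10
set_option autoImplicit false

open MeasureTheory Set Filter Topology Real

noncomputable section

namespace PPF

/-- JOB AJ11.  (A') and (B') multiplied by `R⁻³` and integrated.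

`D_int`: by `int_W` the integral is `4 * IPhi m (fun z => Wf z * (z^3)⁻¹) ε T`, apply `phi_real` with
`PhiD_Y` and `Yf_one`.
`mono_real`: by `hAp`, `ofReal (2π) * IA ≤ ` that integral (`setLIntegral_mono'`,
`lintegral_const_mul`); both finite; `toReal`:
`2π * IA ≤ 4 (π/4 J + e T - e ε)` and `2 IA = a ε - a T + J`. -/
theorem D_int (m : Measure ℝ) [SigmaFinite m] {K : ℝ} (hK : 0 ≤ K)
    (hA : ∀ R > 0, m (Iic R) ≤ ENNReal.ofReal (K * R ^ 2)) {ε T : ℝ} (hε : 0 < ε) (hT : ε ≤ T) :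
    (∫⁻ R in Ioc ε T, ENNReal.ofReal ((R ^ 3)⁻¹) *
        (∫⁻ s in Ioi R, ENNReal.ofReal (4 * Wf (R / s)) ∂m)) < ⊤ ∧
    (∫⁻ R in Ioc ε T, ENNReal.ofReal ((R ^ 3)⁻¹) *
        (∫⁻ s in Ioi R, ENNReal.ofReal (4 * Wf (R / s)) ∂m)).toReal =
      4 * (π / 4 * JR m ε T + ER m Yf T - ER m Yf ε) := by
  obtain ⟨K', hK', hY⟩ := PhiD_Y
  obtain ⟨h1, h2⟩ := phi_real hK' hY m hK hA hε hT
  have e : (∫⁻ R in Ioc ε T, ENNReal.ofReal ((R ^ 3)⁻¹) *
        (∫⁻ s in Ioi R, ENNReal.ofReal (4 * Wf (R / s)) ∂m)) =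
      4 * IPhi m (fun z => Wf z * (z ^ 3)⁻¹) ε T := int_W m hε
  rw [e]
  refine ⟨ENNReal.mul_lt_top (by norm_num) h1, ?_⟩
  rw [ENNReal.toReal_mul, h2, Yf_one]
  norm_num

theorem mono_real (m : Measure ℝ) [SigmaFinite m] {K : ℝ} (hK : 0 ≤ K)
    (hA : ∀ R > 0, m (Iic R) ≤ ENNReal.ofReal (K * R ^ 2))
    (hAp : ∀ R > 0, ENNReal.ofReal (2 * π) * m (Iic R) ≤
      ∫⁻ s in Ioi R, ENNReal.ofReal (4 * Wf (R / s)) ∂m)
    {ε T : ℝ} (hε : 0 < ε) (hT : ε ≤ T) :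
    π * aR m ε + 4 * ER m Yf ε ≤ π * aR m T + 4 * ER m Yf T := by
  obtain ⟨h1, h2⟩ := D_int m hK hA hε hT
  obtain ⟨h3, h4⟩ := a_real m hK hA hε hT
  have key : ENNReal.ofReal (2 * π) * IA m ε T ≤ ∫⁻ R in Ioc ε T, ENNReal.ofReal ((R ^ 3)⁻¹) *
        (∫⁻ s in Ioi R, ENNReal.ofReal (4 * Wf (R / s)) ∂m) := by
    unfold IA
    rw [← lintegral_const_mul' _ _ ENNReal.ofReal_ne_top]
    refine lintegral_mono_ae ?_
    filter_upwards [ae_restrict_mem measurableSet_Ioc] with R hR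
    have hR0 : 0 < R := hε.trans hR.1
    calc ENNReal.ofReal (2 * π) * (ENNReal.ofReal ((R ^ 3)⁻¹) * m (Iic R))
        = ENNReal.ofReal ((R ^ 3)⁻¹) * (ENNReal.ofReal (2 * π) * m (Iic R)) := by ring
      _ ≤ _ := by gcongr; exact hAp R hR0
  have h5 := ENNReal.toReal_mono h1.ne key
  rw [h2, ENNReal.toReal_mul, ENNReal.toReal_ofReal (by positivity)] at h5
  have h6 : (IA m ε T).toReal = (aR m ε - aR m T + JR m ε T) / 2 := by linarith
  rw [h6] at h5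
  nlinarith [h5]

/-- Multiply `hB` by `ofReal (R³)⁻¹`, integrate over `Ioc ε T`:
`ofReal (24π) * IA ≤ ofReal (16π²) * ofReal (log (T/ε)) + 8 * IPhi m (Mf z * z⁻³)`
(`R⁻³ * 16π²R² = 16π² R⁻¹`, `log_lint`, `int_M`); take `toReal` with `phi_real`, `PhiD_X`,
`Xf_one`, `a_real`. -/
theorem B_real (m : Measure ℝ) [SigmaFinite m] {K : ℝ} (hK : 0 ≤ K)
    (hA : ∀ R > 0, m (Iic R) ≤ ENNReal.ofReal (K * R ^ 2))
    (hB : ∀ R > 0, ENNReal.ofReal (24 * π) * m (Iic R) ≤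
      ENNReal.ofReal (16 * π ^ 2 * R ^ 2) + ∫⁻ s in Ioi R, ENNReal.ofReal (8 * Mf (R / s)) ∂m)
    {ε T : ℝ} (hε : 0 < ε) (hT : ε ≤ T) :
    12 * π * (aR m ε - aR m T + JR m ε T) ≤
        16 * π ^ 2 * Real.log (T / ε) + 8 * (π / 2 * JR m ε T + ER m Xf T - ER m Xf ε) := by
  obtain ⟨K', hK', hX⟩ := PhiD_X
  obtain ⟨h1, h2⟩ := phi_real hK' hX m hK hA hε hT
  obtain ⟨h3, h4⟩ := a_real m hK hA hε hT
  have hlog : 0 ≤ Real.log (T / ε) := Real.log_nonneg ((one_le_div hε).2 hT)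
  have key : ENNReal.ofReal (24 * π) * IA m ε T ≤
      ENNReal.ofReal (16 * π ^ 2) * ENNReal.ofReal (Real.log (T / ε)) +
        8 * IPhi m (fun z => Mf z * (z ^ 3)⁻¹) ε T := by
    have e : 8 * IPhi m (fun z => Mf z * (z ^ 3)⁻¹) ε T = ∫⁻ R in Ioc ε T,
        ENNReal.ofReal ((R ^ 3)⁻¹) *
        (∫⁻ s in Ioi R, ENNReal.ofReal (8 * Mf (R / s)) ∂m) := (int_M m hε).symm
    rw [e, ← log_lint hε hT]
    unfold IA
    rw [← lintegral_const_mul' _ _ ENNReal.ofReal_ne_top,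
      ← lintegral_const_mul' _ _ ENNReal.ofReal_ne_top, ← lintegral_add_left (by fun_prop)]
    refine lintegral_mono_ae ?_
    filter_upwards [ae_restrict_mem measurableSet_Ioc] with R hR
    have hR0 : 0 < R := hε.trans hR.1
    calc ENNReal.ofReal (24 * π) * (ENNReal.ofReal ((R ^ 3)⁻¹) * m (Iic R))
        = ENNReal.ofReal ((R ^ 3)⁻¹) * (ENNReal.ofReal (24 * π) * m (Iic R)) := by ring
      _ ≤ ENNReal.ofReal ((R ^ 3)⁻¹) * (ENNReal.ofReal (16 * π ^ 2 * R ^ 2) +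
            ∫⁻ s in Ioi R, ENNReal.ofReal (8 * Mf (R / s)) ∂m) := by gcongr; exact hB R hR0
      _ = _ := by
        rw [mul_add]
        congr 1
        rw [← ENNReal.ofReal_mul (by positivity), ← ENNReal.ofReal_mul (by positivity)]
        congr 1
        field_simp
  have hfin : ENNReal.ofReal (16 * π ^ 2) * ENNReal.ofReal (Real.log (T / ε)) +
        8 * IPhi m (fun z => Mf z * (z ^ 3)⁻¹) ε T ≠ ⊤ :=
    ENNReal.add_ne_top.2 ⟨ENNReal.mul_ne_top ENNReal.ofReal_ne_top ENNReal.ofReal_ne_top,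
      ENNReal.mul_ne_top (by norm_num) h1.ne⟩
  have h5 := ENNReal.toReal_mono hfin key
  rw [ENNReal.toReal_add (ENNReal.mul_ne_top ENNReal.ofReal_ne_top ENNReal.ofReal_ne_top)
    (ENNReal.mul_ne_top (by norm_num) h1.ne), ENNReal.toReal_mul, ENNReal.toReal_mul,
    ENNReal.toReal_mul, ENNReal.toReal_ofReal (by positivity),
    ENNReal.toReal_ofReal (by positivity), ENNReal.toReal_ofReal hlog, h2, Xf_one] at h5
  have h6 : (IA m ε T).toReal = (aR m ε - aR m T + JR m ε T) / 2 := by linarith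
  rw [h6] at h5
  have h7 : (8 : ENNReal).toReal = 8 := by norm_num
  rw [h7] at h5
  nlinarith [h5]

end PPF
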