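import Pool.Agent.Lib.MP_a4f5e0_gt.A.ADefs
import Pool.Agent.Lib.MP_a4f5e0_gt.A.ARe
import Pool.Agent.Lib.MP_a4f5e0_gt.A.AJ03
import Pool.Agent.Lib.MP_a4f5e0_gt.A.AJ01
import Pool.Agent.Lib.MP_a4f5e0_gt.A.AJ06
import Pool.Agent.Lib.MP_a4f5e0_gt.A.AJ09
import Pool.Agent.Lib.MP_a4f5e0_gt.A.AJ10
set_option autoImplicit false

open MeasureTheory Set Filter Topology Real

noncomputable section

namespace PPF

/-- JOB AJ12.  The logarithmic average of `q = π a + 4 e`.

In `ENNReal`: for `R > 0`, `ofReal (R⁻¹) * ofReal (π aR m R + 4 ER m Yf R) =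
ofReal π * (ofReal (R³)⁻¹ * m (Iic R)) + 4 * (ofReal R⁻¹ * Em m Yf R)` (`m (Iic R)`, `Em m Yf R` are
finite, `ENNReal.ofReal_toReal`), so (`int_Y`)
`∫⁻ R in Ioc ε T, ofReal R⁻¹ * ofReal (q R) = ofReal π * IA m ε T + 4 * IPhi m (Yf z / z) ε T`.
By `phi_real` (`PhiD_Z`, `Zf_one`) and `a_real` the `toReal` of the right-hand side is
`π/2 (a ε - a T + J) + 4 (π/8 J + z T - z ε)`.
By `hmono`, `q ε ≤ q R ≤ q T` on `Ioc ε T`, and `log_lint`:
`ofReal (q ε) * ofReal (log (T/ε)) ≤ ∫⁻ ... ≤ ofReal (q T) * ofReal (log (T/ε))`; take `toReal`. -/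
theorem q_real (m : Measure ℝ) [SigmaFinite m] {K : ℝ} (hK : 0 ≤ K)
    (hA : ∀ R > 0, m (Iic R) ≤ ENNReal.ofReal (K * R ^ 2))
    (hmono : ∀ ε T, 0 < ε → ε ≤ T →
      π * aR m ε + 4 * ER m Yf ε ≤ π * aR m T + 4 * ER m Yf T)
    {ε T : ℝ} (hε : 0 < ε) (hT : ε ≤ T) :
    (π * aR m ε + 4 * ER m Yf ε) * Real.log (T / ε) ≤
        π / 2 * (aR m ε - aR m T + JR m ε T) + 4 * (π / 8 * JR m ε T + ER m Zf T - ER m Zf ε) ∧
    π / 2 * (aR m ε - aR m T + JR m ε T) + 4 * (π / 8 * JR m ε T + ER m Zf T - ER m Zf ε) ≤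
        (π * aR m T + 4 * ER m Yf T) * Real.log (T / ε) := by
  obtain ⟨KY, hKY, hY⟩ := PhiD_Y
  obtain ⟨KZ, hKZ, hZ⟩ := PhiD_Z
  obtain ⟨h1, h2⟩ := phi_real hKZ hZ m hK hA hε hT
  obtain ⟨h3, h4⟩ := a_real m hK hA hε hT
  have hlog : 0 ≤ Real.log (T / ε) := Real.log_nonneg ((one_le_div hε).2 hT)
  set q : ℝ → ℝ := fun R => π * aR m R + 4 * ER m Yf R with hq
  have hq0 : ∀ R, 0 < R → 0 ≤ q R := by
    intro R hR
    have a1 := (aR_le m hK hA hR).1
    have a2 := (ER_le hKY hY m hK hA hR).1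
    have := Real.pi_pos
    simp only [hq]
    positivity
  have hEfin : ∀ R, 0 < R → Em m Yf R ≠ ⊤ := fun R hR =>
    ((Em_le hKY hY m hK hA hR).trans_lt ENNReal.ofReal_lt_top).ne
  have hpt : ∀ R, 0 < R → ENNReal.ofReal (R⁻¹) * ENNReal.ofReal (q R) =
      ENNReal.ofReal π * (ENNReal.ofReal ((R ^ 3)⁻¹) * m (Iic R)) +
        4 * (ENNReal.ofReal (R⁻¹) * Em m Yf R) := by
    intro R hR
    have hmR : m (Iic R) ≠ ⊤ := ((hA R hR).trans_lt ENNReal.ofReal_lt_top).ne
    have e1 : ENNReal.ofReal (q R) = ENNReal.ofReal (π * (R ^ 2)⁻¹) * m (Iic R) +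
        4 * Em m Yf R := by
      simp only [hq]
      rw [ENNReal.ofReal_add (mul_nonneg Real.pi_pos.le (aR_le m hK hA hR).1)
        (mul_nonneg (by norm_num) (ER_le hKY hY m hK hA hR).1)]
      congr 1
      · have : π * aR m R = π * (R ^ 2)⁻¹ * (m (Iic R)).toReal := by
          unfold aR
          field_simp
        rw [this, ENNReal.ofReal_mul (by positivity), ENNReal.ofReal_toReal hmR]
      · rw [ENNReal.ofReal_mul (by norm_num)]
        unfold ER
        rw [ENNReal.ofReal_toReal (hEfin R hR)]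
        norm_num
    have e2 : ENNReal.ofReal π * (ENNReal.ofReal ((R ^ 3)⁻¹) * m (Iic R)) =
        ENNReal.ofReal (R⁻¹) * (ENNReal.ofReal (π * (R ^ 2)⁻¹) * m (Iic R)) := by
      rw [← mul_assoc, ← mul_assoc, ← ENNReal.ofReal_mul Real.pi_pos.le,
        ← ENNReal.ofReal_mul (by positivity)]
      congr 2
      field_simp
    rw [e1, e2, mul_add]
    congr 1
    ring
  have hI : ∫⁻ R in Ioc ε T, ENNReal.ofReal (R⁻¹) * ENNReal.ofReal (q R) =
      ENNReal.ofReal π * IA m ε T + 4 * IPhi m (fun z => Yf z / z) ε T := by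
    have e : IPhi m (fun z => Yf z / z) ε T =
        ∫⁻ R in Ioc ε T, ENNReal.ofReal (R⁻¹) * Em m Yf R := (int_Y m hε).symm
    rw [e]
    unfold IA
    have hmeas : Measurable fun R : ℝ => ENNReal.ofReal π *
        (ENNReal.ofReal ((R ^ 3)⁻¹) * m (Iic R)) := by
      have : Measurable fun R : ℝ => m (Iic R) :=
        Monotone.measurable fun a b hab => measure_mono (Iic_subset_Iic.2 hab)
      have h' : Measurable fun R : ℝ => ENNReal.ofReal ((R ^ 3)⁻¹) :=
        ENNReal.measurable_ofReal.comp (by fun_prop)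
      exact (h'.mul this).const_mul _
    rw [← lintegral_const_mul' _ _ ENNReal.ofReal_ne_top, ← lintegral_const_mul' _ _ (by norm_num),
      ← lintegral_add_left hmeas]
    refine setLIntegral_congr_fun measurableSet_Ioc fun R hR => ?_
    exact hpt R (hε.trans hR.1)
  have hfin : ENNReal.ofReal π * IA m ε T + 4 * IPhi m (fun z => Yf z / z) ε T ≠ ⊤ :=
    ENNReal.add_ne_top.2 ⟨ENNReal.mul_ne_top ENNReal.ofReal_ne_top h3.ne,
      ENNReal.mul_ne_top (by norm_num) h1.ne⟩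
  have hval : (ENNReal.ofReal π * IA m ε T + 4 * IPhi m (fun z => Yf z / z) ε T).toReal =
      π / 2 * (aR m ε - aR m T + JR m ε T) +
        4 * (π / 8 * JR m ε T + ER m Zf T - ER m Zf ε) := by
    rw [ENNReal.toReal_add (ENNReal.mul_ne_top ENNReal.ofReal_ne_top h3.ne)
      (ENNReal.mul_ne_top (by norm_num) h1.ne), ENNReal.toReal_mul, ENNReal.toReal_mul, h2,
      ENNReal.toReal_ofReal Real.pi_pos.le, Zf_one]
    have h6 : (IA m ε T).toReal = (aR m ε - aR m T + JR m ε T) / 2 := by linarith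
    have h7 : (4 : ENNReal).toReal = 4 := by norm_num
    rw [h6, h7]
    ring
  have hT0 : 0 < T := hε.trans_le hT
  constructor
  · have : ENNReal.ofReal (q ε) * ENNReal.ofReal (Real.log (T / ε)) ≤
        ∫⁻ R in Ioc ε T, ENNReal.ofReal (R⁻¹) * ENNReal.ofReal (q R) := by
      rw [← log_lint hε hT, ← lintegral_const_mul' _ _ ENNReal.ofReal_ne_top]
      refine lintegral_mono_ae ?_
      filter_upwards [ae_restrict_mem measurableSet_Ioc] with R hR
      rw [mul_comm]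
      gcongr
      exact hmono ε R hε hR.1.le
    rw [hI] at this
    have h8 := ENNReal.toReal_mono hfin this
    rw [hval, ENNReal.toReal_mul, ENNReal.toReal_ofReal (hq0 ε hε),
      ENNReal.toReal_ofReal hlog] at h8
    exact h8
  · have : ∫⁻ R in Ioc ε T, ENNReal.ofReal (R⁻¹) * ENNReal.ofReal (q R) ≤
        ENNReal.ofReal (q T) * ENNReal.ofReal (Real.log (T / ε)) := by
      rw [← log_lint hε hT, ← lintegral_const_mul' _ _ ENNReal.ofReal_ne_top]
      refine lintegral_mono_ae ?_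
      filter_upwards [ae_restrict_mem measurableSet_Ioc] with R hR
      rw [mul_comm]
      gcongr
      exact hmono R T (hε.trans hR.1) hR.2
    rw [hI] at this
    have h8 := ENNReal.toReal_mono
      (ENNReal.mul_ne_top ENNReal.ofReal_ne_top ENNReal.ofReal_ne_top) this
    rw [hval, ENNReal.toReal_mul, ENNReal.toReal_ofReal (hq0 T hT0),
      ENNReal.toReal_ofReal hlog] at h8
    exact h8

/-- The lower bound near `0`: for `R < δ`, `ofReal ((π-η) R²) ≤ m (Iic R)`, so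
`ofReal (π-η) * ofReal (R⁻¹) ≤ ofReal (R³)⁻¹ * m (Iic R)` on `Ioc ε T`, `T < δ`, integrate
(`log_lint`): `(π-η) log(T/ε) ≤ IA.toReal`, and `a_real`.  (If `π - η < 0` the inequality follows
from `0 ≤ 2 * IA.toReal`, as `log (T/ε) ≥ 0`.) -/
theorem low_real (m : Measure ℝ) [SigmaFinite m] {K : ℝ} (hK : 0 ≤ K)
    (hA : ∀ R > 0, m (Iic R) ≤ ENNReal.ofReal (K * R ^ 2))
    (hm1 : ∀ ε > 0, ∃ δ > 0, ∀ R, 0 < R → R < δ →
      ENNReal.ofReal ((π - ε) * R ^ 2) ≤ m (Set.Iic R)) :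
    ∀ η > 0, ∃ δ > 0, ∀ ε T, 0 < ε → ε < T → T < δ →
      2 * (π - η) * Real.log (T / ε) ≤ aR m ε - aR m T + JR m ε T := by
  intro η hη
  obtain ⟨δ, hδ, h⟩ := hm1 η hη
  refine ⟨δ, hδ, fun ε T hε hT hTδ => ?_⟩
  obtain ⟨h3, h4⟩ := a_real m hK hA hε hT.le
  have hlog : 0 ≤ Real.log (T / ε) := Real.log_nonneg ((one_le_div hε).2 hT.le)
  rw [← h4]
  rcases le_or_gt (π - η) 0 with hneg | hpos
  · have : 2 * (π - η) * Real.log (T / ε) ≤ 0 := by nlinarith
    exact this.trans (by positivity)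
  · have key : ENNReal.ofReal (π - η) * ENNReal.ofReal (Real.log (T / ε)) ≤ IA m ε T := by
      rw [← log_lint hε hT.le, ← lintegral_const_mul' _ _ ENNReal.ofReal_ne_top]
      unfold IA
      refine lintegral_mono_ae ?_
      filter_upwards [ae_restrict_mem measurableSet_Ioc] with R hR
      have hR0 : 0 < R := hε.trans hR.1
      calc ENNReal.ofReal (π - η) * ENNReal.ofReal (R⁻¹)
          = ENNReal.ofReal ((R ^ 3)⁻¹) * ENNReal.ofReal ((π - η) * R ^ 2) := by
            rw [← ENNReal.ofReal_mul hpos.le, ← ENNReal.ofReal_mul (by positivity)]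
            congr 1
            field_simp
        _ ≤ _ := by gcongr; exact h R hR0 (hR.2.trans_lt hTδ)
    have h5 := ENNReal.toReal_mono h3.ne key
    rw [ENNReal.toReal_mul, ENNReal.toReal_ofReal hpos.le, ENNReal.toReal_ofReal hlog] at h5
    linarith

end PPF
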