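import Pool.Agent.Lib.MP_a4f5e0_gt.A.ADefs
import Pool.Agent.Lib.MP_a4f5e0_gt.A.ARe
import Pool.Agent.Lib.MP_a4f5e0_gt.A.AJ01
import Pool.Agent.Lib.MP_a4f5e0_gt.A.AJ02
import Pool.Agent.Lib.MP_a4f5e0_gt.A.AJ03
import Pool.Agent.Lib.MP_a4f5e0_gt.A.AJ08
import Pool.Agent.Lib.MP_a4f5e0_gt.A.AJ10
import Pool.Agent.Lib.MP_a4f5e0_gt.A.AJ11
import Pool.Agent.Lib.MP_a4f5e0_gt.A.AJ12
set_option autoImplicit false

open MeasureTheory Set Filter Topology Real

noncomputable section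

namespace PPF

/-- JOB AJ13.  Conclusion of Step 5.

`log_average` with `a = aR m`, `e = ER m Yf`, `x = ER m Xf`, `z = ER m Zf`, `J = JR m` and
`B = max` of the bounds in `aR_le`, `ER_le` gives `π aR m T + 4 ER m Yf T = 2π²` for all `T > 0`.
So for `0 < ε < T`: with `D R = ∫⁻ s in Ioi R, ofReal (4 Wf (R/s)) ∂m`,
`(∫⁻ Ioc ε T, ofReal (R³)⁻¹ * D R).toReal = 4 (π/4 J + e T - e ε)
 = π (a ε - a T + J) = (ofReal (2π) * IA m ε T).toReal` (`D_int`, `a_real`), both finite, so the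
`ENNReal` numbers are equal, and pointwise `ofReal (R³)⁻¹ * (ofReal (2π) * m (Iic R)) ≤
ofReal (R³)⁻¹ * D R` by `hAp`.  `ae_eq_of_ae_le_of_lintegral_le` (`D` is measurable:
`Measurable.lintegral_prod_right'` for the indicator of `{(R,s) | R < s}`; `R ↦ m (Iic R)` is monotone,
so finite integral etc.) gives equality a.e. on `Ioc ε T`; cancel `ofReal (R³)⁻¹ ≠ 0, ⊤`.
Take the countable union over `ε = 1/(n+1)`, `T = n+2` to get a.e. `R > 0`. -/
theorem step5 (m : Measure ℝ) [SigmaFinite m] {K : ℝ} (hK : 0 ≤ K)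
    (hA : ∀ R > 0, m (Iic R) ≤ ENNReal.ofReal (K * R ^ 2))
    (hm1 : ∀ ε > 0, ∃ δ > 0, ∀ R, 0 < R → R < δ →
      ENNReal.ofReal ((π - ε) * R ^ 2) ≤ m (Set.Iic R))
    (hAp : ∀ R > 0, ENNReal.ofReal (2 * π) * m (Iic R) ≤
      ∫⁻ s in Ioi R, ENNReal.ofReal (4 * Wf (R / s)) ∂m)
    (hB : ∀ R > 0, ENNReal.ofReal (24 * π) * m (Iic R) ≤
      ENNReal.ofReal (16 * π ^ 2 * R ^ 2) + ∫⁻ s in Ioi R, ENNReal.ofReal (8 * Mf (R / s)) ∂m) :
    ∀ᵐ R ∂(volume.restrict (Ioi (0:ℝ))),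
      ∫⁻ s in Ioi R, ENNReal.ofReal (4 * Wf (R / s)) ∂m = ENNReal.ofReal (2 * π) * m (Iic R) := by
  obtain ⟨KY, hKY, hY⟩ := PhiD_Y
  obtain ⟨KX, hKX, hX⟩ := PhiD_X
  obtain ⟨KZ, hKZ, hZ⟩ := PhiD_Z
  have hmono : ∀ ε T, 0 < ε → ε ≤ T →
      π * aR m ε + 4 * ER m Yf ε ≤ π * aR m T + 4 * ER m Yf T :=
    fun ε T hε hT => mono_real m hK hA hAp hε hT
  have hcons : ∀ T > 0, π * aR m T + 4 * ER m Yf T = 2 * π ^ 2 := by
    refine log_average (x := ER m Xf) (z := ER m Zf) (J := JR m)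
      (B := max K (max (3 * K * KY) (max (3 * K * KX) (3 * K * KZ)))) ?_ ?_ ?_ ?_ ?_ ?_ ?_ ?_ ?_
    · exact fun T hT => ⟨(aR_le m hK hA hT).1, (aR_le m hK hA hT).2.trans (le_max_left _ _)⟩
    · exact fun T hT => ⟨(ER_le hKY hY m hK hA hT).1, (ER_le hKY hY m hK hA hT).2.trans
        ((le_max_left _ _).trans (le_max_right _ _))⟩
    · exact fun T hT => ⟨(ER_le hKX hX m hK hA hT).1, (ER_le hKX hX m hK hA hT).2.trans
        ((le_max_left _ _).trans ((le_max_right _ _).trans (le_max_right _ _)))⟩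
    · exact fun T hT => ⟨(ER_le hKZ hZ m hK hA hT).1, (ER_le hKZ hZ m hK hA hT).2.trans
        ((le_max_right _ _).trans ((le_max_right _ _).trans (le_max_right _ _)))⟩
    · exact fun ε T hε hT => hmono ε T hε hT.le
    · exact fun ε T hε hT => B_real m hK hA hB hε hT.le
    · exact fun ε T hε hT => (q_real m hK hA hmono hε hT.le).1
    · exact fun ε T hε hT => (q_real m hK hA hmono hε hT.le).2
    · exact low_real m hK hA hm1
  have hWm : Measurable Wf := by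
    unfold Wf
    fun_prop
  have hD : Measurable fun R : ℝ => ∫⁻ s in Ioi R, ENNReal.ofReal (4 * Wf (R / s)) ∂m := by
    have hset : MeasurableSet {p : ℝ × ℝ | p.1 < p.2} :=
      measurableSet_lt measurable_fst measurable_snd
    have hf : Measurable ({p : ℝ × ℝ | p.1 < p.2}.indicator
        fun p : ℝ × ℝ => ENNReal.ofReal (4 * Wf (p.1 / p.2))) := by
      refine Measurable.indicator ?_ hset
      exact ENNReal.measurable_ofReal.comp
        ((hWm.comp (measurable_fst.div measurable_snd)).const_mul _)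
    have h := hf.lintegral_prod_right' (ν := m)
    have e : (fun R : ℝ => ∫⁻ s in Ioi R, ENNReal.ofReal (4 * Wf (R / s)) ∂m) =
        fun R => ∫⁻ s, ({p : ℝ × ℝ | p.1 < p.2}.indicator
          fun p : ℝ × ℝ => ENNReal.ofReal (4 * Wf (p.1 / p.2))) (R, s) ∂m := by
      funext R
      rw [← lintegral_indicator measurableSet_Ioi]
      rfl
    rw [e]
    exact h
  have hmI : Measurable fun R : ℝ => m (Iic R) :=
    Monotone.measurable fun a b hab => measure_mono (Iic_subset_Iic.2 hab)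
  have key : ∀ ε T : ℝ, 0 < ε → ε < T → ∀ᵐ R ∂(volume.restrict (Ioc ε T)),
      ∫⁻ s in Ioi R, ENNReal.ofReal (4 * Wf (R / s)) ∂m =
        ENNReal.ofReal (2 * π) * m (Iic R) := by
    intro ε T hε hT
    obtain ⟨h1, h2⟩ := D_int m hK hA hε hT.le
    obtain ⟨h3, h4⟩ := a_real m hK hA hε hT.le
    have hT0 : 0 < T := hε.trans hT
    have e1 := hcons ε hε
    have e2 := hcons T hT0
    have hfI : ∫⁻ R in Ioc ε T, ENNReal.ofReal ((R ^ 3)⁻¹) * (ENNReal.ofReal (2 * π) * m (Iic R)) =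
        ENNReal.ofReal (2 * π) * IA m ε T := by
      unfold IA
      rw [← lintegral_const_mul' _ _ ENNReal.ofReal_ne_top]
      refine lintegral_congr fun R => ?_
      ring
    have hfin : ENNReal.ofReal (2 * π) * IA m ε T ≠ ⊤ :=
      ENNReal.mul_ne_top ENNReal.ofReal_ne_top h3.ne
    have heq : ∫⁻ R in Ioc ε T, ENNReal.ofReal ((R ^ 3)⁻¹) *
        (∫⁻ s in Ioi R, ENNReal.ofReal (4 * Wf (R / s)) ∂m) =
        ENNReal.ofReal (2 * π) * IA m ε T := by
      rw [← ENNReal.toReal_eq_toReal_iff' h1.ne hfin, h2, ENNReal.toReal_mul,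
        ENNReal.toReal_ofReal (by positivity)]
      linear_combination e2 - e1 - π * h4
    have hle : (fun R => ENNReal.ofReal ((R ^ 3)⁻¹) * (ENNReal.ofReal (2 * π) * m (Iic R)))
        ≤ᵐ[volume.restrict (Ioc ε T)] fun R => ENNReal.ofReal ((R ^ 3)⁻¹) *
          (∫⁻ s in Ioi R, ENNReal.ofReal (4 * Wf (R / s)) ∂m) := by
      filter_upwards [ae_restrict_mem measurableSet_Ioc] with R hR
      gcongr
      exact hAp R (hε.trans hR.1)
    have h' : Measurable fun R : ℝ => ENNReal.ofReal ((R ^ 3)⁻¹) :=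
      ENNReal.measurable_ofReal.comp (by fun_prop)
    have := ae_eq_of_ae_le_of_lintegral_le hle (by rw [hfI]; exact hfin)
      ((h'.mul hD).aemeasurable) (by rw [hfI, heq])
    filter_upwards [this, ae_restrict_mem measurableSet_Ioc] with R hR hR2
    have hR0 : 0 < R := hε.trans hR2.1
    have hne : ENNReal.ofReal ((R ^ 3)⁻¹) ≠ 0 := by
      rw [Ne, ENNReal.ofReal_eq_zero, not_le]
      positivity
    exact ((ENNReal.mul_right_inj hne ENNReal.ofReal_ne_top).1 hR).symm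
  have hU : (Ioi (0:ℝ)) = ⋃ n : ℕ, Ioc (1 / ((n:ℝ) + 1)) ((n:ℝ) + 2) := by
    ext R
    simp only [mem_Ioi, mem_iUnion, mem_Ioc]
    constructor
    · intro hR
      obtain ⟨n1, hn1⟩ := exists_nat_gt (1 / R)
      obtain ⟨n2, hn2⟩ := exists_nat_ge R
      refine ⟨max n1 n2, ?_, ?_⟩
      · rw [div_lt_iff₀ (by positivity)]
        rw [div_lt_iff₀ hR] at hn1
        have : (n1:ℝ) ≤ ((max n1 n2 : ℕ) : ℝ) := by exact_mod_cast le_max_left _ _
        nlinarith
      · have : (n2:ℝ) ≤ ((max n1 n2 : ℕ) : ℝ) := by exact_mod_cast le_max_right _ _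
        linarith
    · rintro ⟨n, hn, -⟩
      exact lt_trans (by positivity) hn
  rw [hU, ae_restrict_iUnion_iff]
  intro n
  refine key _ _ (by positivity) ?_
  have : (1:ℝ) / ((n:ℝ) + 1) ≤ 1 := by
    rw [div_le_one (by positivity)]
    have : (0:ℝ) ≤ n := Nat.cast_nonneg n
    linarith
  have h0 : (0:ℝ) ≤ n := Nat.cast_nonneg n
  linarith

end PPF
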