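import Pool.Agent.Lib.MP_a4f5e0_gt.A.ADefs

set_option autoImplicit false

open MeasureTheory Set Filter Topology Real

noncomputable section

namespace PPF

/-- JOB AJ14.  Substitution for the absolutely continuous function `r t = r a + ∫_a^t C`.

Let `g t = G' (r t)`, continuous on `Icc a b`.  Put
`H t = G (r t) - ∫ u in a..t, g u * C u` on `Icc a b`.  For `s < t` in `Icc a b`, the mean value theorem
for `G` between `r s` and `r t`: every value between `r s` and `r t` is of the form `r w` with
`w ∈ [s,t]` (intermediate value theorem, `r` continuous), so `G` is differentiable there, and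
`G (r t) - G (r s) = g w * (r t - r s)` for some `w ∈ [s,t]` (`exists_deriv_eq_slope` type argument; if
`r s = r t` both sides are `0`), `= ∫ u in s..t, g w * C u`.  So
`|H t - H s| ≤ ∫_s^t |g w - g u| |C u| du ≤ ω (t - s)` where `ω = sup |g w - g u|` on `[s,t]`, which
tends to `0` uniformly (`g` uniformly continuous on the compact `Icc a b`).  Divide `[a,b]` into `n`
equal parts: `|H b - H a| ≤ (b - a) * sup_{|w-u| ≤ (b-a)/n} |g w - g u| → 0`.  So `H b = H a`.
(Alternative: `AbsolutelyContinuousOnInterval` / Lebesgue differentiation.) -/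
theorem ftc_comp {r C : ℝ → ℝ} (h : Ln r C) {G G' : ℝ → ℝ} {a b : ℝ} (hab : a ≤ b)
    (hG : ∀ t ∈ Icc a b, HasDerivAt G (G' (r t)) (r t))
    (hG' : ContinuousOn (fun t => G' (r t)) (Icc a b)) :
    ∫ t in a..b, G' (r t) * C t = G (r b) - G (r a) := by
  set g : ℝ → ℝ := fun t => G' (r t) with hg
  have hCint : ∀ c d : ℝ, IntervalIntegrable C volume c d := by
    intro c d
    refine (intervalIntegrable_const (c := (1:ℝ))).mono_fun h.hC.aestronglyMeasurable ?_
    exact Eventually.of_forall fun t => by simpa [Real.norm_eq_abs] using h.C1 t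
  have hgCint : IntervalIntegrable (fun t => g t * C t) volume a b := by
    have h1 : IntervalIntegrable g volume a b := by
      apply ContinuousOn.intervalIntegrable
      rwa [uIcc_of_le hab]
    refine (h1.norm).mono_fun ?_ ?_
    · have hm : AEStronglyMeasurable g (volume.restrict (uIoc a b)) := by
        rw [uIoc_of_le hab]
        exact h1.1.aestronglyMeasurable
      exact hm.mul h.hC.aestronglyMeasurable
    · refine Eventually.of_forall fun t => ?_
      simp only [norm_mul, Real.norm_eq_abs, abs_abs]
      exact mul_le_of_le_one_right (abs_nonneg _) (h.C1 t)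
  set Hf : ℝ → ℝ := fun t => G (r t) - ∫ u in a..t, g u * C u with hHf
  have hcont : ContinuousOn Hf (Icc a b) := by
    have h1 : ContinuousOn (fun t => G (r t)) (Icc a b) := fun t ht =>
      ((hG t ht).continuousAt.comp h.cont.continuousAt).continuousWithinAt
    have h2 : ContinuousOn (fun t => ∫ u in a..t, g u * C u) (Icc a b) := by
      have := intervalIntegral.continuousOn_primitive_interval' hgCint left_mem_uIcc
      rwa [uIcc_of_le hab] at this
    exact h1.sub h2
  have hder : ∀ x ∈ Ico a b, HasDerivWithinAt Hf 0 (Ici x) x := by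
    intro x hx
    have hxI : x ∈ Icc a b := ⟨hx.1, hx.2.le⟩
    rw [hasDerivWithinAt_iff_isLittleO]
    -- first part
    have h1 : (fun t => G (r t) - G (r x) - (r t - r x) * g x) =o[𝓝[≥] x] (fun t => t - x) := by
      have e1 := (hG x hxI).hasFDerivAt.isLittleO
      have e2 : Tendsto r (𝓝[≥] x) (𝓝 (r x)) := h.cont.continuousAt.tendsto.mono_left
        nhdsWithin_le_nhds
      have e3 := e1.comp_tendsto e2
      have e4 : ((fun y => y - r x) ∘ r) =O[𝓝[≥] x] (fun t => t - x) := by
        refine Asymptotics.IsBigO.of_bound 1 (Eventually.of_forall fun t => ?_)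
        simp only [Function.comp, Real.norm_eq_abs, one_mul]
        exact h.rl t x
      refine (e3.trans_isBigO e4).congr_left ?_
      intro t
      simp [hg]
    have h2 : (fun t => ∫ u in x..t, (g u - g x) * C u) =o[𝓝[≥] x] (fun t => t - x) := by
      rw [Asymptotics.isLittleO_iff]
      intro c hc
      have hgx : ContinuousWithinAt g (Icc a b) x := hG' x hxI
      rw [Metric.continuousWithinAt_iff] at hgx
      obtain ⟨δ, hδ, hδ2⟩ := hgx c hc
      have hev : ∀ᶠ t in 𝓝[≥] x, t ∈ Ico x (min (x + δ) b) :=
        Ico_mem_nhdsGE (lt_min (by linarith) hx.2)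
      filter_upwards [hev] with t ht
      have ht1 := (lt_min_iff.1 ht.2)
      have := intervalIntegral.norm_integral_le_of_norm_le_const (a := x) (b := t) (C := c)
        (f := fun u => (g u - g x) * C u) (fun u hu => by
          rw [uIoc_of_le ht.1] at hu
          have huI : u ∈ Icc a b := ⟨hx.1.trans hu.1.le, hu.2.trans ht1.2.le⟩
          have h3 := hδ2 huI (by
            rw [Real.dist_eq, abs_of_nonneg (by linarith [hu.1])]
            linarith [hu.2])
          rw [Real.dist_eq] at h3
          rw [norm_mul, Real.norm_eq_abs, Real.norm_eq_abs]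
          calc |g u - g x| * |C u| ≤ |g u - g x| * 1 :=
                mul_le_mul_of_nonneg_left (h.C1 u) (abs_nonneg _)
            _ ≤ c := by linarith)
      rwa [Real.norm_eq_abs (t - x)]
    have hev : ∀ᶠ t in 𝓝[≥] x, t ∈ Ico x b := Ico_mem_nhdsGE hx.2
    refine (h1.sub h2).congr' ?_ (Eventually.of_forall fun t => rfl)
    filter_upwards [hev] with t ht
    have hsub1 : IntervalIntegrable (fun u => g u * C u) volume a x :=
      hgCint.mono_set (by rw [uIcc_of_le hab, uIcc_of_le hx.1]; exact Icc_subset_Icc le_rfl hx.2.le)
    have hsub2 : IntervalIntegrable (fun u => g u * C u) volume x t :=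
      hgCint.mono_set (by
        rw [uIcc_of_le hab, uIcc_of_le ht.1]; exact Icc_subset_Icc hx.1 ht.2.le)
    have e1 : ∫ u in a..t, g u * C u = (∫ u in a..x, g u * C u) + ∫ u in x..t, g u * C u :=
      (intervalIntegral.integral_add_adjacent_intervals hsub1 hsub2).symm
    have e2 : ∫ u in x..t, (g u - g x) * C u =
        (∫ u in x..t, g u * C u) - g x * ∫ u in x..t, C u := by
      rw [← intervalIntegral.integral_const_mul, ← intervalIntegral.integral_sub hsub2
        ((hCint x t).const_mul _)]
      congr 1
      ext u
      ring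
    have e3 := h.ftc x t
    simp only [hHf, smul_zero, sub_zero]
    rw [e1, e2, ← e3]
    ring
  have hconst := constant_of_has_deriv_right_zero hcont hder b ⟨hab, le_rfl⟩
  simp only [hHf, intervalIntegral.integral_same, sub_zero] at hconst
  linarith

end PPF
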