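import Pool.Agent.Lib.MP_a4f5e0_gt.A.ADefs

set_option autoImplicit false

open MeasureTheory Set Filter Topology Real

noncomputable section

namespace PPF

theorem aj15_ii {r C : ℝ → ℝ} (h : Ln r C) (a b : ℝ) : IntervalIntegrable C volume a b := by
  rw [intervalIntegrable_iff]
  refine Measure.integrableOn_of_bounded (M := 1) (by simp) h.hC.aestronglyMeasurable ?_
  exact Eventually.of_forall fun t => by simpa using h.C1 t

theorem aj15_iabs {r C : ℝ → ℝ} (h : Ln r C) (a b : ℝ) :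
    IntervalIntegrable (fun t => |C t|) volume a b := (aj15_ii h a b).abs

theorem aj15_isq {r C : ℝ → ℝ} (h : Ln r C) (a b : ℝ) :
    IntervalIntegrable (fun t => 1 - C t ^ 2) volume a b := by
  rw [intervalIntegrable_iff]
  refine Measure.integrableOn_of_bounded (M := 1) (by simp)
    ((measurable_const.sub (h.hC.pow_const 2)).aestronglyMeasurable) ?_
  refine Eventually.of_forall fun t => ?_
  have := abs_le.1 (h.C1 t)
  rw [Real.norm_eq_abs, abs_le]
  constructor <;> nlinarith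

theorem aj15_abs {r C : ℝ → ℝ} (h : Ln r C) {a b : ℝ} (hab : a ≤ b) :
    |r b - r a| ≤ ∫ t in a..b, |C t| := by
  rw [h.ftc a b]
  exact intervalIntegral.abs_integral_le_integral_abs hab

/-- JOB AJ15.  Elementary facts on one line.

`1 - C² ≤ 2 (1 - |C|)`; for `T` large (`t₁ ∈ [-T,T]`, `r t₁ ≤ R`):
`∫_{-T}^{T} (1 - |C|) ≤ 2T - (r T - r t₁) - (r (-T) - r t₁) ≤ 2R` (`h.ftc`, `|∫ C| ≤ ∫ |C|`,
`h.rm T (-T)` : `2T ≤ r T + r (-T)`).  Let `T → ∞` with `lint_le_of_Icc` (`S = univ`). -/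
theorem line_total {r C : ℝ → ℝ} (h : Ln r C) {R : ℝ} (hex : ∃ t, r t ≤ R) :
    ∫⁻ t, ENNReal.ofReal (1 - C t ^ 2) ≤ ENNReal.ofReal (4 * R) := by
  obtain ⟨t₁, ht₁⟩ := hex
  rw [← setLIntegral_univ]
  refine lint_le_of_Icc MeasurableSet.univ ?_
  filter_upwards [eventually_ge_atTop |t₁|, eventually_ge_atTop (0:ℝ)] with T hT hT0
  obtain ⟨h1, h2⟩ := abs_le.1 hT
  rw [inter_univ]
  have hTT : -T ≤ T := by linarith
  have hint : IntegrableOn (fun t => 1 - C t ^ 2) (Icc (-T) T) volume := by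
    rw [integrableOn_Icc_iff_integrableOn_Ioc, ← intervalIntegrable_iff_integrableOn_Ioc_of_le hTT]
    exact aj15_isq h _ _
  rw [← ofReal_integral_eq_lintegral_ofReal hint ?_]
  · refine ENNReal.ofReal_le_ofReal ?_
    rw [integral_Icc_eq_integral_Ioc, ← intervalIntegral.integral_of_le hTT]
    have e1 : ∫ t in (-T)..T, (1 - C t ^ 2) ≤ ∫ t in (-T)..T, 2 * (1 - |C t|) := by
      refine intervalIntegral.integral_mono_on hTT (aj15_isq h _ _)
        (((intervalIntegrable_const).sub (aj15_iabs h _ _)).const_mul 2) ?_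
      intro t _
      have hc := h.C1 t
      have h0 := abs_nonneg (C t)
      have : C t ^ 2 = |C t| ^ 2 := (sq_abs _).symm
      rw [this]
      nlinarith
    have e2 : ∫ t in (-T)..T, 2 * (1 - |C t|) = 2 * (2 * T - ∫ t in (-T)..T, |C t|) := by
      rw [intervalIntegral.integral_const_mul, intervalIntegral.integral_sub intervalIntegrable_const
        (aj15_iabs h _ _)]
      simp
      ring
    have e3 : ∫ t in (-T)..T, |C t| = (∫ t in (-T)..t₁, |C t|) + ∫ t in t₁..T, |C t| :=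
      (intervalIntegral.integral_add_adjacent_intervals (aj15_iabs h _ _) (aj15_iabs h _ _)).symm
    have e4 := aj15_abs h h1
    have e5 := aj15_abs h h2
    have e6 := h.rm T (-T)
    have e7 : |T - -T| = 2 * T := by rw [abs_of_nonneg (by linarith)]; ring
    rw [e7] at e6
    have e8 := neg_abs_le (r t₁ - r (-T))
    have e9 := le_abs_self (r T - r t₁)
    rw [e3] at e2
    linarith
  · exact Eventually.of_forall fun t => by
      have := abs_le.1 (h.C1 t)
      simp only [Pi.zero_apply]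
      nlinarith

/-- all `t` with `r t ≤ R` lie in an interval of length `2R` (`h.rm`) -/
theorem line_sig_le {r C : ℝ → ℝ} (h : Ln r C) (R : ℝ) :
    volume {t | r t ≤ R} ≤ ENNReal.ofReal (2 * R) := by
  rcases eq_empty_or_nonempty {t | r t ≤ R} with he | ⟨t₁, ht₁⟩
  · rw [he]; simp
  have hbd : BddBelow {t | r t ≤ R} := ⟨t₁ - 2 * R, fun s hs => by
    have h1 := h.rm t₁ s
    have h2 := le_abs_self (t₁ - s)
    simp only [mem_ofPred_eq] at hs ht₁
    linarith⟩
  have hsub : {t | r t ≤ R} ⊆ Icc (sInf {t | r t ≤ R}) (sInf {t | r t ≤ R} + 2 * R) := by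
    intro s hs
    refine ⟨csInf_le hbd hs, ?_⟩
    have : s - 2 * R ≤ sInf {t | r t ≤ R} := by
      refine le_csInf ⟨t₁, ht₁⟩ fun b hb => ?_
      have h1 := h.rm s b
      have h2 := le_abs_self (s - b)
      simp only [mem_ofPred_eq] at hs hb
      linarith
    linarith
  refine (measure_mono hsub).trans ?_
  rw [Real.volume_Icc]
  exact ENNReal.ofReal_le_ofReal (by linarith)

/-- `r t ≤ R + |t - t₁| ≤ 2R` for `|t - t₁| ≤ R` -/
theorem line_sig_ge {r C : ℝ → ℝ} (h : Ln r C) {R : ℝ} (hex : ∃ t, r t ≤ R) :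
    ENNReal.ofReal (2 * R) ≤ volume {t | r t ≤ 2 * R} := by
  obtain ⟨t₁, ht₁⟩ := hex
  have hsub : Icc (t₁ - R) (t₁ + R) ⊆ {t | r t ≤ 2 * R} := by
    intro t ht
    have h1 := h.rl t t₁
    have h2 := le_abs_self (r t - r t₁)
    have h3 : |t - t₁| ≤ R := abs_le.2 ⟨by linarith [ht.1], by linarith [ht.2]⟩
    simp only [mem_ofPred_eq]
    linarith
  refine le_trans ?_ (measure_mono hsub)
  rw [Real.volume_Icc]
  exact ENNReal.ofReal_le_ofReal (by linarith)

/-- the minimum of `r` is attained (`r` is continuous and `|t| - r 0 ≤ r t`) -/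
theorem line_min {r C : ℝ → ℝ} (h : Ln r C) : ∃ t₀, ∀ t, r t₀ ≤ r t := by
  refine h.cont.exists_forall_le ?_
  have h1 : Tendsto (fun t : ℝ => |t| - r 0) (cocompact ℝ) atTop := by
    have : Tendsto (fun t : ℝ => |t|) (cocompact ℝ) atTop := tendsto_norm_cocompact_atTop
    exact tendsto_atTop_add_const_right _ _ this
  exact tendsto_atTop_mono h.lower h1

/-- `r t → ∞` as `t → ± ∞` -/
theorem line_tendsto {r C : ℝ → ℝ} (h : Ln r C) :
    Tendsto r atTop atTop ∧ Tendsto (fun t => r (-t)) atTop atTop := by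
  have h1 : Tendsto (fun t : ℝ => |t| - r 0) atTop atTop :=
    tendsto_atTop_add_const_right _ _ tendsto_abs_atTop_atTop
  refine ⟨tendsto_atTop_mono h.lower h1, tendsto_atTop_mono (fun t => ?_) h1⟩
  have := h.lower (-t)
  rwa [abs_neg] at this

end PPF
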