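import Pool.Agent.Lib.MP_a4f5e0_gt.A.ADefs
import Pool.Agent.Lib.MP_a4f5e0_gt.A.AJ14
import Pool.Agent.Lib.MP_a4f5e0_gt.A.AJ15
set_option autoImplicit false

open MeasureTheory Set Filter Topology Real

noncomputable section

namespace PPF

/-- the part of the estimate to the right of the ball -/
theorem aj16_right {r C : ℝ → ℝ} (h : Ln r C) {R b T : ℝ} (hbT : b < T) (hrb : r b = R)
    (hgt : ∀ t, b < t → R < r t) {G G' : ℝ → ℝ} (hGc : ContinuousOn G (Ici R))
    (hGd : ∀ s, R < s → HasDerivAt G (G' s) s)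
    (hG'c : ContinuousOn G' (Ioi R)) (hG'0 : ∀ s, R < s → 0 ≤ G' s) :
    ENNReal.ofReal (G (r T) - G R) ≤ ∫⁻ t in Ioc b T, ENNReal.ofReal (G' (r t) * |C t|) := by
  have hc := h.cont
  have key : ∀ t₁ ∈ Ioo b T, ENNReal.ofReal (G (r T) - G (r t₁)) ≤
      ∫⁻ t in Ioc b T, ENNReal.ofReal (G' (r t) * |C t|) := by
    intro t₁ ht₁
    have hcomp : ContinuousOn (fun t => G' (r t)) (Icc t₁ T) :=
      hG'c.comp hc.continuousOn fun t ht => hgt t (lt_of_lt_of_le ht₁.1 ht.1)
    have e := ftc_comp h ht₁.2.le (fun t ht => hGd _ (hgt t (lt_of_lt_of_le ht₁.1 ht.1))) hcomp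
    rw [← e, intervalIntegral.integral_of_le ht₁.2.le]
    refine (Real.ofReal_le_enorm _).trans ((enorm_integral_le_lintegral_enorm _).trans ?_)
    have e2 : ∫⁻ t in Ioc t₁ T, ‖G' (r t) * C t‖ₑ = ∫⁻ t in Ioc t₁ T, ENNReal.ofReal (G' (r t) * |C t|) := by
      refine setLIntegral_congr_fun measurableSet_Ioc fun t ht => ?_
      rw [Real.enorm_eq_ofReal_abs, abs_mul, abs_of_nonneg (hG'0 _ (hgt t (ht₁.1.trans ht.1)))]
    rw [e2]
    exact lintegral_mono_set (Ioc_subset_Ioc_left ht₁.1.le)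
  have hlim : Tendsto (fun t₁ => ENNReal.ofReal (G (r T) - G (r t₁))) (𝓝[>] b)
      (𝓝 (ENNReal.ofReal (G (r T) - G R))) := by
    refine (ENNReal.continuous_ofReal.tendsto _).comp (tendsto_const_nhds.sub ?_)
    have h1 : Tendsto G (𝓝[Ici R] R) (𝓝 (G R)) := hGc R self_mem_Ici
    refine h1.comp ?_
    refine tendsto_nhdsWithin_iff.2 ⟨?_, ?_⟩
    · have := (hc.tendsto b).mono_left (nhdsWithin_le_nhds (s := Ioi b))
      rwa [hrb] at this
    · filter_upwards [self_mem_nhdsWithin] with t ht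
      exact (hgt t ht).le
  refine le_of_tendsto hlim ?_
  filter_upwards [Ioo_mem_nhdsGT hbT] with t₁ ht₁
  exact key t₁ ht₁

theorem aj16_refl {r C : ℝ → ℝ} (h : Ln r C) : Ln (fun t => r (-t)) (fun t => - C (-t)) where
  r0 := fun t => h.r0 _
  rl := fun s t => by
    have := h.rl (-s) (-t)
    rw [show -s - -t = -(s - t) by ring, abs_neg] at this
    exact this
  rm := fun s t => by
    have := h.rm (-s) (-t)
    rw [show -s - -t = -(s - t) by ring, abs_neg] at this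
    exact this
  hC := (h.hC.comp measurable_neg).neg
  C1 := fun t => by rw [abs_neg]; exact h.C1 _
  ftc := fun a b => by
    rw [intervalIntegral.integral_neg, intervalIntegral.integral_comp_neg (fun x => C x), ← h.ftc]
    ring

/-- the end points of the ball -/
theorem aj16_sup {r C : ℝ → ℝ} (h : Ln r C) {R : ℝ} (hex : ∃ t, r t ≤ R) :
    ∃ b, r b = R ∧ (∀ t, b < t → R < r t) ∧ ∀ t, r t ≤ R → t ≤ b := by
  have hc := h.cont
  set S : Set ℝ := {t | r t ≤ R} with hS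
  have hne : S.Nonempty := hex
  have hcl : IsClosed S := isClosed_le hc continuous_const
  have hbdd : BddAbove S := ⟨r 0 + R, fun t ht => by
    have h1 := h.lower t
    have h2 := le_abs_self t
    have h3 : r t ≤ R := ht
    linarith⟩
  have hmem : sSup S ∈ S := hcl.csSup_mem hne hbdd
  have hub : ∀ t, r t ≤ R → t ≤ sSup S := fun t ht => le_csSup hbdd ht
  have hgt : ∀ t, sSup S < t → R < r t := by
    intro t ht
    by_contra hn
    exact absurd (hub t (not_lt.1 hn)) (not_le.2 ht)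
  refine ⟨sSup S, le_antisymm hmem ?_, hgt, hub⟩
  have h1 : Tendsto r (𝓝[>] (sSup S)) (𝓝 (r (sSup S))) :=
    (hc.tendsto _).mono_left nhdsWithin_le_nhds
  refine ge_of_tendsto h1 ?_
  filter_upwards [self_mem_nhdsWithin] with t ht
  exact (hgt t ht).le

/-- JOB AJ16.  The basic lower bound outside the ball.

`S = {t | r t ≤ R}` is compact and nonempty; `a = sInf S`, `b = sSup S`, `r a = r b = R`
(`r b ≤ R` as `b ∈ S`, and `r > R` on `(b,∞)`, continuity), `a ≤ b`.  `G` is monotone on `[R,∞)`.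
Let `T > max |a| |b|`.  For `b < t₁ < T`, `ftc_comp` on `[t₁,T]` (`r > R` there):
`ofReal (G (r T) - G (r t₁)) = ofReal (∫_{t₁}^T G'(r) C) ≤ ∫⁻ t in Ioc t₁ T, ofReal (G'(r t) |C t|)
≤ ∫⁻ t in Ioc b T, …`; let `t₁ → b+` (`G (r t₁) → G R` by `hGc`):
`ofReal (G (r T) - G R) ≤ ∫⁻ t in Ioc b T, …`.  In the same way
`ofReal (G (r (-T)) - G R) ≤ ∫⁻ t in Ico (-T) a, …`.  The two intervals are disjoint and contained in
`Icc (-T) T ∩ {t | R < r t}`; add (`lintegral_union`, `ENNReal.ofReal_add`, both terms are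
nonnegative by monotonicity). -/
theorem line_lower {r C : ℝ → ℝ} (h : Ln r C) {R : ℝ} (hex : ∃ t, r t ≤ R)
    {G G' : ℝ → ℝ} (hGc : ContinuousOn G (Ici R)) (hGd : ∀ s, R < s → HasDerivAt G (G' s) s)
    (hG'c : ContinuousOn G' (Ioi R)) (hG'0 : ∀ s, R < s → 0 ≤ G' s) :
    ∀ᶠ T : ℝ in atTop, ENNReal.ofReal (G (r T) + G (r (-T)) - 2 * G R) ≤
      ∫⁻ t in Icc (-T) T ∩ {t | R < r t}, ENNReal.ofReal (G' (r t) * |C t|) := by
  obtain ⟨b, hb1, hb2, hb3⟩ := aj16_sup h hex
  obtain ⟨a', ha1, ha2, ha3⟩ := aj16_sup (aj16_refl h) (R := R)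
    (by obtain ⟨t, ht⟩ := hex; exact ⟨-t, by simpa using ht⟩)
  have hab : -a' ≤ b := hb3 _ (le_of_eq ha1)
  filter_upwards [eventually_gt_atTop b, eventually_gt_atTop a'] with T hTb hTa
  have h1 := aj16_right h hTb hb1 hb2 hGc hGd hG'c hG'0
  have h2 := aj16_right (aj16_refl h) hTa ha1 ha2 hGc hGd hG'c hG'0
  have h3 : ∫⁻ t in Ioc a' T, ENNReal.ofReal (G' (r (-t)) * |-C (-t)|) =
      ∫⁻ t in Ico (-T) (-a'), ENNReal.ofReal (G' (r t) * |C t|) := by
    have e := (Measure.measurePreserving_neg (volume : Measure ℝ)).setLIntegral_comp_preimage_emb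
      (MeasurableEquiv.neg ℝ).measurableEmbedding (fun t => ENNReal.ofReal (G' (r t) * |C t|))
      (Ico (-T) (-a'))
    have e2 : (Neg.neg ⁻¹' Ico (-T) (-a') : Set ℝ) = Ioc a' T := by
      ext t
      simp only [mem_preimage, mem_Ico, mem_Ioc]
      constructor
      · rintro ⟨h1, h2⟩; exact ⟨by linarith, by linarith⟩
      · rintro ⟨h1, h2⟩; exact ⟨by linarith, by linarith⟩
    rw [e2] at e
    rw [← e]
    simp only [abs_neg]
  rw [h3] at h2
  have hdisj : Disjoint (Ico (-T) (-a')) (Ioc b T) := by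
    rw [Set.disjoint_left]
    intro t h1 h2
    have := h1.2
    have := h2.1
    linarith
  have hsub : Ico (-T) (-a') ∪ Ioc b T ⊆ Icc (-T) T ∩ {t | R < r t} := by
    rintro t (ht | ht)
    · refine ⟨⟨ht.1, by linarith [ht.2]⟩, ?_⟩
      have := ha2 (-t) (by linarith [ht.2])
      simpa using this
    · exact ⟨⟨by linarith [ht.1], ht.2⟩, hb2 t ht.1⟩
  calc ENNReal.ofReal (G (r T) + G (r (-T)) - 2 * G R)
      = ENNReal.ofReal ((G (r (-T)) - G R) + (G (r T) - G R)) := by congr 1; ring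
    _ ≤ ENNReal.ofReal (G (r (-T)) - G R) + ENNReal.ofReal (G (r T) - G R) := ENNReal.ofReal_add_le
    _ ≤ (∫⁻ t in Ico (-T) (-a'), ENNReal.ofReal (G' (r t) * |C t|)) +
        ∫⁻ t in Ioc b T, ENNReal.ofReal (G' (r t) * |C t|) := add_le_add h2 h1
    _ = ∫⁻ t in Ico (-T) (-a') ∪ Ioc b T, ENNReal.ofReal (G' (r t) * |C t|) :=
        (lintegral_union measurableSet_Ioc hdisj).symm
    _ ≤ _ := lintegral_mono_set hsub

/-- `|{t ∈ [-T,T] : r t > R}| + |{t : r t ≤ R}| = 2T` for large `T` -/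
theorem line_split {r C : ℝ → ℝ} (h : Ln r C) (R : ℝ) :
    ∀ᶠ T : ℝ in atTop, volume (Icc (-T) T ∩ {t | R < r t}) + volume {t | r t ≤ R} =
      ENNReal.ofReal (2 * T) := by
  filter_upwards [eventually_ge_atTop (r 0 + R), eventually_ge_atTop (0:ℝ)] with T hT hT0
  have hm : MeasurableSet {t | R < r t} := measurableSet_lt measurable_const h.cont.measurable
  have e1 := measure_inter_add_sdiff (μ := volume) (Icc (-T) T) hm
  have e2 : Icc (-T) T \ {t | R < r t} = {t | r t ≤ R} := by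
    ext t
    constructor
    · intro ht
      have h3 : ¬ (R < r t) := ht.2
      exact not_lt.1 h3
    · intro ht
      have h3 : r t ≤ R := ht
      have h1 := h.lower t
      exact ⟨abs_le.1 (by linarith), not_lt.2 h3⟩
  rw [e2] at e1
  rw [e1, Real.volume_Icc]
  congr 1
  ring

end PPF
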