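import Pool.Agent.Lib.MP_a4f5e0_gt.A.ADefs
import Pool.Agent.Lib.MP_a4f5e0_gt.A.AJ15
import Pool.Agent.Lib.MP_a4f5e0_gt.A.AJ16
set_option autoImplicit false

open MeasureTheory Set Filter Topology Real

noncomputable section

namespace PPF

/-- JOB AJ17.  Inequality (1).

`line_lower` with `G s = s`, `G' = 1`: `ofReal (r T + r (-T) - 2R) ≤ ∫⁻_{Icc ∩ {R < r}} ofReal |C|`, and
`r T + r (-T) ≥ 2T`.  On `Icc (-T) T ∩ {R < r}`: `ofReal (1 - |C|) + ofReal |C| = 1`, so with
`line_split`: `∫⁻ (1-|C|) + ofReal (2T - 2R) + vol {r ≤ R} ≤ ofReal (2T)`; cancel `ofReal (2T - 2R)`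
(for `T ≥ R`, `R ≥ 0` because `0 ≤ r t ≤ R` for some `t`), `T → ∞` by `lint_le_of_Icc`
(for the term `∫⁻ ≤ c - σ`, use `ENNReal.le_sub_of_add_le_right` and back, or
`c = ofReal (2R) - volume {r ≤ R}`). -/
theorem line_one {r C : ℝ → ℝ} (h : Ln r C) {R : ℝ} (hex : ∃ t, r t ≤ R) :
    (∫⁻ t in {t | R < r t}, ENNReal.ofReal (1 - |C t|)) + volume {t | r t ≤ R} ≤
      ENNReal.ofReal (2 * R) := by
  have hR : 0 ≤ R := by
    obtain ⟨t, ht⟩ := hex
    exact (h.r0 t).trans ht
  have hSm : MeasurableSet {t | R < r t} := (isOpen_lt continuous_const h.cont).measurableSet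
  have hlow := line_lower h hex (G := fun s => s) (G' := fun _ => 1)
    continuousOn_id (fun s _ => hasDerivAt_id s) continuousOn_const (fun _ _ => zero_le_one)
  have hev : ∀ᶠ T : ℝ in atTop, (∫⁻ t in Icc (-T) T ∩ {t | R < r t},
      ENNReal.ofReal (1 - |C t|)) + volume {t | r t ≤ R} ≤ ENNReal.ofReal (2 * R) := by
    filter_upwards [hlow, line_split h R, eventually_ge_atTop R] with T h1 h2 h3
    have h4 : 2 * T - 2 * R ≤ r T + r (-T) - 2 * R := by
      have := h.rm T (-T)
      have h5 : T - -T ≤ |T - -T| := le_abs_self _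
      linarith
    have h6 : ENNReal.ofReal (2 * T - 2 * R) ≤
        ∫⁻ t in Icc (-T) T ∩ {t | R < r t}, ENNReal.ofReal (|C t|) := by
      refine (ENNReal.ofReal_le_ofReal h4).trans (h1.trans (le_of_eq ?_))
      simp only [one_mul]
    have h7 : (∫⁻ t in Icc (-T) T ∩ {t | R < r t}, ENNReal.ofReal (1 - |C t|)) +
        (∫⁻ t in Icc (-T) T ∩ {t | R < r t}, ENNReal.ofReal (|C t|)) =
        volume (Icc (-T) T ∩ {t | R < r t}) := by
      rw [← lintegral_add_left]
      · have : ∀ t, ENNReal.ofReal (1 - |C t|) + ENNReal.ofReal (|C t|) = 1 := by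
          intro t
          rw [← ENNReal.ofReal_add (by linarith [h.C1 t]) (abs_nonneg _)]
          simp
        simp only [this]
        rw [setLIntegral_one]
      · refine ENNReal.measurable_ofReal.comp ?_
        exact measurable_const.sub h.hC.abs
    have h8 : ENNReal.ofReal (2 * T - 2 * R) + ((∫⁻ t in Icc (-T) T ∩ {t | R < r t},
        ENNReal.ofReal (1 - |C t|)) + volume {t | r t ≤ R}) ≤
        ENNReal.ofReal (2 * T - 2 * R) + ENNReal.ofReal (2 * R) := by
      rw [← ENNReal.ofReal_add (by linarith) (by linarith)]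
      have e1 : 2 * T - 2 * R + 2 * R = 2 * T := by ring
      rw [e1, ← h2, ← h7]
      calc ENNReal.ofReal (2 * T - 2 * R) + ((∫⁻ t in Icc (-T) T ∩ {t | R < r t},
          ENNReal.ofReal (1 - |C t|)) + volume {t | r t ≤ R})
          ≤ (∫⁻ t in Icc (-T) T ∩ {t | R < r t}, ENNReal.ofReal (|C t|)) +
            ((∫⁻ t in Icc (-T) T ∩ {t | R < r t},
          ENNReal.ofReal (1 - |C t|)) + volume {t | r t ≤ R}) := add_le_add_left h6 _
        _ = _ := by ring
    exact (ENNReal.add_le_add_iff_left ENNReal.ofReal_ne_top).1 h8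
  have hσ : volume {t | r t ≤ R} ≤ ENNReal.ofReal (2 * R) := by
    obtain ⟨T, hT⟩ := hev.exists
    exact le_trans le_add_self hT
  have hσt : volume {t | r t ≤ R} ≠ ⊤ := ne_top_of_le_ne_top ENNReal.ofReal_ne_top hσ
  have hfin : ∫⁻ t in {t | R < r t}, ENNReal.ofReal (1 - |C t|) ≤
      ENNReal.ofReal (2 * R) - volume {t | r t ≤ R} := by
    apply lint_le_of_Icc hSm
    filter_upwards [hev] with T hT
    exact ENNReal.le_sub_of_add_le_right hσt hT
  exact add_le_of_le_tsub_right_of_le hσ hfin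

end PPF
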