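import Pool.Agent.Lib.MP_a4f5e0_gt.A.ADefs
import Pool.Agent.Lib.MP_a4f5e0_gt.A.AJ15
import Pool.Agent.Lib.MP_a4f5e0_gt.A.AJ16
set_option autoImplicit false

open MeasureTheory Set Filter Topology Real

noncomputable section

namespace PPF

theorem aj18_c0 {R s : ℝ} (hR : 0 < R) (hs : R < s) : c0 R s = √(s ^ 2 - R ^ 2) / s := by
  have hs0 : 0 < s := hR.trans hs
  unfold c0
  have e : 1 - R ^ 2 / s ^ 2 = (s ^ 2 - R ^ 2) / s ^ 2 := by
    field_simp
  rw [e, Real.sqrt_div' _ (by positivity), Real.sqrt_sq hs0.le]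

theorem aj18_c0_pos {R s : ℝ} (hR : 0 < R) (hs : R < s) : 0 < c0 R s := by
  rw [aj18_c0 hR hs]
  have hs0 : 0 < s := hR.trans hs
  apply div_pos (Real.sqrt_pos.2 (by nlinarith)) hs0

theorem aj18_deriv {R s : ℝ} (hR : 0 < R) (hs : R < s) :
    HasDerivAt (fun s => √(s ^ 2 - R ^ 2)) ((c0 R s)⁻¹) s := by
  have hs0 : 0 < s := hR.trans hs
  have hpos : 0 < s ^ 2 - R ^ 2 := by nlinarith
  have h1 : HasDerivAt (fun s : ℝ => s ^ 2 - R ^ 2) (2 * s) s := by
    have := (hasDerivAt_pow 2 s).sub_const (R ^ 2)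
    simpa using this
  have h2 := h1.sqrt hpos.ne'
  refine h2.congr_deriv ?_
  rw [aj18_c0 hR hs, inv_div]
  have h3 : 0 < √(s ^ 2 - R ^ 2) := Real.sqrt_pos.2 hpos
  field_simp

theorem aj18_lower {R s : ℝ} (hR : 0 < R) (hs : R ≤ s) : s - R ^ 2 / s ≤ √(s ^ 2 - R ^ 2) := by
  have hs0 : 0 < s := lt_of_lt_of_le hR hs
  apply Real.le_sqrt_of_sq_le
  have h1 : R ^ 2 ≤ s ^ 2 := by nlinarith
  have h2 : R ^ 2 / s * s = R ^ 2 := by field_simp
  have h3 : R ^ 2 / s ≤ R := by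
    rw [div_le_iff₀ hs0]
    nlinarith
  have h4 : 0 ≤ R ^ 2 / s := by positivity
  nlinarith

/-- JOB AJ18.  Inequality (L).

`G s = √(s² - R²)`, `G' s = (c0 R s)⁻¹ = s/√(s²-R²)` for `s > R > 0`, `G R = 0`,
`G s ≥ s - R²/s` for `s ≥ R` (square).  By `line_lower`, for large `T`:
`ofReal (G (r T) + G (r (-T))) ≤ ∫⁻_{S_T} ofReal ((c0 R (r t))⁻¹ |C t|)`, `S_T = Icc (-T) T ∩ {R < r}`,
and pointwise `ofReal ((c0)⁻¹ |C|) ≤ ofReal (|C|/c0 - 1) + 1`, so
`ofReal (2T - δ T) ≤ ∫⁻_{S_T} ofReal (|C|/c0 - 1) + vol S_T`, with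
`δ T = R²/r T + R²/r(-T) → 0` (`line_tendsto`; `r T + r(-T) ≥ 2T`).  Add `vol {r ≤ R}` and use
`line_split`: `ofReal (2T - δ T) + vol {r ≤ R} ≤ ∫⁻_{{R < r}} ofReal (|C|/c0 - 1) + ofReal (2T)`;
hence `vol {r ≤ R} ≤ ∫⁻ … + ofReal (δ T)`; `T → ∞` (`ge_of_tendsto`).  Finally
`∫⁻ t in {R < r t}, ofReal (|C|/c0 - 1) = ∫⁻ t, fL R (r t) |C t|` (`lintegral_indicator`, `fL` is an
`if`). -/
theorem line_L {r C : ℝ → ℝ} (h : Ln r C) {R : ℝ} (hR : 0 < R) (hex : ∃ t, r t ≤ R) :
    volume {t | r t ≤ R} ≤ ∫⁻ t, fL R (r t) |C t| := by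
  have hSm : MeasurableSet {t | R < r t} := (isOpen_lt continuous_const h.cont).measurableSet
  have hint : (∫⁻ t, fL R (r t) |C t|) =
      ∫⁻ t in {t | R < r t}, ENNReal.ofReal (|C t| / c0 R (r t) - 1) := by
    rw [← lintegral_indicator hSm]
    apply lintegral_congr
    intro t
    unfold fL
    rw [Set.indicator_apply]
    rfl
  have hlow := line_lower h hex (G := fun s => √(s ^ 2 - R ^ 2)) (G' := fun s => (c0 R s)⁻¹)
    (by fun_prop) (fun s hs => aj18_deriv hR hs)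
    (by
      apply ContinuousOn.inv₀
      · unfold c0
        apply ContinuousOn.sqrt
        apply ContinuousOn.sub continuousOn_const
        apply ContinuousOn.div continuousOn_const (by fun_prop)
        intro s hs
        have : 0 < s := hR.trans hs
        positivity
      · intro s hs
        exact (aj18_c0_pos hR hs).ne')
    (fun s hs => inv_nonneg.2 (aj18_c0_pos hR hs).le)
  obtain ⟨hT1, hT2⟩ := line_tendsto h
  -- the error term
  have hδ : Tendsto (fun T => R ^ 2 / r T + R ^ 2 / r (-T)) atTop (𝓝 0) := by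
    have h1 : Tendsto (fun T => R ^ 2 / r T) atTop (𝓝 0) := hT1.const_div_atTop _
    have h2 : Tendsto (fun T => R ^ 2 / r (-T)) atTop (𝓝 0) := hT2.const_div_atTop _
    simpa using h1.add h2
  have hev : ∀ᶠ T : ℝ in atTop, volume {t | r t ≤ R} ≤ (∫⁻ t, fL R (r t) |C t|) +
      ENNReal.ofReal (R ^ 2 / r T + R ^ 2 / r (-T)) := by
    filter_upwards [hlow, line_split h R, hT1.eventually_ge_atTop R,
      hT2.eventually_ge_atTop R] with T h1 h2 h3 h4
    have h5 : 2 * T - (R ^ 2 / r T + R ^ 2 / r (-T)) ≤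
        √(r T ^ 2 - R ^ 2) + √(r (-T) ^ 2 - R ^ 2) - 2 * √(R ^ 2 - R ^ 2) := by
      have a1 := aj18_lower hR h3
      have a2 := aj18_lower hR h4
      have a3 := h.rm T (-T)
      have a4 : T - -T ≤ |T - -T| := le_abs_self _
      rw [sub_self, Real.sqrt_zero]
      linarith
    have h6 : ENNReal.ofReal (2 * T - (R ^ 2 / r T + R ^ 2 / r (-T))) ≤
        (∫⁻ t in Icc (-T) T ∩ {t | R < r t}, ENNReal.ofReal (|C t| / c0 R (r t) - 1)) +
          volume (Icc (-T) T ∩ {t | R < r t}) := by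
      refine (ENNReal.ofReal_le_ofReal h5).trans (h1.trans ?_)
      rw [← setLIntegral_one, ← lintegral_add_right _ measurable_const]
      apply lintegral_mono
      intro t
      have e1 : (c0 R (r t))⁻¹ * |C t| = (|C t| / c0 R (r t) - 1) + 1 := by
        rw [sub_add_cancel, div_eq_mul_inv, mul_comm]
      beta_reduce
      rw [e1]
      refine ENNReal.ofReal_add_le.trans ?_
      rw [ENNReal.ofReal_one]
    have h7 : (∫⁻ t in Icc (-T) T ∩ {t | R < r t}, ENNReal.ofReal (|C t| / c0 R (r t) - 1)) ≤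
        ∫⁻ t, fL R (r t) |C t| := by
      rw [hint]
      exact lintegral_mono_set inter_subset_right
    set B := ∫⁻ t, fL R (r t) |C t| with hB
    set δ := R ^ 2 / r T + R ^ 2 / r (-T) with hδd
    have h8 : ENNReal.ofReal (2 * T - δ) + volume {t | r t ≤ R} ≤
        ENNReal.ofReal (2 * T - δ) + (B + ENNReal.ofReal δ) := by
      calc ENNReal.ofReal (2 * T - δ) + volume {t | r t ≤ R}
          ≤ ((∫⁻ t in Icc (-T) T ∩ {t | R < r t}, ENNReal.ofReal (|C t| / c0 R (r t) - 1)) +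
          volume (Icc (-T) T ∩ {t | R < r t})) + volume {t | r t ≤ R} := by
            gcongr
        _ = (∫⁻ t in Icc (-T) T ∩ {t | R < r t}, ENNReal.ofReal (|C t| / c0 R (r t) - 1)) +
          ENNReal.ofReal (2 * T) := by rw [add_assoc, h2]
        _ ≤ B + ENNReal.ofReal (2 * T) := by gcongr
        _ ≤ B + (ENNReal.ofReal (2 * T - δ) + ENNReal.ofReal δ) := by
            gcongr
            refine le_trans (le_of_eq ?_) ENNReal.ofReal_add_le
            congr 1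
            ring
        _ = _ := by ring
    exact (ENNReal.add_le_add_iff_left ENNReal.ofReal_ne_top).1 h8
  have hlim : Tendsto (fun T => (∫⁻ t, fL R (r t) |C t|) +
      ENNReal.ofReal (R ^ 2 / r T + R ^ 2 / r (-T))) atTop (𝓝 ((∫⁻ t, fL R (r t) |C t|) + 0)) := by
    apply Tendsto.add tendsto_const_nhds
    have := ENNReal.tendsto_ofReal hδ
    rwa [ENNReal.ofReal_zero] at this
  rw [add_zero] at hlim
  exact ge_of_tendsto hlim hev

end PPF
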