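import Pool.Agent.Lib.MP_a4f5e0_gt.A.ADefs
import Pool.Agent.Lib.MP_a4f5e0_gt.A.AJ15
import Pool.Agent.Lib.MP_a4f5e0_gt.A.AJ16
set_option autoImplicit false

open MeasureTheory Set Filter Topology Real

noncomputable section

namespace PPF

/-- the primitive of `(1 - c0)²/c0` -/
def Fp (R s : ℝ) : ℝ := 2 * √(s ^ 2 - R ^ 2) - 2 * s - R * arccos (R / s)

theorem aj19_c0 {R s : ℝ} (hs0 : 0 < s) : c0 R s = √(s ^ 2 - R ^ 2) / s := by
  unfold c0
  rw [show 1 - R ^ 2 / s ^ 2 = (s ^ 2 - R ^ 2) / s ^ 2 by field_simp, Real.sqrt_div' _ (sq_nonneg s),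
    Real.sqrt_sq hs0.le]

/-- JOB AJ19.  `F' = (1-c0)²/c0 = 1/c0 - 2 + c0`, `F = Fp R`, `Fp R R = -2R`,
`Fp R s → -πR/2` as `s → ∞`.

`d/ds √(s²-R²) = s/√(s²-R²) = 1/c0`, and
`d/ds (√(s²-R²) - R arccos(R/s)) = s/√(s²-R²) - R²/(s √(s²-R²)) = √(s²-R²)/s = c0`
(`arccos' x = -1/√(1-x²)`, `√(1 - R²/s²) = √(s²-R²)/s = c0`).
Limit: `√(s²-R²) - s → 0` (`= -R²/(√(s²-R²)+s)`), `arccos (R/s) → arccos 0 = π/2`. -/
theorem Fp_deriv {R s : ℝ} (hR : 0 < R) (hs : R < s) :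
    HasDerivAt (Fp R) ((1 - c0 R s) ^ 2 / c0 R s) s := by
  have hs0 : 0 < s := hR.trans hs
  have hq : 0 < s ^ 2 - R ^ 2 := by nlinarith
  have hw : 0 < √(s ^ 2 - R ^ 2) := Real.sqrt_pos.2 hq
  have hw2 : √(s ^ 2 - R ^ 2) ^ 2 = s ^ 2 - R ^ 2 := Real.sq_sqrt hq.le
  have h1 : HasDerivAt (fun s : ℝ => √(s ^ 2 - R ^ 2)) (s / √(s ^ 2 - R ^ 2)) s := by
    have h := ((hasDerivAt_pow 2 s).sub_const (R ^ 2)).sqrt hq.ne'
    have he : (((2:ℕ):ℝ) * s ^ (2 - 1) / (2 * √(s ^ 2 - R ^ 2)) : ℝ) = s / √(s ^ 2 - R ^ 2) := by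
      have := hw.ne'
      field_simp
      norm_num
    rwa [he] at h
  have hx : R / s < 1 := (div_lt_one hs0).2 hs
  have hx0 : 0 < R / s := div_pos hR hs0
  have h2 : HasDerivAt (fun s : ℝ => R / s) (-R / s ^ 2) s := by
    have h := (hasDerivAt_inv hs0.ne').const_mul R
    have he : R * -(s ^ 2)⁻¹ = -R / s ^ 2 := by
      field_simp
    rw [he] at h
    exact h
  have h3 : HasDerivAt (fun s : ℝ => arccos (R / s)) (-(1 / √(1 - (R / s) ^ 2)) * (-R / s ^ 2)) s :=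
    (Real.hasDerivAt_arccos (by linarith) (by linarith)).comp s h2
  have h4 : √(1 - (R / s) ^ 2) = √(s ^ 2 - R ^ 2) / s := by
    rw [div_pow, ← aj19_c0 hs0]
    rfl
  have h5 := ((h1.const_mul 2).sub ((hasDerivAt_id s).const_mul 2)).sub (h3.const_mul R)
  rw [h4] at h5
  have he : 2 * (s / √(s ^ 2 - R ^ 2)) - 2 * 1 -
      R * (-(1 / (√(s ^ 2 - R ^ 2) / s)) * (-R / s ^ 2)) = (1 - c0 R s) ^ 2 / c0 R s := by
    rw [aj19_c0 hs0]
    set w := √(s ^ 2 - R ^ 2) with hwdef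
    have : w ≠ 0 := hw.ne'
    field_simp
    nlinarith [hw2]
  rw [he] at h5
  exact h5

theorem aj19_lim (R : ℝ) : Tendsto (fun s : ℝ => √(s ^ 2 - R ^ 2) - s) atTop (𝓝 0) := by
  have h1 : Tendsto (fun s : ℝ => √(s ^ 2 - R ^ 2) + s) atTop atTop :=
    tendsto_atTop_mono (fun s => by
      show s ≤ _
      linarith [Real.sqrt_nonneg (s ^ 2 - R ^ 2)]) tendsto_id
  have h2 : Tendsto (fun s : ℝ => -R ^ 2 / (√(s ^ 2 - R ^ 2) + s)) atTop (𝓝 0) :=
    Tendsto.div_atTop tendsto_const_nhds h1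
  refine h2.congr' ?_
  filter_upwards [eventually_gt_atTop |R|, eventually_gt_atTop (0:ℝ)] with s hs hs0
  have hq : 0 ≤ s ^ 2 - R ^ 2 := by
    have := sq_lt_sq' (by linarith [abs_nonneg R, neg_abs_le R] : -s < R) (lt_of_abs_lt hs)
    linarith
  have hw2 : √(s ^ 2 - R ^ 2) ^ 2 = s ^ 2 - R ^ 2 := Real.sq_sqrt hq
  have hpos : 0 < √(s ^ 2 - R ^ 2) + s := by
    have := Real.sqrt_nonneg (s ^ 2 - R ^ 2)
    linarith
  rw [div_eq_iff hpos.ne']
  nlinarith [hw2]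

theorem Fp_tendsto {R : ℝ} (hR : 0 < R) : Tendsto (Fp R) atTop (𝓝 (-(π * R) / 2)) := by
  have h1 := (aj19_lim R).const_mul 2
  have h2 : Tendsto (fun s : ℝ => R / s) atTop (𝓝 0) := tendsto_const_nhds.div_atTop tendsto_id
  have h3 : Tendsto (fun s : ℝ => arccos (R / s)) atTop (𝓝 (arccos 0)) :=
    (Real.continuous_arccos.tendsto 0).comp h2
  have h4 := h1.sub (h3.const_mul R)
  rw [Real.arccos_zero] at h4
  have h5 : 2 * 0 - R * (π / 2) = -(π * R) / 2 := by ring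
  rw [h5] at h4
  refine h4.congr fun s => ?_
  unfold Fp
  ring

theorem aj19_cont {R : ℝ} (hR : 0 < R) : ContinuousOn (Fp R) (Ici R) := by
  unfold Fp
  have h : ∀ s ∈ Ici R, s ≠ 0 := fun s hs => (hR.trans_le hs).ne'
  refine ContinuousOn.sub (ContinuousOn.sub ?_ ?_) ?_
  · exact (Continuous.continuousOn (by fun_prop))
  · exact (Continuous.continuousOn (by fun_prop))
  · refine continuousOn_const.mul ?_
    exact Real.continuous_arccos.comp_continuousOn (continuousOn_const.div continuousOn_id h)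

/-- `line_lower` with `G = Fp R` (continuous on `[R,∞)`: `√`, `arccos` are continuous), and `T → ∞`:
`G (r T) + G (r (-T)) - 2 G R → -πR + 4R`. -/
theorem line_F {r C : ℝ → ℝ} (h : Ln r C) {R : ℝ} (hR : 0 < R) (hex : ∃ t, r t ≤ R) :
    ENNReal.ofReal ((4 - π) * R) ≤
      ∫⁻ t in {t | R < r t}, ENNReal.ofReal ((1 - c0 R (r t)) ^ 2 / c0 R (r t) * |C t|) := by
  have hc0 : ∀ s, R < s → 0 < c0 R s := by
    intro s hs
    have hs0 : 0 < s := hR.trans hs
    rw [aj19_c0 hs0]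
    have hq : 0 < s ^ 2 - R ^ 2 := by nlinarith
    exact div_pos (Real.sqrt_pos.2 hq) hs0
  have hG'c : ContinuousOn (fun s => (1 - c0 R s) ^ 2 / c0 R s) (Ioi R) := by
    have hcc : ContinuousOn (fun s => c0 R s) (Ioi R) := by
      unfold c0
      refine Real.continuous_sqrt.comp_continuousOn ?_
      refine continuousOn_const.sub (continuousOn_const.div (by fun_prop) ?_)
      intro s hs
      have : 0 < s := hR.trans hs
      positivity
    refine ContinuousOn.div ((continuousOn_const.sub hcc).pow 2) hcc ?_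
    intro s hs
    exact (hc0 s hs).ne'
  have h1 := line_lower h hex (aj19_cont hR) (fun s hs => Fp_deriv hR hs) hG'c
    (fun s hs => div_nonneg (sq_nonneg _) (hc0 s hs).le)
  obtain ⟨ht1, ht2⟩ := line_tendsto h
  have hFR : Fp R R = -2 * R := by
    unfold Fp
    rw [div_self hR.ne', Real.arccos_one]
    simp
  have h2 : Tendsto (fun T : ℝ => ENNReal.ofReal (Fp R (r T) + Fp R (r (-T)) - 2 * Fp R R)) atTop
      (𝓝 (ENNReal.ofReal ((4 - π) * R))) := by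
    refine ENNReal.tendsto_ofReal ?_
    have h3 := (((Fp_tendsto hR).comp ht1).add ((Fp_tendsto hR).comp ht2)).sub
      (tendsto_const_nhds (x := 2 * Fp R R))
    have h4 : -(π * R) / 2 + -(π * R) / 2 - 2 * Fp R R = (4 - π) * R := by
      rw [hFR]
      ring
    rw [h4] at h3
    exact h3
  refine le_of_tendsto h2 ?_
  filter_upwards [h1] with T hT
  exact hT.trans (lintegral_mono_set inter_subset_right)

end PPF
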