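import Pool.Agent.Lib.MP_a4f5e0_gt.A.ADefs
import Pool.Agent.Lib.MP_a4f5e0_gt.A.AJ17
import Pool.Agent.Lib.MP_a4f5e0_gt.A.AJ19
set_option autoImplicit false

open MeasureTheory Set Filter Topology Real

noncomputable section

namespace PPF

theorem aj20_c0 {R s : ℝ} (hR : 0 < R) (hs : R < s) : 0 < c0 R s := by
  have hs0 : 0 < s := hR.trans hs
  unfold c0
  apply Real.sqrt_pos.2
  rw [sub_pos, div_lt_one (by positivity)]
  nlinarith

/-- JOB AJ20.  Inequality (S).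

On `{R < r}` with `c = |C| ∈ [0,1]`, `c0 ∈ (0,1)`: the identity
`(1 - c²) + (1-c0)²/c0 * c = 2 (1-c) + (c - c0)(1/c0 - c)`
gives in `ENNReal` `ofReal (1-c²) + ofReal ((1-c0)²/c0 * c) ≤ 2 * ofReal (1-c) + ofReal ((c-c0)((c0)⁻¹-c))`
(`ofReal (x) ≥ x`).  Integrate over `{R < r}` and use `line_F` (left) and `line_one` (right):
`∫⁻_{R<r} (1-C²) + ofReal ((4-π)R) + 2 σ ≤ 2 * ofReal (2R) + ∫⁻ fS`; cancel `ofReal ((4-π) R)`
(`2 * ofReal (2R) = ofReal ((4-π)R) + ofReal (πR)`, `π ≤ 4`, `R > 0`).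
Inside `{r ≤ R}`: `∫⁻_{r ≤ R} ofReal (1-C²) = ∫⁻ fI` (`fI` is an `if`, `|C|² = C²`). Add:
`∫⁻ = ∫⁻_{R<r} + ∫⁻_{r≤R}` (`lintegral_add_compl`). -/
theorem line_S {r C : ℝ → ℝ} (h : Ln r C) {R : ℝ} (hR : 0 < R) (hex : ∃ t, r t ≤ R) :
    (∫⁻ t, ENNReal.ofReal (1 - C t ^ 2)) + 2 * volume {t | r t ≤ R} ≤
      ENNReal.ofReal (π * R) + (∫⁻ t, fS R (r t) |C t|) + ∫⁻ t, fI R (r t) |C t| := by
  have hSm : MeasurableSet {t | R < r t} := (isOpen_lt continuous_const h.cont).measurableSet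
  have hS : (∫⁻ t, fS R (r t) |C t|) = ∫⁻ t in {t | R < r t},
      ENNReal.ofReal ((|C t| - c0 R (r t)) * ((c0 R (r t))⁻¹ - |C t|)) := by
    rw [← lintegral_indicator hSm]
    apply lintegral_congr
    intro t
    unfold fS
    rw [Set.indicator_apply]
    rfl
  have hI : (∫⁻ t, fI R (r t) |C t|) =
      ∫⁻ t in {t | R < r t}ᶜ, ENNReal.ofReal (1 - C t ^ 2) := by
    rw [← lintegral_indicator hSm.compl]
    apply lintegral_congr
    intro t
    unfold fI
    rw [Set.indicator_apply, sq_abs]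
    by_cases ht : r t ≤ R
    · rw [if_pos ht, if_pos (by simpa using ht)]
    · rw [if_neg ht, if_neg (by simpa using ht)]
  have hsplit : (∫⁻ t, ENNReal.ofReal (1 - C t ^ 2)) =
      (∫⁻ t in {t | R < r t}, ENNReal.ofReal (1 - C t ^ 2)) + ∫⁻ t, fI R (r t) |C t| := by
    rw [hI, lintegral_add_compl _ hSm]
  have hone := line_one h hex
  have hF := line_F h hR hex
  have hm1 : Measurable (fun t => ENNReal.ofReal (1 - C t ^ 2)) := by
    refine ENNReal.measurable_ofReal.comp ?_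
    exact measurable_const.sub (h.hC.pow_const 2)
  have hm2 : Measurable (fun t => 2 * ENNReal.ofReal (1 - |C t|)) := by
    refine Measurable.const_mul (ENNReal.measurable_ofReal.comp ?_) _
    exact measurable_const.sub h.hC.abs
  have hm3 : Measurable (fun t => ENNReal.ofReal (1 - |C t|)) := by
    refine ENNReal.measurable_ofReal.comp ?_
    exact measurable_const.sub h.hC.abs
  have hpt : (∫⁻ t in {t | R < r t}, ENNReal.ofReal (1 - C t ^ 2)) +
      (∫⁻ t in {t | R < r t}, ENNReal.ofReal ((1 - c0 R (r t)) ^ 2 / c0 R (r t) * |C t|)) ≤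
      2 * (∫⁻ t in {t | R < r t}, ENNReal.ofReal (1 - |C t|)) + ∫⁻ t, fS R (r t) |C t| := by
    rw [hS, ← lintegral_add_left hm1, ← lintegral_const_mul _ hm3, ← lintegral_add_left hm2]
    apply setLIntegral_mono' hSm
    intro t ht
    have hc0 : 0 < c0 R (r t) := aj20_c0 hR ht
    have hc1 := h.C1 t
    have hc2 := abs_nonneg (C t)
    have e1 : C t ^ 2 = |C t| ^ 2 := (sq_abs _).symm
    have e2 : (1 - |C t| ^ 2) + (1 - c0 R (r t)) ^ 2 / c0 R (r t) * |C t| =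
        2 * (1 - |C t|) + (|C t| - c0 R (r t)) * ((c0 R (r t))⁻¹ - |C t|) := by
      field_simp
      ring
    have e3 : (2 : ENNReal) * ENNReal.ofReal (1 - |C t|) = ENNReal.ofReal (2 * (1 - |C t|)) := by
      rw [ENNReal.ofReal_mul (by norm_num)]
      simp
    rw [e1, ← ENNReal.ofReal_add (by nlinarith) (by positivity), e2, e3]
    exact ENNReal.ofReal_add_le
  have hπ : 0 ≤ (4 - π) * R := mul_nonneg (by linarith [Real.pi_le_four]) hR.le
  have h8 : ENNReal.ofReal ((4 - π) * R) + ((∫⁻ t in {t | R < r t}, ENNReal.ofReal (1 - C t ^ 2)) +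
      2 * volume {t | r t ≤ R}) ≤
      ENNReal.ofReal ((4 - π) * R) + (ENNReal.ofReal (π * R) + ∫⁻ t, fS R (r t) |C t|) := by
    calc ENNReal.ofReal ((4 - π) * R) + ((∫⁻ t in {t | R < r t}, ENNReal.ofReal (1 - C t ^ 2)) +
        2 * volume {t | r t ≤ R})
        ≤ (∫⁻ t in {t | R < r t}, ENNReal.ofReal ((1 - c0 R (r t)) ^ 2 / c0 R (r t) * |C t|)) +
          ((∫⁻ t in {t | R < r t}, ENNReal.ofReal (1 - C t ^ 2)) +
        2 * volume {t | r t ≤ R}) := by gcongr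
      _ = ((∫⁻ t in {t | R < r t}, ENNReal.ofReal (1 - C t ^ 2)) +
      (∫⁻ t in {t | R < r t}, ENNReal.ofReal ((1 - c0 R (r t)) ^ 2 / c0 R (r t) * |C t|))) +
        2 * volume {t | r t ≤ R} := by ring
      _ ≤ (2 * (∫⁻ t in {t | R < r t}, ENNReal.ofReal (1 - |C t|)) + ∫⁻ t, fS R (r t) |C t|) +
        2 * volume {t | r t ≤ R} := by gcongr
      _ = 2 * ((∫⁻ t in {t | R < r t}, ENNReal.ofReal (1 - |C t|)) + volume {t | r t ≤ R}) +
        ∫⁻ t, fS R (r t) |C t| := by ring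
      _ ≤ 2 * ENNReal.ofReal (2 * R) + ∫⁻ t, fS R (r t) |C t| := by gcongr
      _ = ENNReal.ofReal ((4 - π) * R) + (ENNReal.ofReal (π * R) +
        ∫⁻ t, fS R (r t) |C t|) := by
          rw [← add_assoc, ← ENNReal.ofReal_add hπ (by positivity)]
          congr 1
          have e3 : (2 : ENNReal) * ENNReal.ofReal (2 * R) = ENNReal.ofReal (2 * (2 * R)) := by
            rw [ENNReal.ofReal_mul (by norm_num : (0 : ℝ) ≤ 2) (q := 2 * R)]
            simp
          rw [e3]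
          congr 1
          ring
  have h9 := (ENNReal.add_le_add_iff_left ENNReal.ofReal_ne_top).1 h8
  rw [hsplit]
  calc (∫⁻ t in {t | R < r t}, ENNReal.ofReal (1 - C t ^ 2)) + (∫⁻ t, fI R (r t) |C t|) +
        2 * volume {t | r t ≤ R}
      = ((∫⁻ t in {t | R < r t}, ENNReal.ofReal (1 - C t ^ 2)) + 2 * volume {t | r t ≤ R}) +
        (∫⁻ t, fI R (r t) |C t|) := by ring
    _ ≤ _ := by gcongr

end PPF
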