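import Pool.Agent.Lib.MP_a4f5e0_gt.A.ADefs
import Pool.Agent.Lib.MP_a4f5e0_gt.A.AJ14
import Pool.Agent.Lib.MP_a4f5e0_gt.A.AJ15
set_option autoImplicit false

open MeasureTheory Set Filter Topology Real

noncomputable section

namespace PPF

/-- JOB AJ21.  Step 6, one line.

Put `ρ = r t₀ ≥ 0`, `v t = √(r t² - ρ²)`.
(i) `v` is 1-Lipschitz: for `η > 0` let `G s = √(s² - ρ² + η)`, differentiable at every `s ≥ ρ` with
`G' s = s/√(s²-ρ²+η)`, `ftc_comp`: `G (r b) - G (r a) = ∫_a^b G'(r) C` and a.e.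
`|G'(r) C| = √(r² C²)/√(r²-ρ²+η) ≤ √(r²-ρ²)/√(r²-ρ²+η) ≤ 1`, so `|G (r b) - G (r a)| ≤ |b - a|`;
`η → 0` gives `|v b - v a| ≤ |b - a|`.
(ii) `v t₀ = 0`.  `v s ≥ r s - ρ²/r s` when `r s > 0`, so for every `δ > 0`, for large `T`:
`v T + v (-T) ≥ r T + r (-T) - δ ≥ 2T - δ` (`line_tendsto`, `h.rm T (-T)`).
(iii) Let `t ≥ t₀`: `v t ≤ t - t₀` by (i); for large `T`: `v T ≤ v t + (T - t)`, `v (-T) ≤ t₀ + T`,
so `2T - δ ≤ v t + 2T - t + t₀`, `v t ≥ t - t₀ - δ`.  Same for `t ≤ t₀`.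
So `v t = |t - t₀|`, `r t² = ρ² + v t² = ρ² + (t - t₀)²`. -/
theorem line_final {r C : ℝ → ℝ} (h : Ln r C) {t₀ : ℝ} (hmin : ∀ t, r t₀ ≤ r t)
    (hC : ∀ᵐ t, (r t) ^ 2 * (C t) ^ 2 ≤ (r t) ^ 2 - (r t₀) ^ 2) :
    ∀ t, (r t) ^ 2 = (r t₀) ^ 2 + (t - t₀) ^ 2 := by
  set ρ := r t₀ with hρ
  have hρ0 : 0 ≤ ρ := h.r0 t₀
  have hsq : ∀ t, ρ ^ 2 ≤ (r t) ^ 2 := fun t => pow_le_pow_left₀ hρ0 (hmin t) 2
  set v : ℝ → ℝ := fun t => √((r t) ^ 2 - ρ ^ 2) with hv
  have hv0 : ∀ t, 0 ≤ v t := fun t => Real.sqrt_nonneg _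
  have hvsq : ∀ t, v t ^ 2 = (r t) ^ 2 - ρ ^ 2 := fun t => Real.sq_sqrt (by linarith [hsq t])
  -- (i)
  have hLη : ∀ η > 0, ∀ a b, a ≤ b →
      |√((r b) ^ 2 - ρ ^ 2 + η) - √((r a) ^ 2 - ρ ^ 2 + η)| ≤ b - a := by
    intro η hη a b hab
    have hpos : ∀ t, 0 < (r t) ^ 2 - ρ ^ 2 + η := fun t => by linarith [hsq t]
    have hG : ∀ t ∈ Icc a b, HasDerivAt (fun s => √(s ^ 2 - ρ ^ 2 + η))
        ((fun s => s / √(s ^ 2 - ρ ^ 2 + η)) (r t)) (r t) := by
      intro t _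
      have h1 : HasDerivAt (fun s : ℝ => s ^ 2 - ρ ^ 2 + η) (2 * r t) (r t) := by
        have := ((hasDerivAt_pow 2 (r t)).sub_const (ρ ^ 2)).add_const η
        simpa using this
      have h2 := h1.sqrt (hpos t).ne'
      convert h2 using 1
      have := (Real.sqrt_pos.2 (hpos t)).ne'
      field_simp
    have hG' : ContinuousOn (fun t => (fun s => s / √(s ^ 2 - ρ ^ 2 + η)) (r t)) (Icc a b) := by
      have hc := h.cont
      refine (Continuous.div hc ?_ (fun t => (Real.sqrt_pos.2 (hpos t)).ne')).continuousOn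
      exact (((hc.pow 2).sub continuous_const).add continuous_const).sqrt
    have h3 := ftc_comp h (G := fun s => √(s ^ 2 - ρ ^ 2 + η))
      (G' := fun s => s / √(s ^ 2 - ρ ^ 2 + η)) hab hG hG'
    rw [← h3]
    have h4 := intervalIntegral.norm_integral_le_of_norm_le_const_ae (a := a) (b := b) (C := 1)
      (f := fun t => r t / √((r t) ^ 2 - ρ ^ 2 + η) * C t) (by
        filter_upwards [hC] with t ht _
        rw [norm_mul, norm_div, Real.norm_eq_abs, Real.norm_eq_abs, Real.norm_eq_abs,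
          abs_of_nonneg (h.r0 t), abs_of_nonneg (Real.sqrt_nonneg _), div_mul_eq_mul_div,
          div_le_one (Real.sqrt_pos.2 (hpos t))]
        apply Real.le_sqrt_of_sq_le
        rw [mul_pow, sq_abs]
        linarith)
    rw [Real.norm_eq_abs, one_mul, abs_of_nonneg (by linarith : (0:ℝ) ≤ b - a)] at h4
    exact h4
  have hL : ∀ a b, a ≤ b → |v b - v a| ≤ b - a := by
    intro a b hab
    refine le_of_forall_pos_le_add fun δ hδ => ?_
    have h1 := hLη (δ ^ 2) (by positivity) a b hab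
    have hub : ∀ t, √((r t) ^ 2 - ρ ^ 2 + δ ^ 2) ≤ v t + δ := by
      intro t
      apply Real.sqrt_le_iff.2
      refine ⟨by linarith [hv0 t], ?_⟩
      nlinarith [hvsq t, hv0 t]
    have hlb : ∀ t, v t ≤ √((r t) ^ 2 - ρ ^ 2 + δ ^ 2) := fun t =>
      Real.sqrt_le_sqrt (by nlinarith)
    have ha := hub a
    have hb := hub b
    have ha' := hlb a
    have hb' := hlb b
    rw [abs_le] at h1 ⊢
    constructor <;> linarith [h1.1, h1.2]
  have hvt0 : v t₀ = 0 := by simp [hv, hρ]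
  -- (ii)
  have hlow : ∀ δ > 0, ∀ᶠ T : ℝ in atTop, 2 * T - δ ≤ v T + v (-T) := by
    intro δ hδ
    have hcmp : ∀ t, 1 ≤ r t → 2 * ρ ^ 2 / δ ≤ r t → r t - δ / 2 ≤ v t := by
      intro t ht1 ht2
      by_contra hcon
      push Not at hcon
      have h1 : 2 * ρ ^ 2 ≤ r t * δ := by rwa [div_le_iff₀ hδ] at ht2
      have h2 : v t < r t - δ / 2 := hcon
      have h3 : 0 ≤ v t := hv0 t
      have h4 := hvsq t
      have h5 : v t ^ 2 < (r t - δ / 2) ^ 2 := pow_lt_pow_left₀ h2 h3 two_ne_zero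
      nlinarith
    filter_upwards [(line_tendsto h).1.eventually_ge_atTop (max 1 (2 * ρ ^ 2 / δ)),
      (line_tendsto h).2.eventually_ge_atTop (max 1 (2 * ρ ^ 2 / δ)),
      eventually_ge_atTop (0:ℝ)] with T hT1 hT2 hT3
    have e1 := hcmp T ((le_max_left _ _).trans hT1) ((le_max_right _ _).trans hT1)
    have e2 := hcmp (-T) ((le_max_left _ _).trans hT2) ((le_max_right _ _).trans hT2)
    have e3 := h.rm T (-T)
    rw [abs_of_nonneg (by linarith)] at e3
    linarith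
  have hvt : ∀ t, v t = |t - t₀| := by
    intro t
    refine le_antisymm ?_ ?_
    · rcases le_total t₀ t with ht | ht
      · have := hL _ _ ht
        rw [hvt0, sub_zero, abs_of_nonneg (hv0 t)] at this
        rwa [abs_of_nonneg (by linarith)]
      · have := hL _ _ ht
        rw [hvt0, zero_sub, abs_neg, abs_of_nonneg (hv0 t)] at this
        rw [abs_of_nonpos (by linarith)]
        linarith
    · refine le_of_forall_pos_le_add fun δ hδ => ?_
      obtain ⟨T, hT1, hT2, hT3⟩ := ((hlow δ hδ).and ((eventually_ge_atTop (|t|)).and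
        (eventually_ge_atTop (|t₀|)))).exists
      have ht := abs_le.1 hT2
      have ht0 := abs_le.1 hT3
      rcases le_total t₀ t with htt | htt
      · rw [abs_of_nonneg (by linarith)]
        have e1 := hL t T ht.2
        have e2 := hL (-T) t₀ ht0.1
        rw [abs_le] at e1 e2
        rw [hvt0] at e2
        linarith [e1.1, e1.2, e2.1, e2.2]
      · rw [abs_of_nonpos (by linarith)]
        have e1 := hL t₀ T ht0.2
        have e2 := hL (-T) t ht.1
        rw [abs_le] at e1 e2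
        rw [hvt0] at e1
        linarith [e1.1, e1.2, e2.1, e2.2]
  intro t
  have h1 := hvsq t
  rw [hvt t, sq_abs] at h1
  linarith

end PPF
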