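import Pool.Agent.Lib.MP_a4f5e0_gt.A.ADefs

set_option autoImplicit false

open MeasureTheory Set Filter Topology Real

noncomputable section

namespace PPF

theorem aj22_shift {g : ℝ → ENNReal} (hg : ∀ ψ, g (ψ + π) = g ψ) :
    ∫⁻ ψ in Ioc π (2 * π), g ψ = ∫⁻ ψ in Ioc 0 π, g ψ := by
  rw [← lintegral_indicator measurableSet_Ioc, ← lintegral_indicator measurableSet_Ioc,
    ← lintegral_add_right_eq_self ((Ioc π (2 * π)).indicator g) π]
  refine lintegral_congr fun ψ => ?_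
  by_cases h : ψ ∈ Ioc 0 π
  · have h' : ψ + π ∈ Ioc π (2 * π) := ⟨by linarith [h.1], by linarith [h.2]⟩
    rw [indicator_of_mem h, indicator_of_mem h', hg]
  · have h' : ψ + π ∉ Ioc π (2 * π) := fun h2 => h ⟨by linarith [h2.1], by linarith [h2.2]⟩
    rw [indicator_of_notMem h, indicator_of_notMem h']

theorem aj22_refl {g : ℝ → ENNReal} (hg : ∀ ψ, g (π - ψ) = g ψ) :
    ∫⁻ ψ in Ioc (π / 2) π, g ψ = ∫⁻ ψ in Ioc 0 (π / 2), g ψ := by
  have h1 : ∫⁻ ψ in Ioc (π / 2) π, g ψ = ∫⁻ ψ in Ico 0 (π / 2), g ψ := by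
    rw [← lintegral_indicator measurableSet_Ioc, ← lintegral_indicator measurableSet_Ico,
      ← lintegral_sub_left_eq_self ((Ioc (π / 2) π).indicator g) π]
    refine lintegral_congr fun ψ => ?_
    by_cases h : ψ ∈ Ico 0 (π / 2)
    · have h' : π - ψ ∈ Ioc (π / 2) π := ⟨by linarith [h.2], by linarith [h.1]⟩
      rw [indicator_of_mem h, indicator_of_mem h', hg]
    · have h' : π - ψ ∉ Ioc (π / 2) π := fun h2 => h ⟨by linarith [h2.2], by linarith [h2.1]⟩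
      rw [indicator_of_notMem h, indicator_of_notMem h']
  rw [h1]
  exact setLIntegral_congr Ico_ae_eq_Ioc

/-- JOB AJ22.  Quarter circle.

Split `Ioc 0 (2π)` at `π/2, π, 3π/2` and substitute `ψ ↦ π - ψ`, `ψ ↦ ψ - π`, `ψ ↦ 2π - ψ`
(measure preserving maps of `ℝ`: `Measure.measurePreserving_sub_left volume`,
`measurePreserving_sub_right`), using `|cos (π - ψ)| = |cos ψ|` etc.; end points are null sets. -/
theorem quarter {f : ℝ → ENNReal} (hf : Measurable f) :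
    ∫⁻ ψ in Ioc 0 (2 * π), f |cos ψ| = 4 * ∫⁻ ψ in Ioc 0 (π / 2), f (cos ψ) := by
  have hpi := Real.pi_pos
  have h0 : ∫⁻ ψ in Ioc 0 (π / 2), f (cos ψ) = ∫⁻ ψ in Ioc 0 (π / 2), f |cos ψ| := by
    refine setLIntegral_congr_fun measurableSet_Ioc fun ψ hψ => ?_
    have : 0 ≤ cos ψ := Real.cos_nonneg_of_mem_Icc ⟨by linarith [hψ.1], hψ.2⟩
    simp only [abs_of_nonneg this]
  have h1 : ∫⁻ ψ in Ioc π (2 * π), f |cos ψ| = ∫⁻ ψ in Ioc 0 π, f |cos ψ| :=
    aj22_shift (g := fun ψ => f |cos ψ|) fun ψ => by simp [Real.cos_add_pi]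
  have h2 : ∫⁻ ψ in Ioc (π / 2) π, f |cos ψ| = ∫⁻ ψ in Ioc 0 (π / 2), f |cos ψ| :=
    aj22_refl (g := fun ψ => f |cos ψ|) fun ψ => by simp [Real.cos_pi_sub]
  have h3 : ∫⁻ ψ in Ioc 0 π, f |cos ψ| =
      (∫⁻ ψ in Ioc 0 (π / 2), f |cos ψ|) + ∫⁻ ψ in Ioc (π / 2) π, f |cos ψ| := by
    rw [← lintegral_union measurableSet_Ioc (Ioc_disjoint_Ioc_of_le le_rfl),
      Ioc_union_Ioc_eq_Ioc (by linarith) (by linarith)]
  have h4 : ∫⁻ ψ in Ioc 0 (2 * π), f |cos ψ| =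
      (∫⁻ ψ in Ioc 0 π, f |cos ψ|) + ∫⁻ ψ in Ioc π (2 * π), f |cos ψ| := by
    rw [← lintegral_union measurableSet_Ioc (Ioc_disjoint_Ioc_of_le le_rfl),
      Ioc_union_Ioc_eq_Ioc (by linarith) (by linarith)]
  rw [h4, h1, h3, h2, h0]
  ring

/-- JOB AJ22.  `∫_0^{2π} (1 - cos²) = π` -/
theorem ang_I (R s : ℝ) :
    ∫⁻ ψ in Ioc 0 (2 * π), fI R s |cos ψ| = if s ≤ R then ENNReal.ofReal π else 0 := by
  have hpi := Real.pi_pos
  unfold fI
  split_ifs with h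
  · have h1 : ∀ ψ : ℝ, 1 - |cos ψ| ^ 2 = sin ψ ^ 2 := by
      intro ψ
      rw [sq_abs, Real.sin_sq]
    simp only [h1]
    rw [← ofReal_integral_eq_lintegral_ofReal]
    · congr 1
      rw [← intervalIntegral.integral_of_le (by linarith), integral_sin_sq]
      simp
    · exact ((continuous_sin.pow 2).integrableOn_Icc).mono_set Ioc_subset_Icc_self
    · exact Eventually.of_forall fun ψ => sq_nonneg _
  · simp

end PPF
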