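import Pool.Agent.Lib.MP_a4f5e0_gt.A.ADefs
import Pool.Agent.Lib.MP_a4f5e0_gt.A.AJ22
set_option autoImplicit false

open MeasureTheory Set Filter Topology Real

noncomputable section

namespace PPF

theorem aj23_help {g : ℝ → ℝ} {β : ℝ} (h0 : 0 ≤ β) (hβ : β ≤ π / 2) (hg : Continuous g)
    (hpos : ∀ ψ ∈ Ioc 0 β, 0 ≤ g ψ) (hneg : ∀ ψ ∈ Ioc β (π / 2), g ψ ≤ 0) :
    ∫⁻ ψ in Ioc 0 (π / 2), ENNReal.ofReal (g ψ) = ENNReal.ofReal (∫ ψ in (0:ℝ)..β, g ψ) := by
  rw [← Ioc_union_Ioc_eq_Ioc h0 hβ, lintegral_union measurableSet_Ioc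
    (Set.disjoint_left.2 fun x hx hy => absurd hx.2 (not_le.2 hy.1))]
  have h2 : ∫⁻ ψ in Ioc β (π / 2), ENNReal.ofReal (g ψ) = 0 := by
    rw [setLIntegral_congr_fun measurableSet_Ioc
      (fun ψ hψ => ENNReal.ofReal_eq_zero.2 (hneg ψ hψ))]
    simp
  rw [h2, add_zero, intervalIntegral.integral_of_le h0,
    ofReal_integral_eq_lintegral_ofReal]
  · exact (hg.integrableOn_Icc (a := 0) (b := β)).mono_set Ioc_subset_Icc_self
  · exact (ae_restrict_iff' measurableSet_Ioc).2 (Eventually.of_forall hpos)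

theorem aj23_facts {R s : ℝ} (hR : 0 < R) (hs : R < s) :
    0 < arcsin (R / s) ∧ arcsin (R / s) < π / 2 ∧ cos (arcsin (R / s)) = c0 R s ∧
      sin (arcsin (R / s)) = R / s ∧ 0 < c0 R s ∧ c0 R s ≤ 1 := by
  have hs0 : 0 < s := hR.trans hs
  have hz0 : 0 < R / s := div_pos hR hs0
  have hz1 : R / s < 1 := (div_lt_one hs0).2 hs
  have hc : cos (arcsin (R / s)) = c0 R s := by
    rw [Real.cos_arcsin, c0, div_pow]
  refine ⟨Real.arcsin_pos.2 hz0, Real.arcsin_lt_pi_div_two.2 hz1, hc,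
    Real.sin_arcsin (by linarith) hz1.le, ?_, ?_⟩
  · rw [c0, ← div_pow]
    apply Real.sqrt_pos.2
    nlinarith
  · rw [← hc]
    exact Real.cos_le_one _

/-- JOB AJ23.  `β = arcsin (R/s) ∈ (0,π/2)`, `cos β = √(1-(R/s)²) = c0 R s`, `sin β = R/s`.
By `quarter` (`measurable_fL`), the integral is `4 * ∫⁻ ψ in Ioc 0 (π/2), ofReal (cos ψ/c0 - 1)`; for
`ψ ∈ (β, π/2]`, `cos ψ ≤ cos β = c0` so the integrand is `0`; on `Ioc 0 β` it is nonnegative and
`∫_0^β (cos ψ/c0 - 1) = sin β/c0 - β = (R/s)/√(1-(R/s)²) - arcsin (R/s) = Wf (R/s)`. -/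
theorem ang_L {R s : ℝ} (hR : 0 < R) (hs : R < s) :
    ∫⁻ ψ in Ioc 0 (2 * π), fL R s |cos ψ| = ENNReal.ofReal (4 * Wf (R / s)) := by
  obtain ⟨hβ0, hβ1, hcos, hsin, hc0, hc1⟩ := aj23_facts hR hs
  have hm : Measurable (fun c => fL R s c) :=
    (measurable_fL R).comp (measurable_const.prodMk measurable_id)
  rw [quarter hm]
  have h1 : ∀ c, fL R s c = ENNReal.ofReal (c / c0 R s - 1) := fun c => by
    unfold fL
    rw [if_pos hs]
  simp only [h1]
  rw [aj23_help (β := arcsin (R / s)) hβ0.le hβ1.le (by fun_prop)]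
  · have h2 : ∫ ψ in (0:ℝ)..arcsin (R / s), (cos ψ / c0 R s - 1) = Wf (R / s) := by
      have hd : ∀ x ∈ uIcc (0:ℝ) (arcsin (R / s)),
          HasDerivAt (fun ψ => sin ψ / c0 R s - ψ) (cos x / c0 R s - 1) x := fun x _ =>
        ((Real.hasDerivAt_sin x).div_const _).sub (hasDerivAt_id x)
      rw [intervalIntegral.integral_eq_sub_of_hasDerivAt hd
        (Continuous.intervalIntegrable (by fun_prop) _ _)]
      rw [hsin, Real.sin_zero, Wf, ← hcos, Real.cos_arcsin]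
      ring
    rw [h2, ENNReal.ofReal_mul (by norm_num)]
    norm_num
  · intro ψ hψ
    have : c0 R s ≤ cos ψ := by
      rw [← hcos]
      exact Real.cos_le_cos_of_nonneg_of_le_pi hψ.1.le (by linarith [Real.pi_pos]) hψ.2
    rw [sub_nonneg, le_div_iff₀ hc0]
    linarith
  · intro ψ hψ
    have : cos ψ ≤ c0 R s := by
      rw [← hcos]
      exact Real.cos_le_cos_of_nonneg_of_le_pi hβ0.le (by linarith [Real.pi_pos, hψ.2]) hψ.1.le
    rw [sub_nonpos, div_le_iff₀ hc0]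
    linarith

/-- JOB AJ23.  In the same way: on `(β,π/2]` the integrand `ofReal ((cos ψ - c0)(1/c0 - cos ψ))` is `0`
(`cos ψ ≤ c0 ≤ 1 ≤ 1/c0`), and
`∫_0^β (cos ψ - c0)(1/c0 - cos ψ) = ∫_0^β (cos ψ/c0 - cos² ψ - 1 + c0 cos ψ)
= sin β/c0 - (β + sin β cos β)/2 - β + c0 sin β = z/c0 + c0 z/2 - 3β/2` (`z = R/s`), and
`4 * ` this `= 4 z/c0 + 2 c0 z - 6 β = 4 Wf z - 2 Vf z = Mf z`. -/
theorem ang_S {R s : ℝ} (hR : 0 < R) (hs : R < s) :
    ∫⁻ ψ in Ioc 0 (2 * π), fS R s |cos ψ| = ENNReal.ofReal (Mf (R / s)) := by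
  obtain ⟨hβ0, hβ1, hcos, hsin, hc0, hc1⟩ := aj23_facts hR hs
  have hm : Measurable (fun c => fS R s c) :=
    (measurable_fS R).comp (measurable_const.prodMk measurable_id)
  have hinv : 1 ≤ (c0 R s)⁻¹ := (one_le_inv₀ hc0).2 hc1
  rw [quarter hm]
  have h1 : ∀ c, fS R s c = ENNReal.ofReal ((c - c0 R s) * ((c0 R s)⁻¹ - c)) := fun c => by
    unfold fS
    rw [if_pos hs]
  simp only [h1]
  rw [aj23_help (β := arcsin (R / s)) hβ0.le hβ1.le (by fun_prop)]
  · have h2 : 4 * ∫ ψ in (0:ℝ)..arcsin (R / s), (cos ψ - c0 R s) * ((c0 R s)⁻¹ - cos ψ) =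
        Mf (R / s) := by
      have hd : ∀ x ∈ uIcc (0:ℝ) (arcsin (R / s)),
          HasDerivAt (fun ψ => sin ψ * (c0 R s)⁻¹ - (ψ / 2 + sin ψ * cos ψ / 2) - ψ +
            c0 R s * sin ψ) ((cos x - c0 R s) * ((c0 R s)⁻¹ - cos x)) x := by
        intro x _
        have e1 := (((Real.hasDerivAt_sin x).mul_const (c0 R s)⁻¹).sub
          (((hasDerivAt_id x).div_const 2).add
          (((Real.hasDerivAt_sin x).mul (Real.hasDerivAt_cos x)).div_const 2))).sub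
          (hasDerivAt_id x) |>.add ((Real.hasDerivAt_sin x).const_mul (c0 R s))
        refine e1.congr_deriv ?_
        have e2 : c0 R s * (c0 R s)⁻¹ = 1 := mul_inv_cancel₀ hc0.ne'
        have e3 := Real.sin_sq_add_cos_sq x
        linear_combination (1 : ℝ) * e2 + (1 / 2 : ℝ) * e3
      rw [intervalIntegral.integral_eq_sub_of_hasDerivAt hd
        (Continuous.intervalIntegrable (by fun_prop) _ _)]
      have hc : √(1 - (R / s) ^ 2) = c0 R s := by rw [← hcos, Real.cos_arcsin]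
      rw [hsin, hcos, Real.sin_zero, Mf, Wf, Vf, hc]
      field_simp
      ring
    rw [← h2, ENNReal.ofReal_mul (by norm_num)]
    norm_num
  · intro ψ hψ
    have : c0 R s ≤ cos ψ := by
      rw [← hcos]
      exact Real.cos_le_cos_of_nonneg_of_le_pi hψ.1.le (by linarith [Real.pi_pos]) hψ.2
    exact mul_nonneg (by linarith) (by linarith [Real.cos_le_one ψ])
  · intro ψ hψ
    have : cos ψ ≤ c0 R s := by
      rw [← hcos]
      exact Real.cos_le_cos_of_nonneg_of_le_pi hβ0.le (by linarith [Real.pi_pos, hψ.2]) hψ.1.le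
    exact mul_nonpos_of_nonpos_of_nonneg (by linarith) (by linarith [Real.cos_le_one ψ])

end PPF
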