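import Pool.Agent.Lib.MP_a4f5e0_gt.A.ADefs

set_option autoImplicit false

open MeasureTheory Set Filter Topology Real

noncomputable section

namespace PPF

variable {Λ : Type*} [MeasurableSpace Λ] {lam : Measure Λ} {r C : Λ → ℝ → ℝ} {m : Measure ℝ}

theorem aj24_cont (H : Hy lam r C m) (l : Λ) : Continuous (r l) := by
  have : LipschitzWith 1 (r l) := LipschitzWith.of_dist_le_mul (fun x y => by
    simpa [Real.dist_eq] using H.rl l x y)
  exact this.continuous

/-- JOB AJ24.  `{l | ∃ t, r l t ≤ R} = ⋂ n, ⋃ q : ℚ, {l | r l q < R + 1/(n+1)}`: `⊆` by continuity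
(`H.rl`: 1-Lipschitz) and density of `ℚ`; `⊇`: if for every `n` there is `q_n` with
`r l q_n < R + 1/(n+1)`, then `|q_n| ≤ r l 0 + R + 1` (`H.rm l q_n 0`), so `r l` attains its minimum on
`Icc (-(r l 0 + R + 1)) (r l 0 + R + 1)`, and the minimum is `≤ R + 1/(n+1)` for all `n`. -/
theorem meas_LR (H : Hy lam r C m) (R : ℝ) : MeasurableSet {l | ∃ t, r l t ≤ R} := by
  have he : {l | ∃ t, r l t ≤ R} = ⋂ n : ℕ, ⋃ q : ℚ, {l | r l q < R + 1 / ((n : ℝ) + 1)} := by
    ext l
    simp only [mem_iInter, mem_iUnion]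
    constructor
    · rintro ⟨t, ht⟩ n
      have hpos : (0:ℝ) < 1 / ((n : ℝ) + 1) := by positivity
      obtain ⟨q, hq1, hq2⟩ := exists_rat_btwn (show t < t + 1 / ((n : ℝ) + 1) by linarith)
      refine ⟨q, ?_⟩
      have h1 := H.rl l q t
      have h2 := le_abs_self (r l q - r l t)
      have h3 : |(q:ℝ) - t| < 1 / ((n : ℝ) + 1) := by
        rw [abs_of_pos (by linarith)]; linarith
      show r l q < R + 1 / ((n : ℝ) + 1)
      linarith
    · intro hq
      have hc := aj24_cont H l
      have h0 := H.r0 l 0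
      obtain ⟨q₀, hq₀⟩ := hq 0
      have hq₀' : r l q₀ < R + 1 := by
        have : r l q₀ < R + 1 / (((0:ℕ) : ℝ) + 1) := hq₀
        simpa using this
      have hR1 : 0 < R + 1 := lt_of_le_of_lt (H.r0 l q₀) hq₀'
      obtain ⟨t, ht, hmin⟩ := (isCompact_Icc (a := -(r l 0 + R + 1)) (b := r l 0 + R + 1)).exists_isMinOn
        ⟨0, by constructor <;> linarith⟩ hc.continuousOn
      refine ⟨t, ?_⟩
      refine le_of_forall_pos_le_add fun ε hε => ?_
      obtain ⟨n, hn⟩ := exists_nat_one_div_lt hε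
      obtain ⟨q, hqn⟩ := hq n
      have hqn' : r l q < R + 1 / ((n : ℝ) + 1) := hqn
      have hle1 : 1 / ((n : ℝ) + 1) ≤ 1 := by
        rw [div_le_one (by positivity)]
        have : (0:ℝ) ≤ n := Nat.cast_nonneg n
        linarith
      have hb : |(q:ℝ)| ≤ r l 0 + R + 1 := by
        have h1 := H.rm l q 0
        rw [sub_zero] at h1
        linarith
      have h2 := hmin (abs_le.1 hb : (q:ℝ) ∈ Icc (-(r l 0 + R + 1)) (r l 0 + R + 1))
      have h2' : r l t ≤ r l q := h2
      linarith
  rw [he]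
  refine MeasurableSet.iInter fun n => MeasurableSet.iUnion fun q => ?_
  exact measurableSet_lt (H.hr.comp (measurable_id.prodMk measurable_const)) measurable_const

/-- measurability of the inner integrals (`Measurable.lintegral_prod_right'`) -/
theorem meas_inner (H : Hy lam r C m) {F : ℝ × ℝ → ENNReal} (hF : Measurable F) :
    Measurable (fun l => ∫⁻ t, F (r l t, |C l t|)) := by
  have h1 : Measurable fun p : Λ × ℝ => F (r p.1 p.2, |C p.1 p.2|) :=
    hF.comp (H.hr.prodMk (measurable_norm.comp H.hC))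
  exact h1.lintegral_prod_right'

theorem meas_sig (H : Hy lam r C m) (R : ℝ) : Measurable (fun l => volume {t | r l t ≤ R}) := by
  have h1 : MeasurableSet {p : Λ × ℝ | r p.1 p.2 ≤ R} := measurableSet_le H.hr measurable_const
  exact measurable_measure_prodMk_left h1

/-- `H.hdis` and Tonelli (`lintegral_lintegral_swap`, `m` is `σ`-finite by
`sigmaFinite_of_Iic H.hmf`) -/
theorem dis_swap (H : Hy lam r C m) {F : ℝ × ℝ → ENNReal} (hF : Measurable F) :
    ∫⁻ l, (∫⁻ t, F (r l t, |C l t|)) ∂lam =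
      ∫⁻ s, (∫⁻ ψ in Set.Ioc 0 (2 * π), F (s, |cos ψ|)) ∂m := by
  haveI := sigmaFinite_of_Iic H.hmf
  rw [H.hdis F hF, lintegral_lintegral_swap]
  refine Measurable.aemeasurable ?_
  exact hF.comp (measurable_snd.prodMk (measurable_norm.comp (measurable_cos.comp measurable_fst)))

/-- `H.hdis` with `F = 1_{s ≤ R}`; `volume {t | r l t ≤ R} = ∫⁻ t, 1_{r l t ≤ R}` -/
theorem int_sig (H : Hy lam r C m) (R : ℝ) :
    ∫⁻ l, volume {t | r l t ≤ R} ∂lam = ENNReal.ofReal (2 * π) * m (Iic R) := by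
  have hF : Measurable (fun p : ℝ × ℝ => (Iic R).indicator (fun _ => (1 : ENNReal)) p.1) :=
    (measurable_const.indicator measurableSet_Iic).comp measurable_fst
  have h1 := H.hdis _ hF
  have h2 : ∀ l, ∫⁻ t, (Iic R).indicator (fun _ => (1 : ENNReal)) (r l t) = volume {t | r l t ≤ R} := by
    intro l
    have hm : MeasurableSet {t | r l t ≤ R} := measurableSet_le (aj24_cont H l).measurable measurable_const
    rw [← lintegral_indicator_one hm]
    rfl
  have h3 : ∫⁻ s, (Iic R).indicator (fun _ => (1 : ENNReal)) s ∂m = m (Iic R) := by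
    rw [lintegral_indicator measurableSet_Iic]
    simp
  simp only [h2, h3] at h1
  rw [h1, setLIntegral_const, Real.volume_Ioc, sub_zero, mul_comm]

end PPF
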