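import Pool.Agent.Lib.MP_a4f5e0_gt.A.ADefs
import Pool.Agent.Lib.MP_a4f5e0_gt.A.AJ22
import Pool.Agent.Lib.MP_a4f5e0_gt.A.AJ23
import Pool.Agent.Lib.MP_a4f5e0_gt.A.AJ24
set_option autoImplicit false

open MeasureTheory Set Filter Topology Real

noncomputable section

namespace PPF

variable {Λ : Type*} [MeasurableSpace Λ] {lam : Measure Λ} {r C : Λ → ℝ → ℝ} {m : Measure ℝ}

/-- JOB AJ25.  `dis_swap` with `F (s,c) = fL R s c` (`measurable_fL`); for `s ≤ R` the inner integral is
`0` (`fL` is an `if`), for `s > R` it is `ang_L`; `lintegral_indicator`. -/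
theorem int_fL (H : Hy lam r C m) {R : ℝ} (hR : 0 < R) :
    ∫⁻ l, (∫⁻ t, fL R (r l t) |C l t|) ∂lam =
      ∫⁻ s in Ioi R, ENNReal.ofReal (4 * Wf (R / s)) ∂m := by
  have h1 := dis_swap H (measurable_fL R)
  simp only at h1
  rw [h1, ← lintegral_indicator measurableSet_Ioi]
  refine lintegral_congr fun s => ?_
  by_cases hs : R < s
  · rw [indicator_of_mem (mem_Ioi.2 hs), ang_L hR hs]
  · rw [indicator_of_notMem (by simpa using hs)]
    simp [fL, hs]

theorem int_fS (H : Hy lam r C m) {R : ℝ} (hR : 0 < R) :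
    ∫⁻ l, (∫⁻ t, fS R (r l t) |C l t|) ∂lam =
      ∫⁻ s in Ioi R, ENNReal.ofReal (Mf (R / s)) ∂m := by
  have h1 := dis_swap H (measurable_fS R)
  simp only at h1
  rw [h1, ← lintegral_indicator measurableSet_Ioi]
  refine lintegral_congr fun s => ?_
  by_cases hs : R < s
  · rw [indicator_of_mem (mem_Ioi.2 hs), ang_S hR hs]
  · rw [indicator_of_notMem (by simpa using hs)]
    simp [fS, hs]

/-- with `ang_I` -/
theorem int_fI (H : Hy lam r C m) (R : ℝ) :
    ∫⁻ l, (∫⁻ t, fI R (r l t) |C l t|) ∂lam = ENNReal.ofReal π * m (Iic R) := by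
  have h1 := dis_swap H (measurable_fI R)
  simp only at h1
  rw [h1, ← setLIntegral_const, ← lintegral_indicator measurableSet_Iic]
  refine lintegral_congr fun s => ?_
  rw [ang_I]
  by_cases hs : s ≤ R
  · rw [indicator_of_mem (mem_Iic.2 hs), if_pos hs]
  · rw [indicator_of_notMem (by simpa using hs), if_neg hs]

end PPF
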