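import Pool.Agent.Lib.MP_a4f5e0_gt.A.ADefs
import Pool.Agent.Lib.MP_a4f5e0_gt.A.AJ15
import Pool.Agent.Lib.MP_a4f5e0_gt.A.AJ24
set_option autoImplicit false

open MeasureTheory Set Filter Topology Real

noncomputable section

namespace PPF

variable {Λ : Type*} [MeasurableSpace Λ] {lam : Measure Λ} {r C : Λ → ℝ → ℝ} {m : Measure ℝ}

/-- JOB AJ26.  Step 3.

`N = lam L`, `L = {l | ∃ t, r l t ≤ R}`.  By `line_sig_ge` (a.e. `l`, `H.ln`):
`ofReal (2R) * N ≤ ∫⁻ l in L, volume {t | r l t ≤ 2R} ≤ ofReal (2π) * m (Iic (2R)) < ⊤` (`int_sig`). -/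
theorem NR_fin (H : Hy lam r C m) {R : ℝ} (hR : 0 < R) : lam {l | ∃ t, r l t ≤ R} < ⊤ := by
  have h1 : ENNReal.ofReal (2 * R) * lam {l | ∃ t, r l t ≤ R} ≤
      ENNReal.ofReal (2 * π) * m (Iic (2 * R)) := by
    rw [← int_sig H (2 * R), ← setLIntegral_const]
    refine (setLIntegral_mono_ae' (meas_LR H R) ?_).trans (setLIntegral_le_lintegral _ _)
    filter_upwards [H.ln] with l hl hx
    exact line_sig_ge hl hx
  have h2 : ENNReal.ofReal (2 * π) * m (Iic (2 * R)) ≠ ⊤ :=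
    ENNReal.mul_ne_top ENNReal.ofReal_ne_top (H.hmf _).ne
  refine ENNReal.lt_top_of_mul_ne_top_right (a := ENNReal.ofReal (2 * R))
    (ne_top_of_le_ne_top h2 h1) ?_
  rw [Ne, ENNReal.ofReal_eq_zero]
  linarith

/-- `H.hpair` and `line_total`: `N² ≤ 8 * (ofReal (4R) * N)`, cancel `N` (finite; trivial if `0`). -/
theorem NR_le (H : Hy lam r C m) {R : ℝ} (hR : 0 < R) :
    lam {l | ∃ t, r l t ≤ R} ≤ ENNReal.ofReal (32 * R) := by
  have hfin := NR_fin H hR
  have h1 := H.hpair R hR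
  have h2 : ∫⁻ l in {l | ∃ t, r l t ≤ R}, (∫⁻ t, ENNReal.ofReal (1 - (C l t) ^ 2)) ∂lam ≤
      ENNReal.ofReal (4 * R) * lam {l | ∃ t, r l t ≤ R} := by
    rw [← setLIntegral_const]
    refine setLIntegral_mono_ae' (meas_LR H R) ?_
    filter_upwards [H.ln] with l hl hx
    exact line_total hl hx
  rcases eq_or_ne (lam {l | ∃ t, r l t ≤ R}) 0 with h0 | h0
  · rw [h0]
    exact zero_le
  · rw [← ENNReal.mul_le_mul_iff_left h0 hfin.ne, ← sq]
    refine h1.trans ((mul_le_mul_right h2 8).trans ?_)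
    rw [← mul_assoc]
    refine mul_le_mul_left (le_of_eq ?_) _
    have h8 : (8 : ENNReal) = ENNReal.ofReal 8 := by simp
    rw [h8, ← ENNReal.ofReal_mul (by norm_num)]
    congr 1
    ring

/-- `ofReal (2π) * m (Iic R) = ∫⁻ l, volume {t | r l t ≤ R}` (`int_sig`) `≤ ofReal (2R) * N`
(`line_sig_le`; the function is `0` outside `L`) `≤ ofReal (64 R²)`. -/
theorem mA_le (H : Hy lam r C m) {R : ℝ} (hR : 0 < R) :
    m (Iic R) ≤ ENNReal.ofReal (32 / π * R ^ 2) := by
  have hpi := Real.pi_pos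
  have h0 : ENNReal.ofReal (2 * π) ≠ 0 := by
    rw [Ne, ENNReal.ofReal_eq_zero]
    linarith
  rw [← ENNReal.mul_le_mul_iff_right h0 ENNReal.ofReal_ne_top, ← int_sig H R,
    ← ENNReal.ofReal_mul (by positivity)]
  have h1 : ∫⁻ l, volume {t | r l t ≤ R} ∂lam ≤
      ENNReal.ofReal (2 * R) * lam {l | ∃ t, r l t ≤ R} := by
    rw [← setLIntegral_const, ← lintegral_indicator (meas_LR H R)]
    refine lintegral_mono_ae ?_
    filter_upwards [H.ln] with l hl
    by_cases hx : l ∈ {l | ∃ t, r l t ≤ R}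
    · rw [indicator_of_mem hx]
      exact line_sig_le hl R
    · rw [indicator_of_notMem hx]
      have he : {t | r l t ≤ R} = ∅ := by
        ext t
        constructor
        · intro ht
          exact absurd ⟨t, ht⟩ hx
        · intro ht
          exact absurd ht (notMem_empty t)
      rw [he, measure_empty]
  refine h1.trans ((mul_le_mul_right (NR_le H hR) _).trans ?_)
  rw [← ENNReal.ofReal_mul (by positivity)]
  refine ENNReal.ofReal_le_ofReal (le_of_eq ?_)
  field_simp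

end PPF
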