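import Pool.Agent.Lib.MP_a4f5e0_gt.A.ADefs
import Pool.Agent.Lib.MP_a4f5e0_gt.A.AJ18
import Pool.Agent.Lib.MP_a4f5e0_gt.A.AJ24
import Pool.Agent.Lib.MP_a4f5e0_gt.A.AJ25
set_option autoImplicit false

open MeasureTheory Set Filter Topology Real

noncomputable section

namespace PPF

variable {Λ : Type*} [MeasurableSpace Λ] {lam : Measure Λ} {r C : Λ → ℝ → ℝ} {m : Measure ℝ}

/-- JOB AJ27.  (A').  `ofReal (2π) * m (Iic R) = ∫⁻ l, volume {t | r l t ≤ R}` (`int_sig`)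
`= ∫⁻ l in L, volume {…}` (zero outside `L`) `≤ ∫⁻ l in L, ∫⁻ t, fL` (`line_L`, `H.ln`), and
`∫⁻ l in L + ∫⁻ l in Lᶜ = ∫⁻ l` (`lintegral_add_compl`, `meas_LR`), then `int_fL`. -/
theorem Aprime (H : Hy lam r C m) {R : ℝ} (hR : 0 < R) :
    ENNReal.ofReal (2 * π) * m (Iic R) +
      ∫⁻ l in {l | ¬ ∃ t, r l t ≤ R}, (∫⁻ t, fL R (r l t) |C l t|) ∂lam ≤
      ∫⁻ s in Ioi R, ENNReal.ofReal (4 * Wf (R / s)) ∂m := by
  have hm := meas_LR H R
  have h1 : ENNReal.ofReal (2 * π) * m (Iic R) =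
      ∫⁻ l in {l | ∃ t, r l t ≤ R}, volume {t | r l t ≤ R} ∂lam := by
    rw [← int_sig H R, ← lintegral_add_compl _ hm]
    have h0 : ∫⁻ l in {l | ∃ t, r l t ≤ R}ᶜ, volume {t | r l t ≤ R} ∂lam = 0 := by
      refine (setLIntegral_congr_fun hm.compl (fun l hl => ?_)).trans lintegral_zero
      have he : {t | r l t ≤ R} = ∅ := by
        ext t
        simp only [Set.mem_ofPred_eq, mem_empty_iff_false, iff_false]
        exact fun ht => hl ⟨t, ht⟩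
      show volume {t | r l t ≤ R} = 0
      rw [he, measure_empty]
    rw [h0, add_zero]
  have h2 : ∫⁻ l in {l | ∃ t, r l t ≤ R}, volume {t | r l t ≤ R} ∂lam ≤
      ∫⁻ l in {l | ∃ t, r l t ≤ R}, (∫⁻ t, fL R (r l t) |C l t|) ∂lam := by
    refine setLIntegral_mono_ae' hm ?_
    filter_upwards [H.ln] with l hl hex
    exact line_L hl hR hex
  calc ENNReal.ofReal (2 * π) * m (Iic R) +
        ∫⁻ l in {l | ¬ ∃ t, r l t ≤ R}, (∫⁻ t, fL R (r l t) |C l t|) ∂lam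
      ≤ ∫⁻ l in {l | ∃ t, r l t ≤ R}, (∫⁻ t, fL R (r l t) |C l t|) ∂lam +
        ∫⁻ l in {l | ∃ t, r l t ≤ R}ᶜ, (∫⁻ t, fL R (r l t) |C l t|) ∂lam := by
        rw [h1]
        exact add_le_add h2 le_rfl
    _ = ∫⁻ l, (∫⁻ t, fL R (r l t) |C l t|) ∂lam := lintegral_add_compl _ hm
    _ = ∫⁻ s in Ioi R, ENNReal.ofReal (4 * Wf (R / s)) ∂m := int_fL H hR

end PPF
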