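import Pool.Agent.Lib.MP_a4f5e0_gt.A.ADefs
import Pool.Agent.Lib.MP_a4f5e0_gt.A.AJ20
import Pool.Agent.Lib.MP_a4f5e0_gt.A.AJ24
import Pool.Agent.Lib.MP_a4f5e0_gt.A.AJ25
import Pool.Agent.Lib.MP_a4f5e0_gt.A.AJ26
set_option autoImplicit false

open MeasureTheory Set Filter Topology Real

noncomputable section

namespace PPF

variable {Λ : Type*} [MeasurableSpace Λ] {lam : Measure Λ} {r C : Λ → ℝ → ℝ} {m : Measure ℝ}

/-- JOB AJ28.  (B').  Integrate `line_S` over `L = {l | ∃ t, r l t ≤ R}` (a.e. `l`, `H.ln`), with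
`∫⁻ l in L, volume {…} = ofReal (2π) * m (Iic R)` (zero outside `L`, `int_sig`), `int_fS`, `int_fI`:
`P + 2 * (ofReal (2π) * A) ≤ ofReal (πR) * N + ∫⁻_{s>R} ofReal (Mf (R/s)) + ofReal π * A`, where
`P = ∫⁻ l in L, ∫⁻ t, ofReal (1-C²)`, `A = m (Iic R)`, `N = lam L`; `H.hpair`: `N² ≤ 8 P`.  So
`N² + 32π A ≤ 8π R N + 8π A + 8 ∫⁻ Mf`.  `A`, `N` are finite (`H.hmf`, `NR_fin`).  If `∫⁻ Mf = ⊤` the
claim is trivial; otherwise all numbers are finite: pass to real numbers and use
`N² - 8π R N ≥ -16 π² R²` (`(N - 4πR)² ≥ 0`).  Note `8 * ofReal (Mf) = ofReal (8 * Mf)`. -/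
theorem Bprime (H : Hy lam r C m) {R : ℝ} (hR : 0 < R) :
    ENNReal.ofReal (24 * π) * m (Iic R) ≤
      ENNReal.ofReal (16 * π ^ 2 * R ^ 2) +
        ∫⁻ s in Ioi R, ENNReal.ofReal (8 * Mf (R / s)) ∂m := by
  set L := {l | ∃ t, r l t ≤ R} with hLdef
  have hLm : MeasurableSet L := meas_LR H R
  have hM8 : ∫⁻ s in Ioi R, ENNReal.ofReal (8 * Mf (R / s)) ∂m =
      8 * ∫⁻ s in Ioi R, ENNReal.ofReal (Mf (R / s)) ∂m := by
    rw [← lintegral_const_mul' _ _ (by norm_num)]
    refine lintegral_congr fun s => ?_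
    rw [ENNReal.ofReal_mul (by norm_num)]
    norm_num
  have hsig : ∫⁻ l in L, volume {t | r l t ≤ R} ∂lam = ENNReal.ofReal (2 * π) * m (Iic R) := by
    rw [← int_sig H R, ← lintegral_add_compl (μ := lam) (fun l => volume {t | r l t ≤ R}) hLm]
    have h0 : ∫⁻ l in Lᶜ, volume {t | r l t ≤ R} ∂lam = 0 := by
      rw [setLIntegral_congr_fun (g := fun _ => 0) hLm.compl]
      · simp
      · intro l hl
        have : {t | r l t ≤ R} = ∅ := by
          ext t
          simp only [mem_setOf_eq, mem_empty_iff_false, iff_false]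
          exact fun ht => hl ⟨t, ht⟩
        simp [this]
    rw [h0, add_zero]
  have hint : (∫⁻ l in L, (∫⁻ t, ENNReal.ofReal (1 - (C l t) ^ 2)) ∂lam) +
      2 * (ENNReal.ofReal (2 * π) * m (Iic R)) ≤
      ENNReal.ofReal (π * R) * lam L + (∫⁻ s in Ioi R, ENNReal.ofReal (Mf (R / s)) ∂m) +
        ENNReal.ofReal π * m (Iic R) := by
    rw [← hsig]
    have m1 := meas_sig H R
    have m2 := meas_inner H (measurable_fS R)
    have m3 := meas_inner H (measurable_fI R)
    calc (∫⁻ l in L, (∫⁻ t, ENNReal.ofReal (1 - (C l t) ^ 2)) ∂lam) +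
          2 * ∫⁻ l in L, volume {t | r l t ≤ R} ∂lam
        = ∫⁻ l in L, ((∫⁻ t, ENNReal.ofReal (1 - (C l t) ^ 2)) +
            2 * volume {t | r l t ≤ R}) ∂lam := by
          rw [lintegral_add_right _ (m1.const_mul 2), lintegral_const_mul _ m1]
      _ ≤ ∫⁻ l in L, ((ENNReal.ofReal (π * R) + ∫⁻ t, fS R (r l t) |C l t|) +
            ∫⁻ t, fI R (r l t) |C l t|) ∂lam := by
          refine lintegral_mono_ae ?_
          rw [ae_restrict_iff' hLm]
          filter_upwards [H.ln] with l hl hlL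
          exact line_S hl hR hlL
      _ = ENNReal.ofReal (π * R) * lam L + (∫⁻ l in L, (∫⁻ t, fS R (r l t) |C l t|) ∂lam) +
            ∫⁻ l in L, (∫⁻ t, fI R (r l t) |C l t|) ∂lam := by
          rw [lintegral_add_right _ m3, lintegral_add_right _ m2, setLIntegral_const]
      _ ≤ _ := by
          rw [← int_fS H hR, ← int_fI H R]
          gcongr
          · exact Measure.restrict_le_self
          · exact Measure.restrict_le_self
  have hN : lam L < ⊤ := NR_fin H hR
  have hA := H.hmf R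
  have hp := H.hpair R hR
  rw [hM8]
  generalize (∫⁻ l in L, (∫⁻ t, ENNReal.ofReal (1 - (C l t) ^ 2)) ∂lam) = P at hint hp
  generalize (∫⁻ s in Ioi R, ENNReal.ofReal (Mf (R / s)) ∂m) = M at hint ⊢
  generalize lam L = N at hint hp hN
  generalize m (Iic R) = A at hint hA ⊢
  by_cases hM : M = ⊤
  · simp [hM]
  lift N to NNReal using hN.ne
  lift A to NNReal using hA.ne
  lift M to NNReal using hM
  have hP : P ≠ ⊤ := by
    refine ne_top_of_le_ne_top ?_ (le_self_add.trans hint)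
    finiteness
  lift P to NNReal using hP
  have hpi := Real.pi_pos
  have e1 : (P:ℝ) + 2 * (2 * π * A) ≤ π * R * N + M + π * A := by
    have := ENNReal.toReal_mono (by finiteness) hint
    rw [ENNReal.toReal_add (by finiteness) (by finiteness),
      ENNReal.toReal_add (by finiteness) (by finiteness),
      ENNReal.toReal_add (by finiteness) (by finiteness)] at this
    simpa [ENNReal.toReal_mul, ENNReal.toReal_ofReal (by positivity : (0:ℝ) ≤ 2 * π),
      ENNReal.toReal_ofReal (by positivity : (0:ℝ) ≤ π * R),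
      ENNReal.toReal_ofReal hpi.le] using this
  have e2 : (N:ℝ) ^ 2 ≤ 8 * P := by
    have := ENNReal.toReal_mono (by finiteness) hp
    simpa [ENNReal.toReal_mul] using this
  have e3 : 24 * π * A ≤ 16 * π ^ 2 * R ^ 2 + 8 * M := by
    nlinarith [sq_nonneg ((N:ℝ) - 4 * π * R)]
  have e4 := ENNReal.ofReal_le_ofReal e3
  rw [ENNReal.ofReal_add (by positivity) (by positivity), ENNReal.ofReal_mul (by positivity),
    ENNReal.ofReal_mul (q := (M:ℝ)) (by positivity)] at e4
  simpa using e4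

end PPF
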