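import Pool.Agent.Lib.MP_a4f5e0_gt.A.ADefs
import Pool.Agent.Lib.MP_a4f5e0_gt.A.AJ15
import Pool.Agent.Lib.MP_a4f5e0_gt.A.AJ21
import Pool.Agent.Lib.MP_a4f5e0_gt.A.AJ24
set_option autoImplicit false

open MeasureTheory Set Filter Topology Real

noncomputable section

namespace PPF

variable {Λ : Type*} [MeasurableSpace Λ] {lam : Measure Λ} {r C : Λ → ℝ → ℝ} {m : Measure ℝ}

/-- JOB AJ29.  Last step.

The set `G` of `R > 0` with `P R = ∫⁻ l in {l | ¬ ∃ t, r l t ≤ R}, ∫⁻ t, fL R (r l t) |C l t| = 0` has full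
measure in `(0,∞)`, so it is dense in `(0,∞)`; choose a countable `D ⊆ G` which is dense in `(0,∞)`
(e.g. one point of `G` in every rational interval `(p,q)`, `0 ≤ p < q`).  For `R ∈ D`
(`lintegral_eq_zero_iff`, `meas_inner`, `meas_LR`): for a.e. `l`: `(¬ ∃ t, r l t ≤ R)` implies
`∀ᵐ t, fL R (r l t) |C l t| = 0`.  So for a.e. `l` (also `Ln (r l) (C l)`), for a.e. `t`, for all
`R ∈ D`: `(∀ t', R < r l t') → |C l t| ≤ c0 R (r l t)` (`fL = ofReal (|C|/c0 - 1) = 0`, `c0 > 0`).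
Let `t₀` be a minimum point of `r l` (`line_min`), `ρ = r l t₀`.  Then for a.e. `t`:
`(r l t)² (C l t)² ≤ (r l t)² - ρ²`: if `ρ = 0` this is `|C| ≤ 1`; if `ρ > 0`: for all `R ∈ D`, `R < ρ`,
`C² ≤ 1 - R²/(r l t)²`; let `R → ρ` through `D`.  `line_final` concludes. -/
theorem main_lines (H : Hy lam r C m)
    (hP : ∀ᵐ R ∂(volume.restrict (Ioi (0:ℝ))),
      ∫⁻ l in {l | ¬ ∃ t, r l t ≤ R}, (∫⁻ t, fL R (r l t) |C l t|) ∂lam = 0) :
    ∀ᵐ l ∂lam, ∃ t₀ ρ : ℝ, ∀ t, (r l t) ^ 2 = ρ ^ 2 + (t - t₀) ^ 2 := by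
  rw [ae_restrict_iff' measurableSet_Ioi] at hP
  have hdense : ∀ p q : ℝ, 0 ≤ p → p < q → ∃ R, 0 < R ∧ p < R ∧ R < q ∧
      ∫⁻ l in {l | ¬ ∃ t, r l t ≤ R}, (∫⁻ t, fL R (r l t) |C l t|) ∂lam = 0 := by
    intro p q hp hpq
    by_contra hcon
    have hsub : Ioo p q ⊆ {R | ¬ (R ∈ Ioi (0:ℝ) →
        ∫⁻ l in {l | ¬ ∃ t, r l t ≤ R}, (∫⁻ t, fL R (r l t) |C l t|) ∂lam = 0)} := by
      intro R hR hR'
      exact hcon ⟨R, lt_of_le_of_lt hp hR.1, hR.1, hR.2, hR' (lt_of_le_of_lt hp hR.1)⟩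
    have h0 : volume (Ioo p q) = 0 := measure_mono_null hsub hP
    rw [Real.volume_Ioo, ENNReal.ofReal_eq_zero] at h0
    linarith
  have hch : ∀ x : ℚ × ℚ, ∃ R, 0 < R ∧ ((0 ≤ (x.1:ℝ) ∧ (x.1:ℝ) < x.2) →
      (x.1:ℝ) < R ∧ R < (x.2:ℝ)) ∧
      ∫⁻ l in {l | ¬ ∃ t, r l t ≤ R}, (∫⁻ t, fL R (r l t) |C l t|) ∂lam = 0 := by
    intro x
    by_cases hx : 0 ≤ (x.1:ℝ) ∧ (x.1:ℝ) < x.2
    · obtain ⟨R, h1, h2, h3, h4⟩ := hdense _ _ hx.1 hx.2
      exact ⟨R, h1, fun _ => ⟨h2, h3⟩, h4⟩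
    · obtain ⟨R, h1, h2, h3, h4⟩ := hdense 0 1 le_rfl one_pos
      exact ⟨R, h1, fun h => absurd h hx, h4⟩
  choose Rx hRx0 hRx1 hRx2 using hch
  have hmt : ∀ l, ∀ R, Measurable (fun t => fL R (r l t) |C l t|) := by
    intro l R
    have h1 : Measurable (r l) := H.hr.comp measurable_prodMk_left
    have h2 : Measurable (C l) := H.hC.comp measurable_prodMk_left
    exact (measurable_fL R).comp (h1.prodMk (h2.abs))
  have hae : ∀ᵐ l ∂lam, ∀ x : ℚ × ℚ, (¬ ∃ t, r l t ≤ Rx x) →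
      ∀ᵐ t, fL (Rx x) (r l t) |C l t| = 0 := by
    rw [ae_all_iff]
    intro x
    have h1 := hRx2 x
    have hms : MeasurableSet {l | ¬ ∃ t, r l t ≤ Rx x} := (meas_LR H (Rx x)).compl
    rw [lintegral_eq_zero_iff (meas_inner H (measurable_fL (Rx x)))] at h1
    have h2 := (ae_restrict_iff' hms).1 h1
    filter_upwards [h2] with l hl hl'
    have h3 := hl hl'
    have h4 := (lintegral_eq_zero_iff (hmt l (Rx x))).1 h3
    filter_upwards [h4] with t ht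
    exact ht
  filter_upwards [hae, H.ln] with l hl hln
  obtain ⟨t₀, ht₀⟩ := line_min hln
  refine ⟨t₀, r l t₀, line_final hln ht₀ ?_⟩
  have hae2 : ∀ᵐ t, ∀ x : ℚ × ℚ, (¬ ∃ t', r l t' ≤ Rx x) → fL (Rx x) (r l t) |C l t| = 0 := by
    rw [ae_all_iff]
    intro x
    by_cases hx : ¬ ∃ t', r l t' ≤ Rx x
    · filter_upwards [hl x hx] with t ht _
      exact ht
    · exact Eventually.of_forall fun t h => absurd h hx
  filter_upwards [hae2] with t ht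
  have hc0 := H.C1 l t
  have hc1 : (C l t) ^ 2 ≤ 1 := by
    have := abs_le.1 hc0
    nlinarith [this.1, this.2]
  have hs0 := H.r0 l t
  have hρ0 := H.r0 l t₀
  have hρs := ht₀ t
  by_contra hcon
  push Not at hcon
  set κ := (r l t) ^ 2 - (r l t) ^ 2 * (C l t) ^ 2 with hκ
  have hκ0 : 0 ≤ κ := by
    have := mul_le_mul_of_nonneg_left hc1 (sq_nonneg (r l t))
    simp only [mul_one] at this
    linarith
  have hκ1 : κ < (r l t₀) ^ 2 := by linarith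
  have hκ2 : √κ < r l t₀ := by
    rw [Real.sqrt_lt' ] 
    · exact hκ1
    · rcases hρ0.lt_or_eq with h | h
      · exact h
      · rw [← h] at hκ1
        norm_num at hκ1
        linarith
  obtain ⟨p, hp1, hp2⟩ := exists_rat_btwn hκ2
  obtain ⟨q, hq1, hq2⟩ := exists_rat_btwn hp2
  have hp0 : (0:ℝ) ≤ p := (Real.sqrt_nonneg κ).trans hp1.le
  obtain ⟨hR1, hR2⟩ := hRx1 (p, q) ⟨hp0, hq1⟩
  have hR0 := hRx0 (p, q)
  set R := Rx (p, q) with hR
  have hnex : ¬ ∃ t', r l t' ≤ R := by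
    rintro ⟨t', ht'⟩
    have := ht₀ t'
    simp only at hR2
    linarith
  have hfl := ht (p, q) hnex
  rw [← hR] at hfl
  have hRs : R < r l t := by
    simp only at hR2
    linarith
  have hs : 0 < r l t := hR0.trans hRs
  have hc0pos : 0 < c0 R (r l t) := by
    unfold c0
    apply Real.sqrt_pos.2
    have : R ^ 2 / (r l t) ^ 2 < 1 := by
      rw [div_lt_one (by positivity)]
      nlinarith
    linarith
  unfold fL at hfl
  rw [if_pos hRs, ENNReal.ofReal_eq_zero] at hfl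
  have h1 : |C l t| ≤ c0 R (r l t) := by
    have : |C l t| / c0 R (r l t) ≤ 1 := by linarith
    rwa [div_le_one hc0pos] at this
  have h2 : (C l t) ^ 2 ≤ 1 - R ^ 2 / (r l t) ^ 2 := by
    have h3 : |C l t| ^ 2 ≤ (c0 R (r l t)) ^ 2 := pow_le_pow_left₀ (abs_nonneg _) h1 2
    have h4 : (c0 R (r l t)) ^ 2 = 1 - R ^ 2 / (r l t) ^ 2 := by
      unfold c0
      apply Real.sq_sqrt
      have : R ^ 2 / (r l t) ^ 2 < 1 := by
        rw [div_lt_one (by positivity)]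
        nlinarith
      linarith
    rw [sq_abs] at h3
    linarith
  have h5 : (r l t) ^ 2 * (C l t) ^ 2 ≤ (r l t) ^ 2 - R ^ 2 := by
    have := mul_le_mul_of_nonneg_left h2 (sq_nonneg (r l t))
    have h6 : (r l t) ^ 2 * (1 - R ^ 2 / (r l t) ^ 2) = (r l t) ^ 2 - R ^ 2 := by
      field_simp
    linarith
  have h7 : κ < R ^ 2 := by
    have h8 : √κ < R := by
      simp only at hR1
      linarith
    have h9 := Real.sq_sqrt hκ0
    nlinarith [Real.sqrt_nonneg κ]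
  linarith

end PPF
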