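import Pool.Agent.Lib.MP_a4f5e0_gt.A.AJ13
import Pool.Agent.Lib.MP_a4f5e0_gt.A.AJ26
import Pool.Agent.Lib.MP_a4f5e0_gt.A.AJ27
import Pool.Agent.Lib.MP_a4f5e0_gt.A.AJ28
import Pool.Agent.Lib.MP_a4f5e0_gt.A.AJ29

/-!
# Stream A: the analytic theorem, assembled
-/

set_option autoImplicit false

open MeasureTheory Set Filter Topology Real

noncomputable section

namespace PPF

theorem analytic_main {Λ : Type*} [MeasurableSpace Λ] (lam : Measure Λ) [SFinite lam]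
    (r C : Λ → ℝ → ℝ) (hr : Measurable (Function.uncurry r))
    (hC : Measurable (Function.uncurry C))
    (r0 : ∀ l t, 0 ≤ r l t) (rl : ∀ l s t, |r l s - r l t| ≤ |s - t|)
    (rm : ∀ l s t, |s - t| ≤ r l s + r l t)
    (C1 : ∀ l t, |C l t| ≤ 1)
    (hFTC : ∀ᵐ l ∂lam, ∀ a b, r l b - r l a = ∫ t in a..b, C l t)
    (m : Measure ℝ) (hm0 : m (Set.Iio 0) = 0) (hmf : ∀ R, m (Set.Iic R) < ⊤)
    (hm1 : ∀ ε > 0, ∃ δ > 0, ∀ R, 0 < R → R < δ →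
      ENNReal.ofReal ((π - ε) * R ^ 2) ≤ m (Set.Iic R))
    (hdis : ∀ F : ℝ × ℝ → ENNReal, Measurable F →
      ∫⁻ l, (∫⁻ t, F (r l t, |C l t|)) ∂lam =
        ∫⁻ ψ in Set.Ioc 0 (2 * π), (∫⁻ s, F (s, |cos ψ|) ∂m))
    (hpair : ∀ R > 0, (lam {l | ∃ t, r l t ≤ R}) ^ 2 ≤
      8 * ∫⁻ l in {l | ∃ t, r l t ≤ R}, (∫⁻ t, ENNReal.ofReal (1 - (C l t) ^ 2)) ∂lam) :
    ∀ᵐ l ∂lam, ∃ t₀ ρ : ℝ, ∀ t, (r l t) ^ 2 = ρ ^ 2 + (t - t₀) ^ 2 := by
  have _ := hm0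
  have H : Hy lam r C m := ⟨hr, hC, r0, rl, rm, C1, hFTC, hmf, hdis, hpair⟩
  have : SigmaFinite m := sigmaFinite_of_Iic hmf
  have h5 := step5 m (K := 32 / π) (by positivity) (fun R hR => mA_le H hR) hm1
    (fun R hR => le_self_add.trans (Aprime H hR)) (fun R hR => Bprime H hR)
  refine main_lines H ?_
  filter_upwards [h5, ae_restrict_mem measurableSet_Ioi] with R hR5 hR0
  have hA := Aprime H hR0
  rw [hR5] at hA
  have hfin : ENNReal.ofReal (2 * π) * m (Iic R) ≠ ⊤ :=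
    ENNReal.mul_ne_top ENNReal.ofReal_ne_top (hmf R).ne
  have : ENNReal.ofReal (2 * π) * m (Iic R) +
      ∫⁻ l in {l | ¬ ∃ t, r l t ≤ R}, (∫⁻ t, fL R (r l t) |C l t|) ∂lam ≤
      ENNReal.ofReal (2 * π) * m (Iic R) + 0 := by simpa using hA
  exact le_antisymm ((ENNReal.add_le_add_iff_left hfin).1 this) (by positivity)

end PPF
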